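import Pool.Agent.Helper20.ACH.Restr
import Pool.Agent.Helper20.ACH.R5
import Pool.Agent.Helper20.ACH.F1
import Pool.Agent.Helper20.ACH.F2
import Pool.Agent.Helper20.ACH.F3
import Pool.Agent.Helper20.ACH.ATrace

/-!
Project SE (MP_9d9192_al), definitions: self-maps of orientable Poincare duality groups of
dimension three, given by an injective endomorphism of finite index.
-/

set_option autoImplicit false

namespace Pool.ACH

/-- Composition of a finitely supported map with a map which is semilinear over an injective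
endomorphism. -/
theorem IsFs.comp_inj {G P Q : Type} [Group G] [AddCommGroup P] [AddCommGroup Q]
    [DistribMulAction G P] [DistribMulAction G Q] {φ : Q →+ ℤ} (hφ : IsFs G φ) (f : G →* G)
    (hf : Function.Injective f) (F : P →+ Q) (hF : ∀ (g : G) (p : P), F (g • p) = f g • F p) :
    IsFs G (φ.comp F) := by
  intro p
  have h := (hφ (F p)).preimage (hf.injOn (s := f ⁻¹' {g | φ (g⁻¹ • F p) ≠ 0}))
  refine h.subset fun g hg => ?_
  simp only [Set.mem_preimage, Set.mem_ofPred_eq]
  simp only [Set.mem_ofPred_eq, AddMonoidHom.coe_comp, Function.comp_apply, hF, map_inv] at hg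
  exact hg

/-- A chain map over the endomorphism `f`; `c` is its coefficient on the fundamental class. -/
structure EMap {G P0 P1 P2 P3 : Type} [Group G] [AddCommGroup P0] [AddCommGroup P1]
    [AddCommGroup P2] [AddCommGroup P3] [DistribMulAction G P0] [DistribMulAction G P1]
    [DistribMulAction G P2] [DistribMulAction G P3] (D : PD3Data G P0 P1 P2 P3)
    (f : G →* G) where
  F0 : P0 →+ P0
  F1 : P1 →+ P1
  F2 : P2 →+ P2
  F3 : P3 →+ P3
  F0_smul : ∀ (g : G) (p : P0), F0 (g • p) = f g • F0 p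
  F1_smul : ∀ (g : G) (p : P1), F1 (g • p) = f g • F1 p
  F2_smul : ∀ (g : G) (p : P2), F2 (g • p) = f g • F2 p
  F3_smul : ∀ (g : G) (p : P3), F3 (g • p) = f g • F3 p
  ε_F0 : ∀ p, D.ε (F0 p) = D.ε p
  comm0 : ∀ p, F0 (D.d0 p) = D.d0 (F1 p)
  comm1 : ∀ p, F1 (D.d1 p) = D.d1 (F2 p)
  comm2 : ∀ p, F2 (D.d2 p) = D.d2 (F3 p)
  c : ℤ
  ψ : P2 →+ ℤ
  ψ_fs : IsFs G ψ
  deg : ∀ p, D.z (F3 p) = c * D.z p + ψ (D.d2 p)

/-- `f` is an injective endomorphism with image of finite index `m` of the orientable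
`PD_3`-group `G`, realised by a chain map with coefficient `c`. -/
def SelfMap (G : Type) [Group G] (f : G →* G) (m : ℕ) (c : ℤ) : Prop :=
  Function.Injective f ∧ f.range.index = m ∧ m ≠ 0 ∧
  ∃ (P0 P1 P2 P3 : Type) (_ : AddCommGroup P0) (_ : AddCommGroup P1) (_ : AddCommGroup P2)
    (_ : AddCommGroup P3) (_ : DistribMulAction G P0) (_ : DistribMulAction G P1)
    (_ : DistribMulAction G P2) (_ : DistribMulAction G P3) (D : PD3Data G P0 P1 P2 P3)
    (E : EMap D f), E.c = c

theorem SelfMap.fg {G : Type} [Group G] {f : G →* G} {m : ℕ} {c : ℤ} (h : SelfMap G f m c) :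
    Group.FG G := by
  obtain ⟨_, _, _, P0, P1, P2, P3, _, _, _, _, _, _, _, _, D, _⟩ := h
  exact D.fg

/-- The restriction of an endomorphism to an invariant subgroup. -/
def resEnd {G : Type} [Group G] (f : G →* G) (H : Subgroup G) (h : ∀ g ∈ H, f g ∈ H) :
    H →* H where
  toFun x := ⟨f x, h x x.2⟩
  map_one' := by ext; simp
  map_mul' x y := by ext; simp

@[simp] theorem coe_resEnd {G : Type} [Group G] (f : G →* G) (H : Subgroup G)
    (h : ∀ g ∈ H, f g ∈ H) (x : H) : ((resEnd f H h x : H) : G) = f x := rfl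

/-- Conjugation by `c` after `f`. -/
def conjEnd {G : Type} [Group G] (c : G) (f : G →* G) : G →* G :=
  (MulAut.conj c).toMonoidHom.comp f

@[simp] theorem conjEnd_apply {G : Type} [Group G] (c : G) (f : G →* G) (g : G) :
    conjEnd c f g = c * f g * c⁻¹ := rfl

/-- The fixed points of an endomorphism on a quotient by an invariant normal subgroup. -/
def FixE {G : Type} [Group G] (f : G →* G) (L : Subgroup G) [L.Normal]
    (h : ∀ g ∈ L, f g ∈ L) : Type :=
  {x : G ⧸ L // QuotientGroup.map L L f (fun g hg => h g hg) x = x}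

/-- Pullback of invariant maps by a semilinear map over an endomorphism. -/
def pullE {L P Q : Type} [Group L] [AddCommGroup P] [DistribMulAction L P] [AddCommGroup Q]
    [DistribMulAction L Q] (f : L →* L) (F : P →+ Q)
    (hF : ∀ (g : L) (p : P), F (g • p) = f g • F p) : IM L Q →ₗ[ℚ] IM L P where
  toFun ω := ⟨ω.1.comp F, fun g p => by
    rw [AddMonoidHom.coe_comp, Function.comp_apply, Function.comp_apply, hF, ω.2 (f g) (F p)]⟩
  map_add' a b := by ext p; rfl
  map_smul' c a := by ext p; rfl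

@[simp] theorem pullE_apply {L P Q : Type} [Group L] [AddCommGroup P] [DistribMulAction L P]
    [AddCommGroup Q] [DistribMulAction L Q] (f : L →* L) (F : P →+ Q)
    (hF : ∀ (g : L) (p : P), F (g • p) = f g • F p) (ω : IM L Q) (p : P) :
    (pullE f F hF ω).1 p = ω.1 (F p) := rfl

/-- The finite quotients of `G` of `p`-power order have bounded order. -/
def BddP (p : ℕ) (G : Type) [Group G] : Prop :=
  ∃ N : ℕ, ∀ K : Subgroup G, K.Normal → (∃ k, K.index = p ^ k) → K.index ≤ N

/-- The elements whose image in the abelianization has order prime to `p`. -/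
def Rp (p : ℕ) [Fact p.Prime] (G : Type) [Group G] : Subgroup G where
  carrier := {x | ∃ k : ℕ, ¬ p ∣ k ∧ x ^ k ∈ commutator G}
  one_mem' := ⟨1, fun h => (Nat.Prime.one_lt Fact.out).ne' (Nat.dvd_one.1 h), by
    rw [one_pow]; exact Subgroup.one_mem _⟩
  mul_mem' := by
    rintro x y ⟨k, hk, hx⟩ ⟨l, hl, hy⟩
    refine ⟨k * l, fun h => ?_, ?_⟩
    · rcases (Nat.Prime.dvd_mul (Fact.out : p.Prime)).1 h with h1 | h1
      · exact hk h1
      · exact hl h1
    · rw [← Abelianization.ker_of, MonoidHom.mem_ker] at hx hy ⊢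
      rw [map_pow] at hx hy ⊢
      rw [_root_.map_mul, mul_pow, pow_mul, hx, mul_comm k l, pow_mul, hy, one_pow, one_pow,
        mul_one]
  inv_mem' := by
    rintro x ⟨k, hk, hx⟩
    exact ⟨k, hk, by rw [inv_pow]; exact Subgroup.inv_mem _ hx⟩

/-- The lower exponent-`p` central series, `LP p G 0 = G`. -/
def LP (p : ℕ) (G : Type) [Group G] : ℕ → Subgroup G
  | 0 => ⊤
  | (i + 1) => Subgroup.closure ({x | ∃ a ∈ LP p G i, ∃ g : G, a * g * a⁻¹ * g⁻¹ = x} ∪
      {x | ∃ a ∈ LP p G i, a ^ p = x})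

/-- Commuting elements of order `p` lie in one cyclic group. -/
def RankOne (p : ℕ) (Q : Type) [Group Q] : Prop :=
  ∀ x y : Q, x ^ p = 1 → y ^ p = 1 → x * y = y * x → x ≠ 1 → ∃ k : ℕ, y = x ^ k

end Pool.ACH
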