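import Pool.Agent.Helper20.SE.Base

/-! Project SE (MP_9d9192_al): basic properties of the lower exponent-`p` central series. -/

set_option autoImplicit false

namespace Pool.ACH

variable {G : Type} [Group G] {H : Type} [Group H]

theorem LP_comm_mem {p i : ℕ} {a : G} (ha : a ∈ LP p G i) (g : G) :
    a * g * a⁻¹ * g⁻¹ ∈ LP p G (i + 1) :=
  Subgroup.subset_closure (Or.inl ⟨a, ha, g, rfl⟩)

theorem LP_pow_mem {p i : ℕ} {a : G} (ha : a ∈ LP p G i) : a ^ p ∈ LP p G (i + 1) :=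
  Subgroup.subset_closure (Or.inr ⟨a, ha, rfl⟩)

theorem LP_le {p i : ℕ} (M : Subgroup G) (h1 : ∀ a ∈ LP p G i, ∀ g : G, a * g * a⁻¹ * g⁻¹ ∈ M)
    (h2 : ∀ a ∈ LP p G i, a ^ p ∈ M) : LP p G (i + 1) ≤ M := by
  show Subgroup.closure _ ≤ M
  rw [Subgroup.closure_le]
  rintro x (⟨a, ha, g, rfl⟩ | ⟨a, ha, rfl⟩)
  · exact h1 a ha g
  · exact h2 a ha

theorem LP_map (p : ℕ) (φ : G →* H) (i : ℕ) : (LP p G i).map φ ≤ LP p H i := by
  induction i with
  | zero => exact le_top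
  | succ i ih =>
    rw [Subgroup.map_le_iff_le_comap]
    refine LP_le _ (fun a ha g => ?_) (fun a ha => ?_)
    · have h1 : φ a ∈ LP p H i := ih ⟨a, ha, rfl⟩
      simpa using LP_comm_mem h1 (φ g)
    · have h1 : φ a ∈ LP p H i := ih ⟨a, ha, rfl⟩
      simpa using LP_pow_mem h1

theorem LP_hom_mem (p : ℕ) (φ : G →* H) {i : ℕ} {a : G} (ha : a ∈ LP p G i) :
    φ a ∈ LP p H i := LP_map p φ i ⟨a, ha, rfl⟩

theorem LP_map_surj (p : ℕ) (φ : G →* H) (hφ : Function.Surjective φ) (i : ℕ) :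
    LP p H i ≤ (LP p G i).map φ := by
  induction i with
  | zero =>
    intro x _
    obtain ⟨y, rfl⟩ := hφ x
    exact ⟨y, Subgroup.mem_top y, rfl⟩
  | succ i ih =>
    refine LP_le _ (fun a ha g => ?_) (fun a ha => ?_)
    · obtain ⟨b, hb, rfl⟩ := ih ha
      obtain ⟨k, rfl⟩ := hφ g
      exact ⟨_, LP_comm_mem hb k, by simp⟩
    · obtain ⟨b, hb, rfl⟩ := ih ha
      exact ⟨_, LP_pow_mem hb, by simp⟩

instance LP_normal (p : ℕ) (i : ℕ) : (LP p G i).Normal where
  conj_mem n hn g := LP_hom_mem p (MulAut.conj g).toMonoidHom hn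

theorem LP_succ_le (p i : ℕ) : LP p G (i + 1) ≤ LP p G i := by
  refine LP_le _ (fun a ha g => ?_) (fun a ha => ?_)
  · have h1 : g * a⁻¹ * g⁻¹ ∈ LP p G i :=
      (LP_normal p i).conj_mem _ (Subgroup.inv_mem _ ha) g
    have := Subgroup.mul_mem _ ha h1
    simpa [mul_assoc] using this
  · exact Subgroup.pow_mem _ ha p

theorem LP_antitone (p : ℕ) : Antitone (LP p G) := antitone_nat_of_succ_le (LP_succ_le p)

/-- `LP` is characteristic. -/
theorem LP_map_subtype_normal (p : ℕ) (K : Subgroup G) [K.Normal] (i : ℕ) :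
    ((LP p K i).map K.subtype).Normal where
  conj_mem n hn g := by
    obtain ⟨a, ha, rfl⟩ := hn
    have h1 := LP_hom_mem p (MulAut.conjNormal g : MulAut K).toMonoidHom ha
    refine ⟨_, h1, ?_⟩
    simp

theorem LP_eq_of_succ_eq {p i : ℕ} (h : LP p G (i + 1) = LP p G i) (s : ℕ) (hs : i ≤ s) :
    LP p G s = LP p G i := by
  induction s, hs using Nat.le_induction with
  | base => rfl
  | succ s hs ih =>
    apply le_antisymm
    · exact (LP_succ_le p s).trans ih.le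
    · rw [← h]
      refine LP_le _ (fun a ha g => ?_) (fun a ha => ?_)
      · exact LP_comm_mem (ih.symm ▸ ha) g
      · exact LP_pow_mem (ih.symm ▸ ha)

end Pool.ACH
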