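import Pool.Agent.Helper20.SE.Base

/-! Project SE (MP_9d9192_al). -/

set_option autoImplicit false

namespace Pool.ACH

variable {G : Type} [Group G]

private noncomputable def S1_restrict {P0 P1 P2 P3 : Type} [AddCommGroup P0] [AddCommGroup P1]
    [AddCommGroup P2] [AddCommGroup P3] [DistribMulAction G P0] [DistribMulAction G P1]
    [DistribMulAction G P2] [DistribMulAction G P3] {D : PD3Data G P0 P1 P2 P3} {f : G →* G}
    (E : EMap D f) (H : Subgroup G) (hH : H.index ≠ 0) (hfH : ∀ g ∈ H, f g ∈ H) :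
    EMap (D.restrict H hH) (resEnd f H hfH) where
  F0 := E.F0
  F1 := E.F1
  F2 := E.F2
  F3 := E.F3
  F0_smul g p := E.F0_smul g p
  F1_smul g p := E.F1_smul g p
  F2_smul g p := E.F2_smul g p
  F3_smul g p := E.F3_smul g p
  ε_F0 := E.ε_F0
  comm0 := E.comm0
  comm1 := E.comm1
  comm2 := E.comm2
  c := E.c
  ψ := E.ψ
  ψ_fs := E.ψ_fs.restrict H
  deg := E.deg

/-- PIECE SE-1 (90 lines).  Restriction to an invariant subgroup `H` of finite index: the data
`D.restrict H hH` (see `Rev.restrict` in ACH/Restr.lean), the same `F_i`, `c`, `ψ`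
(`IsFs.restrict`).  Index: `[G : f(H)] = [G : f(G)] [f(G) : f(H)] = m [G : H]`
(`f` injective) and `[G : f(H)] = [G : H] [H : f(H)]`, so `[H : f(H)] = m`. -/
theorem SelfMap.restrict {f : G →* G} {m : ℕ} {c : ℤ} (h : SelfMap G f m c) (H : Subgroup G)
    (hH : H.index ≠ 0) (hfH : ∀ g ∈ H, f g ∈ H) : SelfMap H (resEnd f H hfH) m c := by
  obtain ⟨hinj, hm, hm0, P0, P1, P2, P3, _, _, _, _, _, _, _, _, D, E, hE⟩ := h
  refine ⟨?_, ?_, hm0, P0, P1, P2, P3, _, _, _, _, _, _, _, _, D.restrict H hH,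
    S1_restrict E H hH hfH, hE⟩
  · intro x y hxy
    apply Subtype.ext
    apply hinj
    have h1 := congrArg (fun z : H => (z : G)) hxy
    simpa only [coe_resEnd] using h1
  · have h1 : (resEnd f H hfH).range.map H.subtype = H.map f := by
      ext x
      constructor
      · rintro ⟨y, ⟨z, rfl⟩, rfl⟩
        exact ⟨z, z.2, rfl⟩
      · rintro ⟨y, hy, rfl⟩
        exact ⟨resEnd f H hfH ⟨y, hy⟩, ⟨⟨y, hy⟩, rfl⟩, rfl⟩
    have h2 := Subgroup.index_map_subtype (resEnd f H hfH).range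
    have h3 : (H.map f).index = H.index * f.range.index := Subgroup.index_map_of_injective H hinj
    rw [h1, h3, hm, mul_comm] at h2
    exact (Nat.eq_of_mul_eq_mul_right (Nat.pos_of_ne_zero hH) h2).symm

private theorem S1_smul {P : Type} [AddCommGroup P] [DistribMulAction G P] (f : G →* G) (c : G)
    (F : P →+ P) (hF : ∀ (g : G) (p : P), F (g • p) = f g • F p) (g : G) (p : P) :
    ((DistribSMul.toAddMonoidHom P c).comp F) (g • p) =
      conjEnd c f g • ((DistribSMul.toAddMonoidHom P c).comp F) p := by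
  change c • F (g • p) = conjEnd c f g • c • F p
  rw [hF, smul_smul, smul_smul, conjEnd_apply, inv_mul_cancel_right]

/-- PIECE SE-1 (60 lines).  Inner twists: `F'_i(p) = g • F_i(p)`; `z(g F_3 p) = z(F_3 p) +
γ(d2 F_3 p)` with `γ` from `D.ori g` and `d2 F_3 = F_2 d2`; `γ ∘ F_2` is finitely supported
(`IsFs.comp_inj`).  The range of `conjEnd g f` is a conjugate of the range of `f`. -/
theorem SelfMap.conj {f : G →* G} {m : ℕ} {c : ℤ} (h : SelfMap G f m c) (g : G) :
    SelfMap G (conjEnd g f) m c := by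
  obtain ⟨hinj, hm, hm0, P0, P1, P2, P3, i1, i2, i3, i4, i5, i6, i7, i8, D, E, hE⟩ := h
  obtain ⟨γ, hγ, hγz⟩ := D.ori g
  refine ⟨?_, ?_, hm0, P0, P1, P2, P3, i1, i2, i3, i4, i5, i6, i7, i8, D,
    { F0 := (DistribSMul.toAddMonoidHom P0 g).comp E.F0
      F1 := (DistribSMul.toAddMonoidHom P1 g).comp E.F1
      F2 := (DistribSMul.toAddMonoidHom P2 g).comp E.F2
      F3 := (DistribSMul.toAddMonoidHom P3 g).comp E.F3
      F0_smul := S1_smul f g E.F0 E.F0_smul
      F1_smul := S1_smul f g E.F1 E.F1_smul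
      F2_smul := S1_smul f g E.F2 E.F2_smul
      F3_smul := S1_smul f g E.F3 E.F3_smul
      ε_F0 := fun p => ?_
      comm0 := fun p => ?_
      comm1 := fun p => ?_
      comm2 := fun p => ?_
      c := E.c
      ψ := E.ψ + γ.comp E.F2
      ψ_fs := E.ψ_fs.add (hγ.comp_inj f hinj E.F2 E.F2_smul)
      deg := fun p => ?_ }, hE⟩
  · intro x y hxy
    apply hinj
    rw [conjEnd_apply, conjEnd_apply] at hxy
    exact mul_left_cancel (mul_right_cancel hxy)
  · have h1 : (conjEnd g f).range = f.range.map (MulAut.conj g).toMonoidHom :=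
      (MonoidHom.map_range (MulAut.conj g).toMonoidHom f).symm
    rw [h1, ← hm]
    exact Subgroup.index_map_equiv f.range (MulAut.conj g)
  · change D.ε (g • E.F0 p) = D.ε p
    rw [D.ε_smul, E.ε_F0]
  · change g • E.F0 (D.d0 p) = D.d0 (g • E.F1 p)
    rw [D.d0_smul, E.comm0]
  · change g • E.F1 (D.d1 p) = D.d1 (g • E.F2 p)
    rw [D.d1_smul, E.comm1]
  · change g • E.F2 (D.d2 p) = D.d2 (g • E.F3 p)
    rw [D.d2_smul, E.comm2]
  · change D.z (g • E.F3 p) = E.c * D.z p + (E.ψ (D.d2 p) + γ (E.F2 (D.d2 p)))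
    rw [hγz, E.deg, ← E.comm2]
    ring

end Pool.ACH
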