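import Pool.Agent.Helper20.SE.Base

/-! Project SE (MP_9d9192_al). -/

set_option autoImplicit false

namespace Pool.ACH

variable {G : Type} [Group G]

private theorem S10_comm_index {G : Type} [Group G] (hfg : Group.FG G) (hF : FAb G) :
    (commutator G).index ≠ 0 := by
  have h : ¬ ∃ f : G →* Multiplicative ℤ, Function.Surjective f := by
    rintro ⟨f, hf⟩
    refine hF ⊤ (by rw [Subgroup.index_top]; exact one_ne_zero) ⟨f.comp (⊤ : Subgroup G).subtype, ?_⟩
    intro y
    obtain ⟨x, hx⟩ := hf y
    exact ⟨⟨x, Subgroup.mem_top x⟩, hx⟩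
  have h1 : Finite (Abelianization G) := finite_abelianization hfg h
  have h2 : Finite (G ⧸ commutator G) := h1
  exact Nat.card_pos.ne'

/-- PIECE SE-10a (40 lines).  As `derived_index` (ACH/SG.lean), by induction: if `D = derivedSeries
G n` has finite index then it is finitely generated and `FAb`, so `commutator D` has finite index
in `D`. -/
theorem derived_index_all (hfg : Group.FG G) (hF : FAb G) (n : ℕ) :
    (derivedSeries G n).index ≠ 0 := by
  induction n with
  | zero =>
    rw [derivedSeries_zero, Subgroup.index_top]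
    exact one_ne_zero
  | succ n ih =>
    have h2 : (derivedSeries G n).FiniteIndex := ⟨ih⟩
    have h3 : Group.FG (derivedSeries G n) := by
      have := hfg
      exact Subgroup.fg_of_index_ne_zero _
    have h4 : FAb (derivedSeries G n) := hF.restrict _ ih
    have h5 : (commutator (derivedSeries G n)).index ≠ 0 := S10_comm_index h3 h4
    have h6 : derivedSeries G (n + 1) =
        (commutator (derivedSeries G n)).map (derivedSeries G n).subtype := by
      rw [Subgroup.map_subtype_commutator, derivedSeries_succ]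
    rw [h6, Subgroup.index_map_subtype]
    exact mul_ne_zero h5 ih

/-- The iterates of `Rp`. -/
noncomputable def Dp (p : ℕ) [Fact p.Prime] (G : Type) [Group G] : ℕ → Subgroup G
  | 0 => ⊤
  | (j + 1) => (Rp p (Dp p G j)).map (Dp p G j).subtype

/-- PIECE SE-10b (50 lines).  By induction on `j` (for `β^(j+1) = β^j ∘ β`): `β g ∈ Rp p G`, i.e.
`(β g)^k ∈ commutator G`, and `β^j : G → Dp j` is a homomorphism, so
`(β^j (β g))^k ∈ [Dp j, Dp j]`. -/
theorem pow_mem_Dp (p : ℕ) [Fact p.Prime] (β : Monoid.End G) (hβ : ∀ g, β g ∈ Rp p G) (j : ℕ)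
    (g : G) : (β ^ j : Monoid.End G) g ∈ Dp p G j := by
  induction j generalizing g with
  | zero => exact Subgroup.mem_top _
  | succ j ih =>
    have h1 : (β ^ (j + 1) : Monoid.End G) g = (β ^ j : Monoid.End G) (β g) := by
      rw [pow_succ]
      rfl
    rw [h1]
    obtain ⟨k, hk, hc⟩ := hβ g
    let φ : G →* Dp p G j := MonoidHom.codRestrict (β ^ j : Monoid.End G) (Dp p G j) ih
    refine ⟨φ (β g), ⟨k, hk, ?_⟩, rfl⟩
    have h2 : (commutator G).map φ ≤ commutator (Dp p G j) := by
      rw [commutator_def, commutator_def, Subgroup.map_commutator]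
      exact Subgroup.commutator_mono le_top le_top
    rw [← map_pow]
    exact h2 (Subgroup.mem_map_of_mem φ hc)

/-- PIECE SE-10c (60 lines).  `β^j(G) ≤ Dp j` and the index of `β^j(G)` divides `M^j`, where
`M` is the index of `β(G)`: `β^(j+1)(G) = β^j(β(G))` has index dividing `M` in `β^j(G)`
(`Subgroup.relIndex_map_map`, or similar). -/
theorem Dp_index (p : ℕ) [Fact p.Prime] (β : Monoid.End G) (hβ : ∀ g, β g ∈ Rp p G)
    (hM : (MonoidHom.range (β : G →* G)).index ≠ 0) (j : ℕ) :
    (Dp p G j).index ≠ 0 ∧ (Dp p G j).index ≤ (MonoidHom.range (β : G →* G)).index ^ j := by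
  have key : ∀ j : ℕ, (MonoidHom.range ((β ^ j : Monoid.End G) : G →* G)).index ≠ 0 ∧
      (MonoidHom.range ((β ^ j : Monoid.End G) : G →* G)).index ≤
        (MonoidHom.range (β : G →* G)).index ^ j := by
    intro j
    induction j with
    | zero =>
      have h0 : MonoidHom.range ((β ^ 0 : Monoid.End G) : G →* G) = ⊤ := by
        rw [pow_zero]
        exact MonoidHom.range_eq_top.2 fun x => ⟨x, rfl⟩
      rw [h0, Subgroup.index_top, pow_zero]
      exact ⟨one_ne_zero, le_rfl⟩
    | succ j ih =>
      have hgen : ∀ a b : G →* G, (a.comp b).range.index =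
          (b.range ⊔ a.ker).index * a.range.index := by
        intro a b
        rw [MonoidHom.range_comp, Subgroup.index_map]
      have h1 : (MonoidHom.range ((β ^ (j + 1) : Monoid.End G) : G →* G)).index =
          (MonoidHom.range (β : G →* G) ⊔
            MonoidHom.ker ((β ^ j : Monoid.End G) : G →* G)).index *
              (MonoidHom.range ((β ^ j : Monoid.End G) : G →* G)).index := by
        rw [pow_succ]
        exact hgen (β ^ j : Monoid.End G) β
      have h2 := Subgroup.index_dvd_of_le (le_sup_left :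
        MonoidHom.range (β : G →* G) ≤ MonoidHom.range (β : G →* G) ⊔
          MonoidHom.ker ((β ^ j : Monoid.End G) : G →* G))
      constructor
      · rw [h1]
        exact mul_ne_zero (ne_zero_of_dvd_ne_zero hM h2) ih.1
      · rw [h1, pow_succ, mul_comm]
        exact Nat.mul_le_mul ih.2 (Nat.le_of_dvd (Nat.pos_of_ne_zero hM) h2)
  have hle : MonoidHom.range ((β ^ j : Monoid.End G) : G →* G) ≤ Dp p G j := by
    rintro _ ⟨g, rfl⟩
    exact pow_mem_Dp p β hβ j g
  have hd := Subgroup.index_dvd_of_le hle
  exact ⟨ne_zero_of_dvd_ne_zero (key j).1 hd,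
    (Nat.le_of_dvd (Nat.pos_of_ne_zero (key j).1) hd).trans (key j).2⟩

/-- PIECE SE-10d (50 lines).  Induction on `j`.  If `x ∈ Dp j` and `x^k ∈ [Dp j, Dp j]`, `p ∤ k`,
then `π(x)^k ∈ derivedSeries Q (j+1)`; the order of `π x` is a power of `p`, so
`π x = (π(x)^k)^u` for some `u`. -/
theorem Dp_map_le (p : ℕ) [Fact p.Prime] (Q : Type) [Group Q] [Finite Q] (hQ : IsPGroup p Q)
    (π : G →* Q) (j : ℕ) : (Dp p G j).map π ≤ derivedSeries Q j := by
  induction j with
  | zero => rw [derivedSeries_zero]; exact le_top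
  | succ j ih =>
    rintro z ⟨x, hx, rfl⟩
    obtain ⟨y, ⟨k, hk, hy⟩, rfl⟩ := hx
    have h1 : (commutator (Dp p G j)).map (π.comp (Dp p G j).subtype) ≤
        derivedSeries Q (j + 1) := by
      rw [← Subgroup.map_map, Subgroup.map_subtype_commutator, Subgroup.map_commutator,
        derivedSeries_succ]
      exact Subgroup.commutator_mono ih ih
    have h2 : π ((Dp p G j).subtype y) ^ k ∈ derivedSeries Q (j + 1) := by
      have h := h1 (Subgroup.mem_map_of_mem (π.comp (Dp p G j).subtype) hy)
      rw [map_pow] at h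
      exact h
    obtain ⟨m, hm⟩ := hQ (π ((Dp p G j).subtype y))
    have hcop : Nat.Coprime k (orderOf (π ((Dp p G j).subtype y))) := by
      refine Nat.Coprime.coprime_dvd_right (orderOf_dvd_of_pow_eq_one hm) ?_
      exact Nat.Coprime.pow_right _ ((Nat.Prime.coprime_iff_not_dvd Fact.out).2 hk).symm
    obtain ⟨u, hu⟩ := exists_pow_eq_self_of_coprime hcop
    rw [← hu]
    exact Subgroup.pow_mem _ h2 u

end Pool.ACH
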