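import Mathlib

/-! Project SE (MP_9d9192_al): the lower central series. -/

set_option autoImplicit false

namespace Pool.ACH

/-- PIECE SE-9a (50 lines).  `[γ_a, γ_b] ≤ γ_{a+b+1}` (`γ_0 = Q`), by induction on `b`:
`[γ_a, [γ_b, Q]]` is contained in a normal subgroup `N` as soon as `[[Q, γ_a], γ_b]` and
`[[γ_a, γ_b], Q]` are (three subgroups, `Subgroup.commutator_commutator_eq_bot_of_rotate` in
the quotient `Q ⧸ N`, or the version for normal subgroups if there is one). -/
theorem lcs_comm (Q : Type) [Group Q] (a b : ℕ) :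
    ⁅(⊤ : Subgroup Q).lowerCentralSeries a, (⊤ : Subgroup Q).lowerCentralSeries b⁆ ≤
      (⊤ : Subgroup Q).lowerCentralSeries (a + b + 1) := by
  have three : ∀ (N H₁ H₂ H₃ : Subgroup Q) [N.Normal], ⁅⁅H₂, H₃⁆, H₁⁆ ≤ N →
      ⁅⁅H₃, H₁⁆, H₂⁆ ≤ N → ⁅⁅H₁, H₂⁆, H₃⁆ ≤ N := by
    intro N H₁ H₂ H₃ _ h1 h2
    have key : ∀ H : Subgroup Q, H.map (QuotientGroup.mk' N) = ⊥ ↔ H ≤ N := by
      intro H
      rw [Subgroup.map_eq_bot_iff, QuotientGroup.ker_mk']
    rw [← key, Subgroup.map_commutator, Subgroup.map_commutator] at h1 h2 ⊢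
    exact Subgroup.commutator_commutator_eq_bot_of_rotate h1 h2
  induction b generalizing a with
  | zero => exact le_rfl
  | succ b ih =>
    rw [Subgroup.commutator_comm, Subgroup.lowerCentralSeries_succ]
    apply three
    · rw [Subgroup.commutator_comm ⊤, ← Subgroup.lowerCentralSeries_succ]
      have := ih (a + 1)
      rwa [show a + 1 + b + 1 = a + (b + 1) + 1 by ring] at this
    · exact Subgroup.commutator_mono (ih a) le_rfl

/-- PIECE SE-9a (20 lines).  By induction, `2 (2^j - 1) + 1 = 2^(j+1) - 1`. -/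
theorem derived_le_lcs (Q : Type) [Group Q] (j : ℕ) :
    derivedSeries Q j ≤ (⊤ : Subgroup Q).lowerCentralSeries (2 ^ j - 1) := by
  induction j with
  | zero => exact le_rfl
  | succ j ih =>
    rw [derivedSeries_succ]
    refine (Subgroup.commutator_mono ih ih).trans ((lcs_comm Q _ _).trans (le_of_eq ?_))
    congr 1
    have : 1 ≤ 2 ^ j := Nat.one_le_two_pow
    rw [pow_succ]
    omega

/-- PIECE SE-9b (60 lines).  For `i < n` the term `γ_{i+1}` is a proper subgroup of `γ_i`
(otherwise `γ_j = γ_i` for all `j ≥ i`, so `γ_n = γ_i = ⊥`, as `Q` is nilpotent), so the relative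
index is at least `p`. -/
theorem lcs_index (Q : Type) [Group Q] [Finite Q] (p : ℕ) [Fact p.Prime] (hQ : IsPGroup p Q)
    (n : ℕ) (h : (⊤ : Subgroup Q).lowerCentralSeries n ≠ ⊥) :
    p ^ n ≤ ((⊤ : Subgroup Q).lowerCentralSeries n).index := by
  have hnil : Group.IsNilpotent Q := hQ.isNilpotent
  obtain ⟨c, hc⟩ := Subgroup.nilpotent_iff_lowerCentralSeries.1 hnil
  have hstat : ∀ i : ℕ, (⊤ : Subgroup Q).lowerCentralSeries (i + 1) =
      (⊤ : Subgroup Q).lowerCentralSeries i → (⊤ : Subgroup Q).lowerCentralSeries i = ⊥ := by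
    intro i hi
    have h1 : ∀ j : ℕ, (⊤ : Subgroup Q).lowerCentralSeries (i + j) =
        (⊤ : Subgroup Q).lowerCentralSeries i := by
      intro j
      induction j with
      | zero => rfl
      | succ j ih =>
        rw [← add_assoc, Subgroup.lowerCentralSeries_succ, ih, ← Subgroup.lowerCentralSeries_succ,
          hi]
    have h2 := Subgroup.lowerCentralSeries_antitone (⊤ : Subgroup Q) (Nat.le_add_left c i)
    rw [h1 c, hc] at h2
    exact le_bot_iff.1 h2
  induction n with
  | zero => simp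
  | succ n ih =>
    have hle : (⊤ : Subgroup Q).lowerCentralSeries (n + 1) ≤
        (⊤ : Subgroup Q).lowerCentralSeries n :=
      Subgroup.lowerCentralSeries_antitone (⊤ : Subgroup Q) (Nat.le_succ n)
    have hn : (⊤ : Subgroup Q).lowerCentralSeries n ≠ ⊥ := by
      intro h0
      apply h
      rw [h0] at hle
      exact le_bot_iff.1 hle
    have hrel : p ≤ ((⊤ : Subgroup Q).lowerCentralSeries (n + 1)).relIndex
        ((⊤ : Subgroup Q).lowerCentralSeries n) := by
      obtain ⟨k, hk⟩ := (hQ.to_subgroup ((⊤ : Subgroup Q).lowerCentralSeries n)).index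
        (((⊤ : Subgroup Q).lowerCentralSeries (n + 1)).subgroupOf
          ((⊤ : Subgroup Q).lowerCentralSeries n))
      have hk' : ((⊤ : Subgroup Q).lowerCentralSeries (n + 1)).relIndex
          ((⊤ : Subgroup Q).lowerCentralSeries n) = p ^ k := hk
      rw [hk']
      rcases Nat.eq_zero_or_pos k with h0 | h0
      · exfalso
        rw [h0, pow_zero] at hk'
        have h3 := Subgroup.relIndex_eq_one.1 hk'
        exact hn (hstat n (le_antisymm hle h3))
      · calc p = p ^ 1 := (pow_one p).symm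
          _ ≤ p ^ k := Nat.pow_le_pow_right (Fact.out : p.Prime).pos h0
    rw [← Subgroup.relIndex_mul_index hle, pow_succ, mul_comm]
    exact Nat.mul_le_mul hrel (ih hn)

end Pool.ACH
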