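import Pool.Agent.Helper20.SE.S8
import Pool.Agent.Helper20.SE.S9
import Pool.Agent.Helper20.SE.S10

/-! Project SE (MP_9d9192_al). -/

set_option autoImplicit false

namespace Pool.ACH

variable {G : Type} [Group G]

private theorem sq_lt (j : ℕ) (hj : 5 ≤ j) : j * j < 2 ^ j := by
  induction j, hj using Nat.le_induction with
  | base => decide
  | succ n hn ih =>
    rw [pow_succ]
    nlinarith

private theorem exists_j (M p : ℕ) (hp : 2 ≤ p) : ∃ j : ℕ, M ^ j < p ^ (2 ^ j - 1) := by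
  refine ⟨M + 5, ?_⟩
  have h1 := sq_lt (M + 5) (by omega)
  have h2 : M * (M + 5) < 2 ^ (M + 5) - 1 := by
    have : M * (M + 5) + 2 ≤ (M + 5) * (M + 5) := by nlinarith
    omega
  calc M ^ (M + 5) ≤ (2 ^ M) ^ (M + 5) := Nat.pow_le_pow_left (Nat.lt_two_pow_self).le _
    _ = 2 ^ (M * (M + 5)) := (pow_mul _ _ _).symm
    _ < 2 ^ (2 ^ (M + 5) - 1) := Nat.pow_lt_pow_right (by omega) h2
    _ ≤ p ^ (2 ^ (M + 5) - 1) := Nat.pow_le_pow_left hp _

/-- PIECE SE-11 (90 lines).  Suppose `BddP p G` is false.  Let `M` be the index of `β(G)`.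
Choose `j` with `M^j < p^(2^j - 1)`.  With `c = 2^j - 1`, `derivedSeries G c` has finite index
(`derived_index_all`), so there is a normal `K` of `p`-power index larger than it; so
`derivedSeries G c` is not contained in `K`, i.e. `Q = G ⧸ K` has
`derivedSeries Q c ≠ ⊥` (`derivedSeries` maps onto `derivedSeries`), so
`(⊤ : Subgroup Q).lowerCentralSeries c ≠ ⊥` (`Subgroup.derived_le_lower_central`), and
`p^c ≤` its index (`lcs_index`) `≤` index of `derivedSeries Q j` (`derived_le_lcs`) `≤` index of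
the image of `Dp j` (`Dp_map_le`) `≤` index of `Dp j ≤ M^j` (`Dp_index`), a contradiction. -/
theorem lemmaZ (hfg : Group.FG G) (hF : FAb G) (p : ℕ) [Fact p.Prime] (β : Monoid.End G)
    (hM : (MonoidHom.range (β : G →* G)).index ≠ 0) (hβ : ∀ g, β g ∈ Rp p G) : BddP p G := by
  by_contra hno
  obtain ⟨M, hMe⟩ : ∃ M, M = (MonoidHom.range (β : G →* G)).index := ⟨_, rfl⟩
  have hpr : p.Prime := Fact.out
  obtain ⟨j, hj⟩ := exists_j M p hpr.two_le
  have hd := derived_index_all hfg hF (2 ^ j - 1)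
  obtain ⟨K, hKn, ⟨k, hk⟩, hKi⟩ : ∃ K : Subgroup G, K.Normal ∧ (∃ k, K.index = p ^ k) ∧
      (derivedSeries G (2 ^ j - 1)).index < K.index := by
    by_contra hc
    refine hno ⟨(derivedSeries G (2 ^ j - 1)).index, fun K h1 h2 => ?_⟩
    by_contra h3
    exact hc ⟨K, h1, h2, not_le.1 h3⟩
  have hcard : Nat.card (G ⧸ K) = p ^ k := hk
  have hfin : Finite (G ⧸ K) := Nat.finite_of_card_ne_zero (by
    rw [hcard]; exact pow_ne_zero _ hpr.ne_zero)
  have hQ : IsPGroup p (G ⧸ K) := IsPGroup.of_card hcard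
  have hsur : Function.Surjective (QuotientGroup.mk' K) := QuotientGroup.mk'_surjective K
  have h1 : derivedSeries (G ⧸ K) (2 ^ j - 1) ≠ ⊥ := by
    intro h0
    rw [← map_derivedSeries_eq hsur, Subgroup.map_eq_bot_iff, QuotientGroup.ker_mk'] at h0
    have h2 := Nat.le_of_dvd (Nat.pos_of_ne_zero hd) (Subgroup.index_dvd_of_le h0)
    omega
  have h2 : (⊤ : Subgroup (G ⧸ K)).lowerCentralSeries (2 ^ j - 1) ≠ ⊥ := by
    intro h0
    apply h1
    rw [eq_bot_iff, ← h0]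
    exact Subgroup.derived_le_lower_central _
  have h3 := lcs_index (G ⧸ K) p hQ (2 ^ j - 1) h2
  have hne : ∀ H : Subgroup (G ⧸ K), H.index ≠ 0 := fun H => Subgroup.FiniteIndex.index_ne_zero
  have h4 := Nat.le_of_dvd (Nat.pos_of_ne_zero (hne _))
    (Subgroup.index_dvd_of_le (derived_le_lcs (G ⧸ K) j))
  have h5 := Nat.le_of_dvd (Nat.pos_of_ne_zero (hne _))
    (Subgroup.index_dvd_of_le (Dp_map_le p (G ⧸ K) hQ (QuotientGroup.mk' K) j))
  have h6 := Dp_index p β hβ hM j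
  have h7 := Nat.le_of_dvd (Nat.pos_of_ne_zero h6.1)
    (Subgroup.index_map_dvd (Dp p G j) hsur)
  have h8 := h6.2
  rw [← hMe] at h8
  omega

/-- PIECE SE-11 (20 lines).  `β = f^N` of `pow_le_Rp`; its image has index `m^N ≠ 0`
(`SelfMap.pow`). -/
theorem SelfMap.bdd_of_dvd {f : Monoid.End G} {m : ℕ} {c : ℤ} (hS : SelfMap G f m c)
    (hF : FAb G) (p : ℕ) [Fact p.Prime] (hp : (p : ℤ) ∣ (m : ℤ) * c) : BddP p G := by
  obtain ⟨N, _, hN⟩ := hS.pow_le_Rp hF p hp
  refine lemmaZ hS.fg hF p (f ^ N) ?_ hN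
  obtain ⟨_, h1, h2, _⟩ := hS.pow N
  rw [h1]
  exact h2

end Pool.ACH
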