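import Pool.Agent.Helper20.SE.LPb

/-! Project SE (MP_9d9192_al): the lower exponent-`p` central series. -/

set_option autoImplicit false

namespace Pool.ACH

variable {G : Type} [Group G]

/-- PIECE SE-12a (80 lines).  By induction: `A = LP p G i` has finite index, so it is finitely
generated; `A ⧸ (LP p G (i+1) ∩ A)` is commutative (`LP_comm_mem`), of exponent dividing `p`
(`LP_pow_mem`) and finitely generated, so it is finite (`CommGroup.finite_of_fg_torsion`) and its
order is a power of `p` (`IsPGroup.iff_card`). -/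
theorem LP_index (hfg : Group.FG G) (p : ℕ) [Fact p.Prime] (i : ℕ) :
    ∃ k : ℕ, (LP p G i).index = p ^ k := by
  have hp : p.Prime := Fact.out
  induction i with
  | zero =>
    refine ⟨0, ?_⟩
    rw [pow_zero]
    exact Subgroup.index_top
  | succ i ih =>
    obtain ⟨k, hk⟩ := ih
    have hfi : (LP p G i).FiniteIndex := ⟨by rw [hk]; exact pow_ne_zero _ hp.ne_zero⟩
    have hAfg : Group.FG (LP p G i) := Subgroup.fg_of_index_ne_zero _
    have hcomm : ∀ a b : (LP p G i) ⧸ (LP p G (i + 1)).subgroupOf (LP p G i),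
        a * b = b * a := by
      intro a b
      induction a using QuotientGroup.induction_on with
      | H a =>
        induction b using QuotientGroup.induction_on with
        | H b =>
          have h1 : a * b * a⁻¹ * b⁻¹ ∈ (LP p G (i + 1)).subgroupOf (LP p G i) := by
            rw [Subgroup.mem_subgroupOf]
            exact LP_comm_mem a.2 (b : G)
          have h2 := (QuotientGroup.eq_one_iff _).2 h1
          rw [QuotientGroup.mk_mul, QuotientGroup.mk_mul, QuotientGroup.mk_mul,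
            QuotientGroup.mk_inv, QuotientGroup.mk_inv] at h2
          exact (commutatorElement_eq_one_iff_commute.1 h2).eq
    let _ : CommGroup ((LP p G i) ⧸ (LP p G (i + 1)).subgroupOf (LP p G i)) :=
      { (inferInstance : Group ((LP p G i) ⧸ (LP p G (i + 1)).subgroupOf (LP p G i))) with
        mul_comm := hcomm }
    have hpow : ∀ a : (LP p G i) ⧸ (LP p G (i + 1)).subgroupOf (LP p G i), a ^ p = 1 := by
      intro a
      induction a using QuotientGroup.induction_on with
      | H a =>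
        have h1 : a ^ p ∈ (LP p G (i + 1)).subgroupOf (LP p G i) := by
          rw [Subgroup.mem_subgroupOf]
          exact LP_pow_mem a.2
        exact (QuotientGroup.eq_one_iff _).2 h1
    have htor : IsMulTorsion ((LP p G i) ⧸ (LP p G (i + 1)).subgroupOf (LP p G i)) :=
      fun a => isOfFinOrder_iff_pow_eq_one.2 ⟨p, hp.pos, hpow a⟩
    have hQfg : Group.FG ((LP p G i) ⧸ (LP p G (i + 1)).subgroupOf (LP p G i)) :=
      inferInstance
    have hfin : Finite ((LP p G i) ⧸ (LP p G (i + 1)).subgroupOf (LP p G i)) :=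
      CommGroup.finite_of_fg_isMulTorsion _ htor
    have hPG : IsPGroup p ((LP p G i) ⧸ (LP p G (i + 1)).subgroupOf (LP p G i)) :=
      fun a => ⟨1, by rw [pow_one]; exact hpow a⟩
    obtain ⟨l, hl⟩ := IsPGroup.iff_card.1 hPG
    refine ⟨l + k, ?_⟩
    rw [← Subgroup.relIndex_mul_index (LP_succ_le p i), hk, pow_add]
    congr 1

/-- PIECE SE-12b (70 lines).  Induction on `k`, for all `K`.  If `k > 0` the finite `p`-group
`G ⧸ K` has an element `z` of order `p` in its center (`IsPGroup.center_nontrivial`); the preimage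
`K'` of the subgroup generated by `z` is normal of index `p^(k-1)`, so `LP p G (k-1) ≤ K'`, and for
`a ∈ K'`: `a g a⁻¹ g⁻¹ ∈ K` and `a^p ∈ K`.  Use `LP_le`. -/
theorem LP_le_of_index (p : ℕ) [Fact p.Prime] (K : Subgroup G) [K.Normal] (k : ℕ)
    (hk : K.index = p ^ k) : LP p G k ≤ K := by
  have key : ∀ (k : ℕ) (K : Subgroup G), K.Normal → K.index = p ^ k → LP p G k ≤ K := by
    intro k
    induction k with
    | zero =>
      intro K _ hk
      rw [pow_zero, Subgroup.index_eq_one] at hk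
      rw [hk]
      exact le_top
    | succ k ih =>
      intro K hK hk
      have hp : p.Prime := Fact.out
      have hcard : Nat.card (G ⧸ K) = p ^ (k + 1) := hk
      have hfin : Finite (G ⧸ K) :=
        Nat.finite_of_card_ne_zero (by rw [hcard]; exact pow_ne_zero _ hp.ne_zero)
      have hPG : IsPGroup p (G ⧸ K) := IsPGroup.of_card hcard
      have hnt : Nontrivial (G ⧸ K) := by
        rw [← Finite.one_lt_card_iff_nontrivial, hcard]
        exact Nat.one_lt_pow (Nat.succ_ne_zero k) hp.one_lt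
      have hcn : Nontrivial (Subgroup.center (G ⧸ K)) := hPG.center_nontrivial
      have hdvd : p ∣ Nat.card (Subgroup.center (G ⧸ K)) := by
        obtain ⟨n, hn⟩ := IsPGroup.iff_card.mp (hPG.to_subgroup (Subgroup.center (G ⧸ K)))
        rw [hn]
        apply dvd_pow_self
        rintro rfl
        rw [pow_zero] at hn
        exact (Finite.one_lt_card_iff_nontrivial.mpr hcn).ne' hn
      obtain ⟨z, hz⟩ := exists_prime_orderOf_dvd_card' p hdvd
      have hzc : ∀ x : G ⧸ K, x * (z : G ⧸ K) = z * x := fun x =>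
        Subgroup.mem_center_iff.mp z.2 x
      have hoz : orderOf (z : G ⧸ K) = p := by
        rw [Subgroup.orderOf_coe, hz]
      have hzn : (Subgroup.zpowers (z : G ⧸ K)).Normal := by
        refine ⟨?_⟩
        rintro n ⟨m, rfl⟩ g
        refine ⟨m, ?_⟩
        have h1 : Commute g ((z : G ⧸ K) ^ m) := (show Commute g (z : G ⧸ K) from hzc g).zpow_right m
        show (z : G ⧸ K) ^ m = g * (z : G ⧸ K) ^ m * g⁻¹
        rw [h1.eq, mul_inv_cancel_right]
      have hK'n : ((Subgroup.zpowers (z : G ⧸ K)).comap (QuotientGroup.mk' K)).Normal :=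
        hzn.comap _
      have hidx : ((Subgroup.zpowers (z : G ⧸ K)).comap (QuotientGroup.mk' K)).index = p ^ k := by
        rw [Subgroup.index_comap_of_surjective _ (QuotientGroup.mk'_surjective K)]
        have h1 := Subgroup.card_mul_index (Subgroup.zpowers (z : G ⧸ K))
        rw [Nat.card_zpowers, hoz, hcard, pow_succ, mul_comm (p ^ k)] at h1
        exact Nat.eq_of_mul_eq_mul_left hp.pos h1
      have hle := ih _ hK'n hidx
      refine LP_le K (fun a ha g => ?_) (fun a ha => ?_)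
      · obtain ⟨m, hm⟩ := hle ha
        have hm' : (z : G ⧸ K) ^ m = (a : G ⧸ K) := hm
        rw [← QuotientGroup.eq_one_iff]
        have h1 : Commute ((z : G ⧸ K) ^ m) (g : G ⧸ K) :=
          (show Commute (g : G ⧸ K) (z : G ⧸ K) from hzc g).symm.zpow_left m
        rw [QuotientGroup.mk_mul, QuotientGroup.mk_mul, QuotientGroup.mk_mul,
          QuotientGroup.mk_inv, QuotientGroup.mk_inv, ← hm', h1.eq]
        group
      · obtain ⟨m, hm⟩ := hle ha
        have hm' : (z : G ⧸ K) ^ m = (a : G ⧸ K) := hm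
        rw [← QuotientGroup.eq_one_iff, QuotientGroup.mk_pow, ← hm', ← zpow_natCast, ← zpow_mul,
          mul_comm, zpow_mul, zpow_natCast, ← hoz, pow_orderOf_eq_one, one_zpow]
  exact key k K inferInstance hk

/-- PIECE SE-12c (20 lines).  Otherwise `LP p G s = LP p G i` for `s ≥ i` (`LP_eq_of_succ_eq`), so
every normal `K` of `p`-power index contains `LP p G i` (`LP_le_of_index`, `LP_antitone`), which has
finite index (`LP_index`). -/
theorem LP_succ_ne (hfg : Group.FG G) (p : ℕ) [Fact p.Prime] (h : ¬ BddP p G) (i : ℕ) :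
    LP p G (i + 1) ≠ LP p G i := by
  intro heq
  apply h
  refine ⟨(LP p G i).index, fun K hK hKi => ?_⟩
  obtain ⟨k, hk⟩ := hKi
  have h1 : LP p G (max k i) ≤ K :=
    (LP_antitone p (le_max_left k i)).trans (LP_le_of_index p K k hk)
  rw [LP_eq_of_succ_eq heq _ (le_max_right k i)] at h1
  obtain ⟨n, hn⟩ := LP_index hfg p i
  refine Nat.le_of_dvd ?_ (Subgroup.index_dvd_of_le h1)
  rw [hn]
  exact pow_pos (Fact.out : p.Prime).pos n

/-- PIECE SE-12d (60 lines).  `[LP j, LP 1] ≤ LP (j+2)`.  Fix `a ∈ LP p G i`.  The set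
`{b | a b a⁻¹ b⁻¹ ∈ LP p G (i+2)}` contains `x g x⁻¹ g⁻¹` and `x^p` for all `x, g ∈ G`:
modulo the normal subgroup `LP p G (i+2)` the elements `c_x = a x a⁻¹ x⁻¹ ∈ LP p G (i+1)` are
central with `c_x^p = 1`, and `a x a⁻¹ = c_x x`, so `a (x g x⁻¹ g⁻¹) a⁻¹ = x g x⁻¹ g⁻¹` and
`a x^p a⁻¹ = c_x^p x^p = x^p`.  It is a subgroup (modulo `LP p G (i+2)` it is the centralizer of
`a`). -/
theorem LP_comm_two (p i : ℕ) (a : G) (ha : a ∈ LP p G i) (b : G) (hb : b ∈ LP p G 1) :
    a * b * a⁻¹ * b⁻¹ ∈ LP p G (i + 2) := by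
  have hc : ∀ x y : G, Commute
      ((QuotientGroup.mk' (LP p G (i + 2))) (a * x * a⁻¹ * x⁻¹))
      ((QuotientGroup.mk' (LP p G (i + 2))) y) := by
    intro x y
    have h1 : (a * x * a⁻¹ * x⁻¹) * y * (a * x * a⁻¹ * x⁻¹)⁻¹ * y⁻¹ ∈ LP p G (i + 2) :=
      LP_comm_mem (LP_comm_mem ha x) y
    have h2 : (QuotientGroup.mk' (LP p G (i + 2)))
        ((a * x * a⁻¹ * x⁻¹) * y * (a * x * a⁻¹ * x⁻¹)⁻¹ * y⁻¹) = 1 :=
      (QuotientGroup.eq_one_iff _).2 h1
    rw [map_mul, map_mul, map_mul, map_inv, map_inv] at h2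
    exact commutatorElement_eq_one_iff_commute.1 h2
  have hp : ∀ x : G, ((QuotientGroup.mk' (LP p G (i + 2))) (a * x * a⁻¹ * x⁻¹)) ^ p = 1 := by
    intro x
    rw [← map_pow]
    exact (QuotientGroup.eq_one_iff _).2 (LP_pow_mem (LP_comm_mem ha x))
  have hconj : ∀ x : G, (QuotientGroup.mk' (LP p G (i + 2))) a *
      (QuotientGroup.mk' (LP p G (i + 2))) x * ((QuotientGroup.mk' (LP p G (i + 2))) a)⁻¹ =
      (QuotientGroup.mk' (LP p G (i + 2))) (a * x * a⁻¹ * x⁻¹) *
        (QuotientGroup.mk' (LP p G (i + 2))) x := by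
    intro x
    rw [map_mul, map_mul, map_mul, map_inv, map_inv]
    group
  have hM : LP p G 1 ≤ (Subgroup.centralizer {(QuotientGroup.mk' (LP p G (i + 2))) a}).comap
      (QuotientGroup.mk' (LP p G (i + 2))) := by
    refine LP_le _ (fun x _ g => ?_) (fun x _ => ?_)
    · rw [Subgroup.mem_comap, Subgroup.mem_centralizer_singleton_iff]
      obtain ⟨A, hA⟩ : ∃ A, A = (QuotientGroup.mk' (LP p G (i + 2))) a := ⟨_, rfl⟩
      obtain ⟨X, hX⟩ : ∃ X, X = (QuotientGroup.mk' (LP p G (i + 2))) x := ⟨_, rfl⟩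
      obtain ⟨Y, hY⟩ : ∃ Y, Y = (QuotientGroup.mk' (LP p G (i + 2))) g := ⟨_, rfl⟩
      obtain ⟨U, hU⟩ : ∃ U, U = (QuotientGroup.mk' (LP p G (i + 2))) (a * x * a⁻¹ * x⁻¹) :=
        ⟨_, rfl⟩
      obtain ⟨V, hV⟩ : ∃ V, V = (QuotientGroup.mk' (LP p G (i + 2))) (a * g * a⁻¹ * g⁻¹) :=
        ⟨_, rfl⟩
      have h1 := hconj x
      have h2 := hconj g
      have h3 : Commute U Y := hU ▸ hY ▸ hc x g
      have h4 : Commute V X := hV ▸ hX ▸ hc g x
      have h5 : Commute U V := hU ▸ hV ▸ hc x (a * g * a⁻¹ * g⁻¹)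
      have h6 : Commute U X := hU ▸ hX ▸ hc x x
      have h7 : Commute V Y := hV ▸ hY ▸ hc g g
      rw [map_mul, map_mul, map_mul, map_inv, map_inv, ← hA, ← hX, ← hY]
      rw [← hA, ← hX, ← hU] at h1
      rw [← hA, ← hY, ← hV] at h2
      have h8 : A * (X * Y * X⁻¹ * Y⁻¹) * A⁻¹ = X * Y * X⁻¹ * Y⁻¹ := by
        have h9 : A * (X * Y * X⁻¹ * Y⁻¹) * A⁻¹ =
            (A * X * A⁻¹) * (A * Y * A⁻¹) * (A * X * A⁻¹)⁻¹ * (A * Y * A⁻¹)⁻¹ := by group
        rw [h9, h1, h2]
        have h10 : U * X * (V * Y) = (U * V) * (X * Y) := by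
          rw [mul_assoc, ← mul_assoc X, ← h4.eq, mul_assoc, mul_assoc]
        have h11 : V * Y * (U * X) = (U * V) * (Y * X) := by
          rw [mul_assoc, ← mul_assoc Y, ← h3.eq, mul_assoc, ← mul_assoc V, ← h5.eq, mul_assoc]
        have h12 : U * X * (V * Y) * (U * X)⁻¹ * (V * Y)⁻¹ =
            (U * X * (V * Y)) * (V * Y * (U * X))⁻¹ := by group
        rw [h12, h10, h11]
        have h13 : Commute (U * V) (X * Y) := (h6.mul_left h4).mul_right (h3.mul_left h7)
        have h14 : (U * V) * (X * Y) * ((U * V) * (Y * X))⁻¹ =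
            (U * V) * (X * Y) * (Y * X)⁻¹ * (U * V)⁻¹ := by group
        have h15 : Commute (U * V) ((X * Y) * (Y * X)⁻¹) := by
          apply h13.mul_right
          exact ((h3.mul_left h7).mul_right (h6.mul_left h4)).inv_right
        rw [h14, mul_assoc (U * V), h15.eq]
        group
      have h16 : A * (X * Y * X⁻¹ * Y⁻¹) = X * Y * X⁻¹ * Y⁻¹ * A := mul_inv_eq_iff_eq_mul.1 h8
      exact h16.symm
    · rw [Subgroup.mem_comap, Subgroup.mem_centralizer_singleton_iff, map_pow]
      have h1 := hconj x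
      have h2 := hc x x
      have h3 := hp x
      have h4 : (QuotientGroup.mk' (LP p G (i + 2))) a *
          ((QuotientGroup.mk' (LP p G (i + 2))) x) ^ p *
          ((QuotientGroup.mk' (LP p G (i + 2))) a)⁻¹ =
          ((QuotientGroup.mk' (LP p G (i + 2))) x) ^ p := by
        rw [← conj_pow, h1, h2.mul_pow, h3, one_mul]
      exact (mul_inv_eq_iff_eq_mul.1 h4).symm
  have h1 := hM hb
  rw [Subgroup.mem_comap, Subgroup.mem_centralizer_singleton_iff] at h1
  apply (QuotientGroup.eq_one_iff (N := LP p G (i + 2)) _).1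
  show (QuotientGroup.mk' (LP p G (i + 2))) (a * b * a⁻¹ * b⁻¹) = 1
  rw [map_mul, map_mul, map_mul, map_inv, map_inv]
  exact commutatorElement_eq_one_iff_commute.2 h1.symm

end Pool.ACH
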