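import Pool.Agent.Helper20.SE.S12

/-! Project SE (MP_9d9192_al): the lower exponent-`p` central series. -/

set_option autoImplicit false

namespace Pool.ACH

variable {G : Type} [Group G]

/-- PIECE SE-13a (90 lines).  `σ` trivial modulo `LP 1` acts trivially on every factor.
Induction on `j`.  `{x | x⁻¹ σ(x) ∈ LP (j+2)} ∩ LP (j+1)` is closed under products and inverses
(`LP (j+2)` is normal), so it is enough to consider generators of `LP (j+1)`; work in
`G ⧸ LP p G (j+2)`, where `LP (j+1)` is central of exponent `p`.  For `a ∈ LP j`, `σ a = a a'`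
with `a' ∈ LP (j+1)`, `σ g = g g'`, `g' ∈ LP 1`:
`[a a', g g'] = [a, g g'] = [a, g] g [a, g'] g⁻¹ = [a, g]` (`LP_comm_two`), and
`(a a')^p = a^p a'^p = a^p`. -/
theorem factor_trivial (p : ℕ) (σ : G →* G) (h : ∀ g : G, g⁻¹ * σ g ∈ LP p G 1) (j : ℕ)
    (x : G) (hx : x ∈ LP p G j) : x⁻¹ * σ x ∈ LP p G (j + 1) := by
  induction j generalizing x with
  | zero => exact h x
  | succ j ih =>
    have hcomm : ∀ a b : G, a * b * a⁻¹ * b⁻¹ ∈ LP p G (j + 1 + 1) →
        Commute (QuotientGroup.mk' (LP p G (j + 1 + 1)) a)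
          (QuotientGroup.mk' (LP p G (j + 1 + 1)) b) := by
      intro a b hab
      have h1 : QuotientGroup.mk' (LP p G (j + 1 + 1)) (a * b * a⁻¹ * b⁻¹) = 1 :=
        (QuotientGroup.eq_one_iff _).2 hab
      rw [map_mul, map_mul, map_mul, map_inv, map_inv, mul_inv_eq_one,
        mul_inv_eq_iff_eq_mul] at h1
      exact h1
    have hsub : ∀ a : G, a ∈ LP p G j → ∃ a' ∈ LP p G (j + 1), σ a = a * a' := fun a ha =>
      ⟨a⁻¹ * σ a, ih a ha, by group⟩
    have hle : LP p G (j + 1) ≤
        ((QuotientGroup.mk' (LP p G (j + 1 + 1))).comp σ).eqLocus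
          (QuotientGroup.mk' (LP p G (j + 1 + 1))) := by
      refine LP_le _ (fun a ha g => ?_) (fun a ha => ?_)
      · obtain ⟨a', ha', hσa⟩ := hsub a ha
        obtain ⟨g', hg', hσg⟩ : ∃ g' ∈ LP p G 1, σ g = g * g' := ⟨g⁻¹ * σ g, h g, by group⟩
        change QuotientGroup.mk' (LP p G (j + 1 + 1)) (σ (a * g * a⁻¹ * g⁻¹)) =
          QuotientGroup.mk' (LP p G (j + 1 + 1)) (a * g * a⁻¹ * g⁻¹)
        have c1 : ∀ y : G, Commute (QuotientGroup.mk' (LP p G (j + 1 + 1)) a')
            (QuotientGroup.mk' (LP p G (j + 1 + 1)) y) := fun y => hcomm a' y (LP_comm_mem ha' y)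
        have c2 := hcomm a g' (LP_comm_two p j a ha g' hg')
        simp only [map_mul, map_inv, hσa, hσg, mul_inv_rev]
        have c3 := c1 g
        have c4 := c1 g'
        have c5 := c1 a
        generalize QuotientGroup.mk' (LP p G (j + 1 + 1)) a = A at *
        generalize QuotientGroup.mk' (LP p G (j + 1 + 1)) a' = A' at *
        generalize QuotientGroup.mk' (LP p G (j + 1 + 1)) g = B at *
        generalize QuotientGroup.mk' (LP p G (j + 1 + 1)) g' = B' at *
        have e1 : A * A' * (B * B') = A * (B * B') * A' := by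
          rw [mul_assoc, (c3.mul_right c4).eq, ← mul_assoc]
        have e2 : A * (B * B') * A' * (A'⁻¹ * A⁻¹) = A * (B * B') * A⁻¹ := by group
        have e3 : A * (B * B') * A⁻¹ = A * B * A⁻¹ * B' := by
          have h3 : B' * A⁻¹ = A⁻¹ * B' := (c2.symm.inv_right).eq
          calc A * (B * B') * A⁻¹ = A * B * (B' * A⁻¹) := by simp only [mul_assoc]
            _ = A * B * A⁻¹ * B' := by rw [h3, ← mul_assoc]
        rw [e1, e2, e3]
        group
      · obtain ⟨a', ha', hσa⟩ := hsub a ha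
        change QuotientGroup.mk' (LP p G (j + 1 + 1)) (σ (a ^ p)) =
          QuotientGroup.mk' (LP p G (j + 1 + 1)) (a ^ p)
        have c1 := hcomm a' a (LP_comm_mem ha' a)
        have h2 : QuotientGroup.mk' (LP p G (j + 1 + 1)) (a' ^ p) = 1 :=
          (QuotientGroup.eq_one_iff _).2 (LP_pow_mem ha')
        rw [map_pow σ, hσa, map_pow, map_mul, c1.symm.mul_pow, ← map_pow, ← map_pow, h2, mul_one]
    have h1 : QuotientGroup.mk' (LP p G (j + 1 + 1)) (σ x) =
        QuotientGroup.mk' (LP p G (j + 1 + 1)) x := hle hx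
    exact QuotientGroup.eq.1 h1.symm

/-- PIECE SE-13b (70 lines).  If `τ g ∈ g LP (i+1)` for all `g` (`i` arbitrary) then
`τ^p g ∈ g LP (i+2)`: with `τ g = g u`, `u ∈ LP (i+1)` and `τ u = u` modulo `LP (i+2)`
(`factor_trivial`), so `τ^k g = g u^k` modulo `LP (i+2)` (induction on `k`), and
`u^p ∈ LP (i+2)`.  Then induct on `i`: `σ^(p^(i+1)) = (σ^(p^i))^p` (and `σ^(p^i)` is trivial
modulo `LP 1`). -/
theorem pow_trivial (p : ℕ) (σ : Monoid.End G) (h : ∀ g : G, g⁻¹ * σ g ∈ LP p G 1) (i : ℕ)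
    (g : G) : g⁻¹ * (σ ^ (p ^ i) : Monoid.End G) g ∈ LP p G (i + 1) := by
  induction i generalizing g with
  | zero =>
    rw [pow_zero, pow_one]
    exact h g
  | succ i ih =>
    -- all powers of `σ` act trivially on `LP (i+1)` modulo `LP (i+2)`
    have hinv : ∀ (n : ℕ) (x : G), x ∈ LP p G (i + 1) →
        x⁻¹ * (σ ^ n : Monoid.End G) x ∈ LP p G (i + 1 + 1) := by
      intro n
      induction n with
      | zero =>
        intro x _
        rw [pow_zero]
        change x⁻¹ * x ∈ LP p G (i + 1 + 1)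
        rw [inv_mul_cancel]
        exact Subgroup.one_mem _
      | succ n ihn =>
        intro x hx
        rw [pow_succ']
        change x⁻¹ * σ ((σ ^ n : Monoid.End G) x) ∈ LP p G (i + 1 + 1)
        have h1 := ihn x hx
        have hy : (σ ^ n : Monoid.End G) x ∈ LP p G (i + 1) := LP_hom_mem p _ hx
        have h2 := factor_trivial p σ h (i + 1) _ hy
        have h3 := Subgroup.mul_mem _ h1 h2
        have h4 : x⁻¹ * (σ ^ n : Monoid.End G) x * (((σ ^ n : Monoid.End G) x)⁻¹ *
            σ ((σ ^ n : Monoid.End G) x)) = x⁻¹ * σ ((σ ^ n : Monoid.End G) x) := by group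
        exact (congrArg (· ∈ LP p G (i + 1 + 1)) h4).mp h3
    have hu : g⁻¹ * (σ ^ (p ^ i) : Monoid.End G) g ∈ LP p G (i + 1) := ih g
    obtain ⟨u, hu', hgu⟩ : ∃ u ∈ LP p G (i + 1), (σ ^ (p ^ i) : Monoid.End G) g = g * u :=
      ⟨_, hu, by group⟩
    have hk : ∀ k : ℕ, QuotientGroup.mk' (LP p G (i + 1 + 1)) (((σ ^ (p ^ i)) ^ k : Monoid.End G) g)
        = QuotientGroup.mk' (LP p G (i + 1 + 1)) (g * u ^ k) := by
      intro k
      induction k with
      | zero =>
        rw [pow_zero, pow_zero, mul_one]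
        rfl
      | succ k ihk =>
        have e1 : ((σ ^ (p ^ i)) ^ (k + 1) : Monoid.End G) g =
            ((σ ^ (p ^ i)) ^ k : Monoid.End G) (g * u) := by
          rw [← hgu, pow_succ]
          rfl
        have e2 : QuotientGroup.mk' (LP p G (i + 1 + 1)) (((σ ^ (p ^ i)) ^ k : Monoid.End G) u) =
            QuotientGroup.mk' (LP p G (i + 1 + 1)) u := by
          rw [← pow_mul]
          exact (QuotientGroup.eq.2 (hinv _ u hu')).symm
        rw [e1, map_mul, map_mul, ihk, e2, ← map_mul, mul_assoc, ← pow_succ]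
    have hp := hk p
    rw [← pow_mul, ← pow_succ, map_mul] at hp
    have hup : QuotientGroup.mk' (LP p G (i + 1 + 1)) (u ^ p) = 1 :=
      (QuotientGroup.eq_one_iff _).2 (LP_pow_mem hu')
    rw [hup, mul_one] at hp
    exact QuotientGroup.eq.1 hp.symm

end Pool.ACH
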