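import Mathlib

/-! Project SE (MP_9d9192_al). -/

set_option autoImplicit false

namespace Pool.ACH

private theorem S14_step (p : ℕ) [Fact p.Prime] (y : ℤ) (e : ℕ) (h2 : (p : ℤ) ^ 2 ∣ y - 1)
    (he : (p : ℤ) ^ (e + 1) ∣ y ^ p - 1) : (p : ℤ) ^ e ∣ y - 1 := by
  have hp : (p : ℤ) ≠ 0 := by
    have := (Fact.out : p.Prime).ne_zero
    exact_mod_cast this
  have hs : (p : ℤ) ^ 2 ∣ (∑ i ∈ Finset.range p, y ^ i) - p := by
    have h1 : (∑ i ∈ Finset.range p, y ^ i) - p = ∑ i ∈ Finset.range p, (y ^ i - 1) := by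
      rw [Finset.sum_sub_distrib]; simp
    rw [h1]
    apply Finset.dvd_sum
    intro i _
    refine h2.trans ?_
    have := sub_dvd_pow_sub_pow y 1 i
    simpa using this
  obtain ⟨k, hk⟩ := hs
  have hsum : (∑ i ∈ Finset.range p, y ^ i) = p * (1 + p * k) := by
    have : (∑ i ∈ Finset.range p, y ^ i) = p + p ^ 2 * k := by linarith
    rw [this]; ring
  have hg : y ^ p - 1 = (p : ℤ) * ((1 + p * k) * (y - 1)) := by
    have := geom_sum_mul y p
    rw [← this, hsum]; ring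
  rw [hg, pow_succ'] at he
  have h3 : (p : ℤ) ^ e ∣ (1 + p * k) * (y - 1) := (mul_dvd_mul_iff_left hp).1 he
  have hc : IsCoprime ((p : ℤ) ^ e) (1 + p * k) := by
    apply IsCoprime.pow_left
    refine ⟨-k, 1, by ring⟩
  exact hc.dvd_of_dvd_mul_left h3

/-- PIECE SE-14 (70 lines).  Put `y_i = x^(p^i)`, so `y_{i+1} - 1 = (y_i - 1) s_i`,
`s_i = 1 + y_i + … + y_i^(p-1)`.  If `p² ∣ y_i - 1` then `s_i = p` modulo `p²`, so `p² ∣ y_{i+1} - 1`
and `p^(e+1) ∣ y_{i+1} - 1 → p^e ∣ y_i - 1`.  If `p²` divides no `y_i - 1` take `C = 1`.  Otherwise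
let `i0` be the first such `i` and `E` with `¬ p^E ∣ y_{i0} - 1` (`y_{i0} ≠ 1` as `|x| ≥ 2`);
then `C = E + 1` works. -/
theorem pow_bound (p : ℕ) [Fact p.Prime] (x : ℤ) (hx : 2 ≤ |x|) :
    ∃ C : ℕ, ∀ i e : ℕ, (p : ℤ) ^ e ∣ x ^ (p ^ i) - 1 → e ≤ i + C := by
  classical
  by_cases hA : ∃ i : ℕ, (p : ℤ) ^ 2 ∣ x ^ (p ^ i) - 1
  · have hspec := Nat.find_spec hA
    have hmin : ∀ i, i < Nat.find hA → ¬ (p : ℤ) ^ 2 ∣ x ^ (p ^ i) - 1 :=
      fun i hi => Nat.find_min hA hi
    generalize Nat.find hA = i0 at hspec hmin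
    have hne : x ^ (p ^ i0) - 1 ≠ 0 := by
      intro h0
      have h1 : x ^ (p ^ i0) = 1 := by linarith
      have hpp : p ^ i0 ≠ 0 := pow_ne_zero _ (Fact.out : p.Prime).ne_zero
      have h2 : |x| ^ (p ^ i0) = 1 := by rw [← abs_pow, h1, abs_one]
      have h3 : |x| = 1 := (pow_eq_one_iff_of_nonneg (abs_nonneg x) hpp).1 h2
      omega
    obtain ⟨E, hE⟩ : ∃ E : ℕ, ¬ (p : ℤ) ^ E ∣ x ^ (p ^ i0) - 1 := by
      have hfin : FiniteMultiplicity (p : ℤ) (x ^ (p ^ i0) - 1) := by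
        rw [Int.finiteMultiplicity_iff]
        refine ⟨?_, hne⟩
        simpa using (Fact.out : p.Prime).ne_one
      obtain ⟨n, hn⟩ := hfin
      exact ⟨n + 1, hn⟩
    have hall : ∀ j : ℕ, (p : ℤ) ^ 2 ∣ x ^ (p ^ (i0 + j)) - 1 := by
      intro j
      refine hspec.trans ?_
      have h := sub_dvd_pow_sub_pow (x ^ (p ^ i0)) 1 (p ^ j)
      rw [one_pow, ← pow_mul, ← pow_add] at h
      exact h
    have hbd : ∀ j e : ℕ, (p : ℤ) ^ e ∣ x ^ (p ^ (i0 + j)) - 1 → e < E + j + 1 := by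
      intro j
      induction j with
      | zero =>
        intro e he
        by_contra hlt
        apply hE
        have : E ≤ e := by omega
        exact (pow_dvd_pow _ this).trans (by simpa using he)
      | succ j ih =>
        intro e he
        rcases e with _ | e
        · omega
        · have h1 : x ^ (p ^ (i0 + (j + 1))) = (x ^ (p ^ (i0 + j))) ^ p := by
            rw [← pow_mul, ← pow_succ]; rfl
          rw [h1] at he
          have := ih e (S14_step p _ e (hall j) he)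
          omega
    refine ⟨E + 1, fun i e he => ?_⟩
    by_cases hi : i < i0
    · have h1 : ¬ 2 ≤ e := fun h2 => hmin i hi ((pow_dvd_pow _ h2).trans he)
      omega
    · obtain ⟨j, rfl⟩ := Nat.exists_eq_add_of_le (not_lt.1 hi)
      have := hbd j e he
      omega
  · refine ⟨1, fun i e he => ?_⟩
    have h1 : ¬ 2 ≤ e := fun h2 => hA ⟨i, (pow_dvd_pow _ h2).trans he⟩
    omega

/-- PIECE SE-14 (20 lines).  `e i - i` is nondecreasing and bounded. -/
theorem eventually_succ (e : ℕ → ℕ) (he : ∀ i, e i < e (i + 1)) (C : ℕ)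
    (hC : ∀ i, e (i + 1) ≤ i + C) : ∃ l : ℕ, ∀ i, l ≤ i → e (i + 1) = e i + 1 := by
  by_contra hcon
  push Not at hcon
  have key : ∀ m : ℕ, ∃ i : ℕ, i + m ≤ e i := by
    intro m
    induction m with
    | zero =>
      refine ⟨0, by omega⟩
    | succ m ih =>
      obtain ⟨i, hi⟩ := ih
      have hmono : ∀ k : ℕ, i + k + m ≤ e (i + k) := by
        intro k
        induction k with
        | zero => simpa using hi
        | succ k ihk =>
          have := he (i + k)
          have h2 : e (i + (k + 1)) = e (i + k + 1) := rfl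
          omega
      obtain ⟨j, hj, hne⟩ := hcon i
      obtain ⟨k, rfl⟩ := Nat.exists_eq_add_of_le hj
      have h1 := he (i + k)
      have h2 := hmono k
      refine ⟨i + k + 1, by omega⟩
  obtain ⟨i, hi⟩ := key (C + 1)
  have h1 := hC i
  have h2 := he i
  omega

end Pool.ACH
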