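import Pool.Agent.Helper20.SE.S6
import Pool.Agent.Helper20.SE.S13
import Pool.Agent.Helper20.SE.S14

/-! Project SE (MP_9d9192_al). -/

set_option autoImplicit false

namespace Pool.ACH

variable {G : Type} [Group G]

/-- PIECE SE-15a (70 lines).  Let `L = LP p G 1`, of `p`-power index (`LP_index`).  The index of
`f(G) L` divides `m` (as `f(G) ≤ f(G) L`) and a power of `p`, so `f(G) L = G` and the endomorphism
`f̄` of the finite group `G ⧸ L` is surjective, hence a permutation, so `f̄^n = 1` for some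
`n > 0`. -/
theorem exists_pow_trivial (hfg : Group.FG G) (f : Monoid.End G) (p : ℕ) [Fact p.Prime]
    (hp : ¬ p ∣ (MonoidHom.range (f : G →* G)).index) :
    ∃ n : ℕ, 0 < n ∧ ∀ g : G, g⁻¹ * (f ^ n : Monoid.End G) g ∈ LP p G 1 := by
  classical
  obtain ⟨k, hk⟩ := LP_index (G := G) hfg p 1
  have hp1 : p.Prime := Fact.out
  have hfin : Finite (G ⧸ LP p G 1) := by
    have hne : (LP p G 1).index ≠ 0 := by
      rw [hk]
      exact pow_ne_zero _ hp1.ne_zero
    have : (LP p G 1).FiniteIndex := ⟨hne⟩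
    exact Subgroup.finite_quotient_of_finiteIndex
  -- `f(G) L = G`
  have htop : MonoidHom.range (f : G →* G) ⊔ LP p G 1 = ⊤ := by
    rw [← Subgroup.index_eq_one]
    have h1 : (MonoidHom.range (f : G →* G) ⊔ LP p G 1).index ∣ p ^ k := by
      rw [← hk]
      exact Subgroup.index_dvd_of_le le_sup_right
    have h2 : (MonoidHom.range (f : G →* G) ⊔ LP p G 1).index ∣
        (MonoidHom.range (f : G →* G)).index := Subgroup.index_dvd_of_le le_sup_left
    obtain ⟨j, _, hj⟩ := (Nat.dvd_prime_pow hp1).1 h1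
    rcases Nat.eq_zero_or_pos j with h0 | h0
    · rw [hj, h0, pow_zero]
    · exact absurd (((hj ▸ dvd_pow_self p h0.ne') : p ∣ _).trans h2) hp
  let fb : G ⧸ LP p G 1 →* G ⧸ LP p G 1 :=
    QuotientGroup.map (LP p G 1) (LP p G 1) (f : G →* G) (fun g hg => LP_hom_mem p (f : G →* G) hg)
  have hfb : ∀ g : G, fb (g : G ⧸ LP p G 1) = ((f g : G) : G ⧸ LP p G 1) := fun g => rfl
  have hsurj : Function.Surjective fb := by
    intro x
    obtain ⟨g, rfl⟩ := QuotientGroup.mk_surjective x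
    have hg : g ∈ ((MonoidHom.range (f : G →* G) ⊔ LP p G 1 : Subgroup G) : Set G) := by
      rw [htop]
      exact Subgroup.mem_top g
    rw [Subgroup.mul_normal] at hg
    obtain ⟨_, ⟨a, rfl⟩, l, hl, rfl⟩ := hg
    refine ⟨(a : G ⧸ LP p G 1), ?_⟩
    rw [hfb]
    show _ = ((f a * l : G) : G ⧸ LP p G 1)
    rw [QuotientGroup.mk_mul, (QuotientGroup.eq_one_iff l).2 hl, mul_one]
  have hbij : Function.Bijective fb := ⟨Finite.injective_iff_surjective.2 hsurj, hsurj⟩
  let e : Equiv.Perm (G ⧸ LP p G 1) := Equiv.ofBijective fb hbij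
  have hit : ∀ (n : ℕ) (g : G), (e ^ n) (g : G ⧸ LP p G 1) =
      (((f ^ n : Monoid.End G) g : G) : G ⧸ LP p G 1) := by
    intro n
    induction n with
    | zero => intro g; rfl
    | succ n ih =>
      intro g
      rw [pow_succ, Equiv.Perm.mul_apply]
      show (e ^ n) (fb (g : G ⧸ LP p G 1)) = _
      rw [hfb, ih, pow_succ]
      rfl
  refine ⟨orderOf e, orderOf_pos e, fun g => ?_⟩
  have h := hit (orderOf e) g
  rw [pow_orderOf_eq_one] at h
  exact QuotientGroup.eq.1 h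

/-- PIECE SE-15b (70 lines).  With `n` of `exists_pow_trivial`, `f^(n p^i)` acts trivially on
`G ⧸ LP p G (i+1)` (`pow_trivial`), so all points of this quotient are fixed and its order
`p^e` (`LP_index`) divides `1 - (m c)^(n p^i)` (`fix_pow_dvd`); apply `pow_bound` to
`x = (m c)^n`, `|x| ≥ 2` (`c ≠ 0` as `p ∤ m c`, `m ≥ 2`, `n > 0`). -/
theorem SelfMap.LP_bound {f : Monoid.End G} {m : ℕ} {c : ℤ} (hS : SelfMap G f m c)
    (hF : FAb G) (hm : 2 ≤ m) (p : ℕ) [Fact p.Prime] (hp : ¬ (p : ℤ) ∣ (m : ℤ) * c) :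
    ∃ C : ℕ, ∀ i : ℕ, (LP p G (i + 1)).index ≤ p ^ (i + C) := by
  have hpp : p.Prime := Fact.out
  have hrange : ¬ p ∣ (MonoidHom.range (f : G →* G)).index := by
    have h1 : (MonoidHom.range (f : G →* G)).index = m := hS.2.1
    rw [h1]
    intro h
    exact hp ((Int.natCast_dvd_natCast.2 h).mul_right c)
  obtain ⟨n, hn, hn1⟩ := exists_pow_trivial hS.fg f p hrange
  have hmc : (m : ℤ) * c ≠ 0 := fun h => hp (h ▸ dvd_zero _)
  have hc0 : c ≠ 0 := right_ne_zero_of_mul hmc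
  have habs : 2 ≤ |(m : ℤ) * c| := by
    rw [abs_mul, Nat.abs_cast]
    have h1 : 1 ≤ |c| := Int.one_le_abs hc0
    have h2 : (2 : ℤ) ≤ m := by exact_mod_cast hm
    nlinarith
  have hx : 2 ≤ |((m : ℤ) * c) ^ n| := by
    rw [abs_pow]
    calc (2 : ℤ) ≤ |(m : ℤ) * c| := habs
      _ = |(m : ℤ) * c| ^ 1 := (pow_one _).symm
      _ ≤ |(m : ℤ) * c| ^ n := pow_le_pow_right₀ (by linarith) hn
  obtain ⟨C, hC⟩ := pow_bound p (((m : ℤ) * c) ^ n) hx
  refine ⟨C, fun i => ?_⟩
  obtain ⟨e, he⟩ := LP_index (G := G) hS.fg p (i + 1)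
  have hidx : (LP p G (i + 1)).index ≠ 0 := by
    rw [he]
    exact pow_ne_zero _ hpp.ne_zero
  have hinv : ∀ g ∈ LP p G (i + 1), (f ^ (n * p ^ i) : Monoid.End G) g ∈ LP p G (i + 1) :=
    fun g hg => LP_hom_mem p (f ^ (n * p ^ i) : Monoid.End G) hg
  have htriv : ∀ g : G, g⁻¹ * (f ^ (n * p ^ i) : Monoid.End G) g ∈ LP p G (i + 1) := by
    intro g
    have := pow_trivial p (f ^ n : Monoid.End G) hn1 i g
    rwa [← pow_mul] at this
  have hdvd := hS.fix_pow_dvd hF (LP p G (i + 1)) hidx (n * p ^ i) hinv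
  have hcard : Nat.card (FixE (f ^ (n * p ^ i) : Monoid.End G) (LP p G (i + 1)) hinv) =
      (LP p G (i + 1)).index := by
    refine Nat.card_congr (Equiv.subtypeUnivEquiv fun x => ?_)
    induction x using QuotientGroup.induction_on with
    | H g =>
      rw [QuotientGroup.map_mk]
      exact (QuotientGroup.eq.2 (htriv g)).symm
  rw [hcard, he, Nat.cast_pow] at hdvd
  have h5 : (p : ℤ) ^ e ∣ (((m : ℤ) * c) ^ n) ^ (p ^ i) - 1 := by
    rw [← pow_mul, ← dvd_neg, neg_sub]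
    exact hdvd
  rw [he]
  exact Nat.pow_le_pow_right hpp.pos (hC i e h5)

end Pool.ACH
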