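import Pool.Agent.Helper20.SE.S12
import Pool.Agent.Helper20.SE.S14

/-! Project SE (MP_9d9192_al). -/

set_option autoImplicit false

namespace Pool.ACH

variable {G : Type} [Group G]

/-- PIECE SE-16a (50 lines).  `(LP p G i).index = p^(e i)` (`LP_index`), `e` is strictly increasing,
`e (i+1) ≤ i + C`; use `eventually_succ`. -/
theorem relIndex_eventually (hfg : Group.FG G) (p : ℕ) [Fact p.Prime]
    (hne : ∀ i, LP p G (i + 1) ≠ LP p G i) (C : ℕ)
    (hC : ∀ i, (LP p G (i + 1)).index ≤ p ^ (i + C)) :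
    ∃ l : ℕ, ∀ i, l ≤ i → (LP p G (i + 1)).relIndex (LP p G i) = p := by
  have hp : p.Prime := Fact.out
  choose e he using LP_index (G := G) hfg p
  have hmul : ∀ i, (LP p G (i + 1)).relIndex (LP p G i) * p ^ e i = p ^ e (i + 1) := by
    intro i
    have h1 := Subgroup.relIndex_mul_index (LP_succ_le (G := G) p i)
    rwa [he, he] at h1
  have hstrict : ∀ i, e i < e (i + 1) := by
    intro i
    have h1 : p ^ e i ∣ p ^ e (i + 1) := ⟨_, by rw [← hmul i, mul_comm]⟩
    have h2 : e i ≤ e (i + 1) := (Nat.pow_dvd_pow_iff_le_right hp.one_lt).1 h1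
    refine lt_of_le_of_ne h2 (fun h3 => hne i ?_)
    have h4 := hmul i
    rw [← h3] at h4
    have h5 : (LP p G (i + 1)).relIndex (LP p G i) = 1 :=
      Nat.eq_of_mul_eq_mul_right (pow_pos hp.pos _) (by rw [h4, one_mul])
    exact le_antisymm (LP_succ_le p i) (Subgroup.relIndex_eq_one.1 h5)
  have hbd : ∀ i, e (i + 1) ≤ i + C := by
    intro i
    have h1 := hC i
    rw [he] at h1
    exact (Nat.pow_le_pow_iff_right hp.one_lt).1 h1
  obtain ⟨l, hl⟩ := eventually_succ e hstrict C hbd
  refine ⟨l, fun i hi => ?_⟩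
  have h1 := hmul i
  rw [hl i hi, pow_succ, mul_comm (p ^ e i)] at h1
  exact Nat.eq_of_mul_eq_mul_right (pow_pos hp.pos _) h1

/-- PIECE SE-16b (100 lines).  There is a largest `j ≥ l` with `M ≤ LP p G j` (the indices are
unbounded and `M` has finite index).  `M ⊔ LP (j+1)` lies between `LP (j+1)` and `LP j`, is not
`LP (j+1)`, and the relative index is the prime `p`, so `M ⊔ LP (j+1) = LP j`.  By induction
`LP j ≤ M ⊔ LP s` for all `s ≥ j + 1`: if this holds for `s` then `LP (j+1) ≤ M ⊔ LP (s+1)` by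
`LP_le` (in the quotient by the normal subgroup `M ⊔ LP (s+1)` the image of `LP j` is contained in
the image of `LP s`, which is central of exponent `p`), so `LP j = M ⊔ LP (j+1) ≤ M ⊔ LP (s+1)`.
As `LP k ≤ M` for some `k` (`LP_le_of_index`), `LP j ≤ M`. -/
theorem uniserial (p : ℕ) [Fact p.Prime] (l : ℕ)
    (hl : ∀ i, l ≤ i → (LP p G (i + 1)).relIndex (LP p G i) = p) (M : Subgroup G) [M.Normal]
    (hM : ∃ k, M.index = p ^ k) (hle : M ≤ LP p G l) : ∃ j, l ≤ j ∧ M = LP p G j := by
  obtain ⟨k, hk⟩ := hM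
  have hp : p.Prime := Fact.out
  -- the indices
  have hidx : ∀ n, (LP p G (l + n)).index = p ^ n * (LP p G l).index := by
    intro n
    induction n with
    | zero => rw [add_zero, pow_zero, one_mul]
    | succ n ih =>
      have h1 := Subgroup.relIndex_mul_index (LP_succ_le (G := G) p (l + n))
      rw [hl (l + n) (by omega), ih] at h1
      rw [← add_assoc, ← h1, pow_succ]
      ring
  -- the last member of the series which contains `M`
  obtain ⟨j, hlj, hMj, hnj⟩ : ∃ j, l ≤ j ∧ M ≤ LP p G j ∧ ¬ M ≤ LP p G (j + 1) := by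
    by_contra hcon
    push Not at hcon
    have hall : ∀ n, M ≤ LP p G (l + n) := by
      intro n
      induction n with
      | zero => exact hle
      | succ n ih => exact hcon (l + n) (by omega) ih
    have h1 := Subgroup.index_dvd_of_le (hall (k + 1))
    rw [hidx, hk] at h1
    have h2 : p ^ (k + 1) ∣ p ^ k := (Dvd.intro _ rfl).trans h1
    have h3 := (Nat.pow_dvd_pow_iff_le_right hp.one_lt).1 h2
    omega
  -- `M ⊔ LP (j+1) = LP j`
  have hsup : LP p G j ≤ M ⊔ LP p G (j + 1) := by
    have hle2 : M ⊔ LP p G (j + 1) ≤ LP p G j := sup_le hMj (LP_succ_le p j)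
    have h1 := Subgroup.relIndex_mul_relIndex (LP p G (j + 1)) (M ⊔ LP p G (j + 1)) (LP p G j)
      le_sup_right hle2
    rw [hl j hlj] at h1
    rcases (Nat.dvd_prime hp).1 (Dvd.intro _ h1) with h2 | h2
    · exfalso
      apply hnj
      exact le_sup_left.trans (Subgroup.relIndex_eq_one.1 h2)
    · rw [h2] at h1
      have h3 : (M ⊔ LP p G (j + 1)).relIndex (LP p G j) = 1 :=
        Nat.eq_of_mul_eq_mul_left hp.pos (by rw [h1, mul_one])
      exact Subgroup.relIndex_eq_one.1 h3
  -- all the following members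
  have hs : ∀ n, LP p G j ≤ M ⊔ LP p G (j + 1 + n) := by
    intro n
    induction n with
    | zero => exact hsup
    | succ n ih =>
      have hN : (M ⊔ LP p G (j + 1 + n + 1)).Normal := inferInstance
      have hstep : LP p G (j + 1) ≤ M ⊔ LP p G (j + 1 + n + 1) := by
        refine LP_le _ (fun a ha g => ?_) (fun a ha => ?_)
        · obtain ⟨m, hm, b, hb, rfl⟩ := Subgroup.mem_sup_of_normal_left.1 (ih ha)
          have e1 : m * b * g * (m * b)⁻¹ * g⁻¹ =
              m * (b * g * b⁻¹ * g⁻¹) * (g * m⁻¹ * g⁻¹) := by group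
          rw [e1]
          refine Subgroup.mul_mem _ (Subgroup.mul_mem _ (Subgroup.mem_sup_left hm)
            (Subgroup.mem_sup_right (LP_comm_mem hb g))) (Subgroup.mem_sup_left ?_)
          exact (inferInstance : M.Normal).conj_mem _ (Subgroup.inv_mem _ hm) g
        · obtain ⟨m, hm, b, hb, rfl⟩ := Subgroup.mem_sup_of_normal_left.1 (ih ha)
          rw [← QuotientGroup.eq_one_iff, QuotientGroup.mk_pow, QuotientGroup.mk_mul,
            (QuotientGroup.eq_one_iff m).2 (Subgroup.mem_sup_left hm), one_mul,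
            ← QuotientGroup.mk_pow, QuotientGroup.eq_one_iff]
          exact Subgroup.mem_sup_right (LP_pow_mem hb)
      exact hsup.trans (sup_le le_sup_left hstep)
  refine ⟨j, hlj, le_antisymm hMj ?_⟩
  refine (hs k).trans (sup_le le_rfl ?_)
  exact (LP_antitone p (by omega)).trans (LP_le_of_index p M k hk)

/-- PIECE SE-16c (60 lines).  `K = LP p G l` is finitely generated (`LP_index`).  `K` has normal
subgroups `LP p G s` (`s ≥ l`) of unbounded `p`-power index; so `¬ BddP p K` and `LP_succ_ne`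
applies to `K`.  The images in `G` are normal (`LP_map_subtype_normal`) of `p`-power index. -/
theorem LPK_facts (hfg : Group.FG G) (p : ℕ) [Fact p.Prime] (l : ℕ)
    (hl : ∀ i, l ≤ i → (LP p G (i + 1)).relIndex (LP p G i) = p) :
    (∀ i, LP p (LP p G l) (i + 1) ≠ LP p (LP p G l) i) ∧
    (∀ i, ∃ k, ((LP p (LP p G l) i).map (LP p G l).subtype).index = p ^ k) := by
  have hpr : p.Prime := Fact.out
  obtain ⟨k0, hk0⟩ := LP_index hfg p l
  have hfgK : Group.FG (LP p G l) := by
    have _ : Group.FG G := hfg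
    have _ : (LP p G l).FiniteIndex := ⟨by rw [hk0]; exact pow_ne_zero _ hpr.ne_zero⟩
    infer_instance
  have hrel : ∀ n : ℕ, (LP p G (l + n)).relIndex (LP p G l) = p ^ n := by
    intro n
    induction n with
    | zero => simp
    | succ n ih =>
      have h1 := Subgroup.relIndex_mul_relIndex (LP p G (l + (n + 1))) (LP p G (l + n))
        (LP p G l) (LP_succ_le p (l + n)) (LP_antitone p (Nat.le_add_right l n))
      rw [← h1, ih]
      have h2 := hl (l + n) (Nat.le_add_right l n)
      rw [show l + (n + 1) = l + n + 1 from rfl, h2, pow_succ, mul_comm]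
  refine ⟨fun i => ?_, fun i => ?_⟩
  · refine LP_succ_ne hfgK p ?_ i
    rintro ⟨N, hN⟩
    have h1 := hN ((LP p G (l + N)).subgroupOf (LP p G l)) inferInstance ⟨N, hrel N⟩
    have h2 : ((LP p G (l + N)).subgroupOf (LP p G l)).index = p ^ N := hrel N
    rw [h2] at h1
    exact absurd h1 (not_le.2 (Nat.lt_pow_self hpr.one_lt))
  · obtain ⟨k, hk⟩ := LP_index hfgK p i
    refine ⟨k + k0, ?_⟩
    rw [Subgroup.index_map_subtype, hk, hk0, pow_add]

/-- PIECE SE-16d (100 lines).  `K = LP p G l`, `1 ≤ l`.  By `LPK_facts` and `uniserial` the image of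
`LP p K i` in `G` is `LP p G (e i)` with `e i ≥ l`, `e` strictly increasing; its index in `K` is
`p^(e i - l)`, so `e (i+1) - l ≤ i + C`; by `eventually_succ` we have `e (i+1) = e i + 1` for all
`i ≥ i1`.  So for `j = e i` with `i ≥ i1`, i.e. for all `j ≥ J = e i1`: `LP p G (j+1)` is the image
of `LP p K (i+1)`, generated by the `a g a⁻¹ g⁻¹`, `a ∈ LP p G j`, `g ∈ K ≤ LP p G 1`, which lie in
`LP p G (j+2)` (`LP_comm_two`), and by the `a^p`. -/
theorem power_step (hfg : Group.FG G) (p : ℕ) [Fact p.Prime] (l : ℕ) (h1 : 1 ≤ l)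
    (hl : ∀ i, l ≤ i → (LP p G (i + 1)).relIndex (LP p G i) = p) (C : ℕ)
    (hC : ∀ i, (LP p (LP p G l) (i + 1)).index ≤ p ^ (i + C)) :
    ∃ J, l ≤ J ∧ ∀ j, J ≤ j →
      LP p G (j + 1) ≤ Subgroup.closure {x | ∃ a ∈ LP p G j, a ^ p = x} ⊔ LP p G (j + 2) := by
  classical
  obtain ⟨hne, hidx⟩ := LPK_facts hfg p l hl
  have hp : 1 < p := (Fact.out : p.Prime).one_lt
  have hKle : ∀ i, (LP p (LP p G l) i).map (LP p G l).subtype ≤ LP p G l := fun i =>
    Subgroup.map_subtype_le _
  have hex : ∀ i, ∃ j, l ≤ j ∧ (LP p (LP p G l) i).map (LP p G l).subtype = LP p G j := by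
    intro i
    have : ((LP p (LP p G l) i).map (LP p G l).subtype).Normal :=
      LP_map_subtype_normal p (LP p G l) i
    exact uniserial p l hl _ (hidx i) (hKle i)
  choose e hle he using hex
  have hstrict : ∀ i, e i < e (i + 1) := by
    intro i
    by_contra hcon
    have h2 : LP p G (e i) ≤ LP p G (e (i + 1)) := LP_antitone p (not_lt.1 hcon)
    rw [← he, ← he] at h2
    have h3 : LP p (LP p G l) i ≤ LP p (LP p G l) (i + 1) :=
      (Subgroup.map_le_map_iff_of_injective (LP p G l).subtype_injective).1 h2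
    exact hne i (le_antisymm (LP_succ_le p i) h3)
  have hrel : ∀ j, l ≤ j → (LP p G j).relIndex (LP p G l) = p ^ (j - l) := by
    intro j hj
    induction j, hj using Nat.le_induction with
    | base => simp
    | succ j hj ih =>
      rw [← Subgroup.relIndex_mul_relIndex (LP p G (j + 1)) (LP p G j) (LP p G l)
        (LP_succ_le p j) (LP_antitone p hj), ih, hl j hj, Nat.succ_sub hj, pow_succ, mul_comm]
  have hind : ∀ i, (LP p (LP p G l) i).index = p ^ (e i - l) := by
    intro i
    rw [← hrel (e i) (hle i), ← he i, Subgroup.relIndex, Subgroup.subgroupOf,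
      Subgroup.comap_map_eq_self_of_injective (LP p G l).subtype_injective]
  have hbd : ∀ i, e (i + 1) ≤ i + (C + l) := by
    intro i
    have h2 := hC i
    rw [hind (i + 1)] at h2
    have h3 := (Nat.pow_le_pow_iff_right hp).1 h2
    omega
  obtain ⟨i1, hi1⟩ := eventually_succ e hstrict (C + l) hbd
  refine ⟨e i1, hle i1, fun j hj => ?_⟩
  have hshift : ∀ t, e (i1 + t) = e i1 + t := by
    intro t
    induction t with
    | zero => rfl
    | succ t ih => rw [← Nat.add_assoc, hi1 (i1 + t) (Nat.le_add_right _ _), ih]; omega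
  obtain ⟨t, rfl⟩ := Nat.exists_eq_add_of_le hj
  have h4 : e (i1 + t + 1) = e i1 + t + 1 := by
    rw [hi1 (i1 + t) (Nat.le_add_right _ _), hshift]
  rw [← h4, ← he (i1 + t + 1), Subgroup.map_le_iff_le_comap]
  have hmem : ∀ a ∈ LP p (LP p G l) (i1 + t), (a : G) ∈ LP p G (e i1 + t) := by
    intro a ha
    rw [← hshift t, ← he (i1 + t)]
    exact ⟨a, ha, rfl⟩
  refine LP_le _ (fun a ha g => ?_) (fun a ha => ?_)
  · have h5 : (g : G) ∈ LP p G 1 := LP_antitone p h1 g.2
    have h6 := LP_comm_two p (e i1 + t) (a : G) (hmem a ha) (g : G) h5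
    rw [Subgroup.mem_comap]
    refine Subgroup.mem_sup_right ?_
    simpa using h6
  · rw [Subgroup.mem_comap]
    refine Subgroup.mem_sup_left (Subgroup.subset_closure ?_)
    exact ⟨(a : G), hmem a ha, by simp⟩

end Pool.ACH
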