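import Pool.Agent.Helper20.SE.S11
import Pool.Agent.Helper20.SE.S15
import Pool.Agent.Helper20.SE.S16

/-! Project SE (MP_9d9192_al). -/

set_option autoImplicit false

namespace Pool.ACH

variable {G : Type} [Group G]

/-- PIECE SE-17a (80 lines).  The `p`-th power map shifts generators.  Let `j ≥ J` and
`y ∈ LP j`, `y ∉ LP (j+1)`.  As the relative index is `p`, every `z ∈ LP j` is `y^k u` with
`u ∈ LP (j+1)`; modulo `LP (j+2)` the element `u` is central with `u^p = 1`, so `z^p = y^(kp)`.  If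
`y^p ∈ LP (j+2)`, then all `p`-th powers of elements of `LP j` lie in `LP (j+2)`, so
`LP (j+1) ≤ LP (j+2)` by `h`, contradicting the relative index `p`. -/
theorem pow_not_mem (p : ℕ) [Fact p.Prime] (J : ℕ)
    (hl : ∀ i, J ≤ i → (LP p G (i + 1)).relIndex (LP p G i) = p)
    (h : ∀ j, J ≤ j →
      LP p G (j + 1) ≤ Subgroup.closure {x | ∃ a ∈ LP p G j, a ^ p = x} ⊔ LP p G (j + 2))
    (j : ℕ) (hj : J ≤ j) (y : G) (hy : y ∈ LP p G j) (hy' : y ∉ LP p G (j + 1)) :
    y ^ p ∉ LP p G (j + 2) := by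
  intro hyp
  have hpr : p.Prime := Fact.out
  have hz : ∀ z ∈ LP p G j, z ^ p ∈ LP p G (j + 2) := by
    intro z hz
    have hcard : Nat.card (LP p G j ⧸ (LP p G (j + 1)).subgroupOf (LP p G j)) = p := hl j hj
    have hy1 : (QuotientGroup.mk' ((LP p G (j + 1)).subgroupOf (LP p G j)) ⟨y, hy⟩) ≠ 1 := by
      intro h0
      rw [QuotientGroup.mk'_apply, QuotientGroup.eq_one_iff, Subgroup.mem_subgroupOf] at h0
      exact hy' h0
    have h1 := mem_zpowers_of_prime_card (p := p) hcard hy1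
      (g' := QuotientGroup.mk' ((LP p G (j + 1)).subgroupOf (LP p G j)) ⟨z, hz⟩)
    obtain ⟨k, hk⟩ := Subgroup.mem_zpowers_iff.1 h1
    rw [← map_zpow, QuotientGroup.mk'_apply, QuotientGroup.mk'_apply, QuotientGroup.eq,
      Subgroup.mem_subgroupOf] at hk
    have hk' : (y ^ k)⁻¹ * z ∈ LP p G (j + 1) := hk
    obtain ⟨u, hu⟩ : ∃ u, u = (y ^ k)⁻¹ * z := ⟨_, rfl⟩
    rw [← hu] at hk'
    have hzu : z = y ^ k * u := by rw [hu]; group
    have e1 : (QuotientGroup.mk' (LP p G (j + 2)) y) ^ p = 1 := by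
      rw [← map_pow, QuotientGroup.mk'_apply, QuotientGroup.eq_one_iff]
      exact hyp
    have e2 : (QuotientGroup.mk' (LP p G (j + 2)) u) ^ p = 1 := by
      rw [← map_pow, QuotientGroup.mk'_apply, QuotientGroup.eq_one_iff]
      exact LP_pow_mem hk'
    have e3 : Commute (QuotientGroup.mk' (LP p G (j + 2)) u)
        (QuotientGroup.mk' (LP p G (j + 2)) y) := by
      have e4 : QuotientGroup.mk' (LP p G (j + 2)) (u * y * u⁻¹ * y⁻¹) = 1 := by
        rw [QuotientGroup.mk'_apply, QuotientGroup.eq_one_iff]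
        exact LP_comm_mem hk' y
      rw [map_mul, map_mul, map_mul, map_inv, map_inv, mul_inv_eq_one, mul_inv_eq_iff_eq_mul] at e4
      exact e4
    have e5 : QuotientGroup.mk' (LP p G (j + 2)) (z ^ p) = 1 := by
      rw [hzu, map_pow, map_mul, map_zpow, (e3.symm.zpow_left k).mul_pow, e2, mul_one,
        ← zpow_natCast, ← zpow_mul, mul_comm, zpow_mul, zpow_natCast, e1, one_zpow]
    rw [QuotientGroup.mk'_apply, QuotientGroup.eq_one_iff] at e5
    exact e5
  have h2 : LP p G (j + 1) ≤ LP p G (j + 2) := by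
    refine (h j hj).trans (sup_le ?_ le_rfl)
    rw [Subgroup.closure_le]
    rintro x ⟨a, ha, rfl⟩
    exact hz a ha
  have h3 : (LP p G (j + 2)).relIndex (LP p G (j + 1)) = 1 := Subgroup.relIndex_eq_one.2 h2
  rw [hl (j + 1) (by omega)] at h3
  exact hpr.one_lt.ne' h3

/-- PIECE SE-17b (100 lines).  Let `A = LP p G J`, `x ∈ A`, `x ∉ LP (J+1)` (relative index `p`).
By `pow_not_mem`, `x^(p^s) ∈ LP (J+s)`, `∉ LP (J+s+1)`.  So in `A ⧸ LP (J+s+1)`, of order
`p^(s+1)`, the image of `x` has order `p^(s+1)`, and this quotient is cyclic, so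
`commutator A ≤ LP (J+s+1)` for all `s`, of unbounded index; but `A` is finitely generated and
`FAb`, so `commutator A` has finite index in `A` (`derived_index_all` for `A` with `n = 1`). -/
theorem cyclic_step (hfg : Group.FG G) (hF : FAb G) (p : ℕ) [Fact p.Prime] (J : ℕ)
    (hl : ∀ i, J ≤ i → (LP p G (i + 1)).relIndex (LP p G i) = p)
    (h : ∀ j, J ≤ j →
      LP p G (j + 1) ≤ Subgroup.closure {x | ∃ a ∈ LP p G j, a ^ p = x} ⊔ LP p G (j + 2)) :
    False := by
  have hpr : p.Prime := Fact.out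
  -- a generator
  obtain ⟨x, hx, hx'⟩ : ∃ x ∈ LP p G J, x ∉ LP p G (J + 1) := by
    by_contra hcon
    push Not at hcon
    have h1 : (LP p G (J + 1)).relIndex (LP p G J) = 1 := Subgroup.relIndex_eq_one.2 hcon
    rw [hl J le_rfl] at h1
    exact hpr.one_lt.ne' h1
  have hpow : ∀ s, x ^ (p ^ s) ∈ LP p G (J + s) ∧ x ^ (p ^ s) ∉ LP p G (J + s + 1) := by
    intro s
    induction s with
    | zero => simpa using ⟨hx, hx'⟩
    | succ s ih =>
      rw [pow_succ, pow_mul]
      exact ⟨LP_pow_mem ih.1, pow_not_mem p J hl h (J + s) (by omega) _ ih.1 ih.2⟩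
  have hrel : ∀ s, (LP p G (J + s)).relIndex (LP p G J) = p ^ s := by
    intro s
    induction s with
    | zero => simp
    | succ s ih =>
      have h1 := Subgroup.relIndex_mul_relIndex (LP p G (J + (s + 1))) (LP p G (J + s))
        (LP p G J) (LP_succ_le p (J + s)) (LP_antitone p (Nat.le_add_right J s))
      rw [← h1, ih]
      have h2 := hl (J + s) (Nat.le_add_right J s)
      rw [show J + (s + 1) = J + s + 1 from rfl, h2, pow_succ, mul_comm]
  -- the commutator subgroup lies in all members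
  have hcomm : ∀ s, commutator (LP p G J) ≤ (LP p G (J + (s + 1))).subgroupOf (LP p G J) := by
    intro s
    have hcard : Nat.card (LP p G J ⧸ (LP p G (J + (s + 1))).subgroupOf (LP p G J)) =
        p ^ (s + 1) := hrel (s + 1)
    obtain ⟨g, hg⟩ : ∃ g, g = QuotientGroup.mk' ((LP p G (J + (s + 1))).subgroupOf (LP p G J))
        ⟨x, hx⟩ := ⟨_, rfl⟩
    have hord : orderOf g = p ^ (s + 1) := by
      have h1 : orderOf g ∣ p ^ (s + 1) := by
        rw [← hcard]
        exact orderOf_dvd_natCard g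
      obtain ⟨k, hk, hk'⟩ := (Nat.dvd_prime_pow hpr).1 h1
      rcases Nat.lt_or_ge k (s + 1) with h2 | h2
      · exfalso
        have h3 : g ^ (p ^ s) = 1 := by
          apply orderOf_dvd_iff_pow_eq_one.1
          rw [hk']
          exact pow_dvd_pow p (by omega)
        rw [hg, ← map_pow, QuotientGroup.mk'_apply, QuotientGroup.eq_one_iff,
          Subgroup.mem_subgroupOf] at h3
        exact (hpow s).2 h3
      · rw [hk', le_antisymm hk h2]
    have hfin : Finite (LP p G J ⧸ (LP p G (J + (s + 1))).subgroupOf (LP p G J)) :=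
      Nat.finite_of_card_ne_zero (by rw [hcard]; exact pow_ne_zero _ hpr.ne_zero)
    have hall : ∀ y, y ∈ Subgroup.zpowers g := by
      have h1 : Subgroup.zpowers g = ⊤ := by
        apply Subgroup.eq_top_of_card_eq
        rw [Nat.card_zpowers, hord, hcard]
      intro y
      rw [h1]
      exact Subgroup.mem_top y
    rw [commutator_def, Subgroup.commutator_le]
    intro a _ b _
    obtain ⟨m, hm⟩ := Subgroup.mem_zpowers_iff.1 (hall (QuotientGroup.mk' _ a))
    obtain ⟨n, hn⟩ := Subgroup.mem_zpowers_iff.1 (hall (QuotientGroup.mk' _ b))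
    rw [← QuotientGroup.eq_one_iff, ← QuotientGroup.mk'_apply, map_commutatorElement, ← hm, ← hn,
      commutatorElement_eq_one_iff_mul_comm]
    exact (Commute.refl g).zpow_zpow m n
  -- the commutator subgroup has finite index
  have hne : (LP p G J).index ≠ 0 := by
    obtain ⟨k, hk⟩ := LP_index hfg p J
    rw [hk]
    exact pow_ne_zero _ hpr.ne_zero
  have hfgA : Group.FG (LP p G J) := by
    have _ : Group.FG G := hfg
    have _ : (LP p G J).FiniteIndex := ⟨hne⟩
    infer_instance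
  have hFA : FAb (LP p G J) := hF.restrict _ hne
  have hd : (commutator (LP p G J)).index ≠ 0 := by
    have h1 := derived_index_all hfgA hFA 1
    rwa [derivedSeries_one] at h1
  have h1 := Subgroup.index_dvd_of_le (hcomm (commutator (LP p G J)).index)
  have h2 : ((LP p G (J + ((commutator (LP p G J)).index + 1))).subgroupOf (LP p G J)).index =
      p ^ ((commutator (LP p G J)).index + 1) := hrel _
  rw [h2] at h1
  have h3 := Nat.le_of_dvd (Nat.pos_of_ne_zero hd) h1
  have h4 : (commutator (LP p G J)).index + 1 < p ^ ((commutator (LP p G J)).index + 1) :=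
    Nat.lt_pow_self hpr.one_lt
  omega

theorem lemmaW (hfg : Group.FG G) (hF : FAb G) (p : ℕ) [Fact p.Prime]
    (h0 : ∃ C : ℕ, ∀ i : ℕ, (LP p G (i + 1)).index ≤ p ^ (i + C))
    (h : ∀ l : ℕ, ∃ C : ℕ, ∀ i : ℕ, (LP p (LP p G l) (i + 1)).index ≤ p ^ (i + C)) :
    BddP p G := by
  by_contra hb
  obtain ⟨C0, hC0⟩ := h0
  obtain ⟨l0, hl0⟩ := relIndex_eventually hfg p (LP_succ_ne hfg p hb) C0 hC0
  obtain ⟨C, hC⟩ := h (max l0 1)
  obtain ⟨J, hJ1, hJ2⟩ := power_step hfg p (max l0 1) (le_max_right _ _)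
    (fun i hi => hl0 i ((le_max_left _ _).trans hi)) C hC
  exact cyclic_step hfg hF p J (fun i hi => hl0 i (((le_max_left _ _).trans hJ1).trans hi)) hJ2

theorem SelfMap.bdd_of_not_dvd {f : Monoid.End G} {m : ℕ} {c : ℤ} (hS : SelfMap G f m c)
    (hF : FAb G) (hm : 2 ≤ m) (p : ℕ) [Fact p.Prime] (hp : ¬ (p : ℤ) ∣ (m : ℤ) * c) :
    BddP p G := by
  refine lemmaW hS.fg hF p (hS.LP_bound hF hm p hp) fun l => ?_
  have h1 : (LP p G l).index ≠ 0 := by
    obtain ⟨k, hk⟩ := LP_index hS.fg p l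
    rw [hk]
    exact pow_ne_zero _ (Nat.Prime.ne_zero Fact.out)
  have h2 := hS.restrict (LP p G l) h1 (fun g hg => LP_hom_mem p (f : G →* G) hg)
  exact SelfMap.LP_bound (f := (resEnd (f : G →* G) (LP p G l)
    (fun g hg => LP_hom_mem p (f : G →* G) hg) : Monoid.End (LP p G l))) h2
    (hF.restrict _ h1) hm p hp

theorem SelfMap.bdd {f : Monoid.End G} {m : ℕ} {c : ℤ} (hS : SelfMap G f m c)
    (hF : FAb G) (hm : 2 ≤ m) (p : ℕ) [Fact p.Prime] : BddP p G := by
  by_cases hp : (p : ℤ) ∣ (m : ℤ) * c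
  · exact hS.bdd_of_dvd hF p hp
  · exact hS.bdd_of_not_dvd hF hm p hp

end Pool.ACH
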