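import Pool.Agent.Helper20.ACH.O1
import Pool.Agent.Helper20.ACH.HM
import Pool.Agent.Helper20.ACH.F1
import Pool.Agent.Helper20.ACH.P3
import Pool.Agent.Helper20.ACH.P4

/-! Project SE (MP_9d9192_al): classes of 2-cocycles of the group in the resolution. -/

set_option autoImplicit false

namespace Pool.ACH

/-- Two-cocycles of `G` with values in `F` (trivial action). -/
def Z2 (G F : Type) [Group G] [Field F] : Submodule F (G → G → F) where
  carrier := {c | ∀ g h k, c g h + c (g * h) k = c h k + c g (h * k)}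
  zero_mem' := fun _ _ _ => by simp
  add_mem' := fun {a b} ha hb g h k => by
    have h1 := ha g h k
    have h2 := hb g h k
    simp only [Pi.add_apply]
    linear_combination h1 + h2
  smul_mem' := fun c a ha g h k => by
    have h1 := ha g h k
    simp only [Pi.smul_apply, smul_eq_mul]
    linear_combination c * h1

variable {G : Type} [Group G] {P0 P1 P2 P3 : Type} [AddCommGroup P0] [AddCommGroup P1]
    [AddCommGroup P2] [AddCommGroup P3] [DistribMulAction G P0] [DistribMulAction G P1]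
    [DistribMulAction G P2] [DistribMulAction G P3] {F : Type} [Field F]

variable (D : PD3Data G P0 P1 P2 P3)

namespace PD3Data

/-- PIECE SE-18a (80 lines).  For an arbitrary function `β : G → F` put `B = D.lift0 β`; then
`B (h • p) = (D.lift0 (fun g => β (h * g))) p` (`DB.lift_smul`), `D.lift0` of a constant function `a` is
`p ↦ ε(p) • a` (`DB.expand_inv`), and `D.lift0` is additive.  The cocycle identity for `(h, g, k)`
reads `c (h g) k = c g k + c h (g k) - c h g`, so
`q (c (h g)) = q (c g) + (lift0 (c h))(g · d0 ·)` on `P1` (the constant drops out by `ε∘d0 = 0`), and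
`lift1 c (h • p) = Σ_j tw φ_j (g ↦ q (c (h g)) e_j) (p)
= lift1 c (p) + Σ_j tw φ_j (g ↦ q (c h) (g e_j)) (p)`, the last sum being `q (c h) (p)`
(`DB.expand`). -/
theorem lift1_smul_Z2 (c : Z2 G F) (h : G) (p : P1) :
    D.lift1 c.1 (h • p) = D.lift1 c.1 p + D.q (c.1 h) p := by
  have hconst : ∀ (a : F) (p : P0), D.lift0 (fun _ => a) p = D.ε p • a := by
    intro a p
    have h2 := D.b0.expand_inv D.ε (fun g p => D.ε_smul g p) p
    rw [lift0]
    conv_rhs => rw [h2]
    rw [DB.lift_apply, Finset.sum_smul]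
    refine Finset.sum_congr rfl fun j _ => ?_
    rw [tw_const (D.b0.φ j) (D.b0.fs j) (D.ε (D.b0.e j) • a) p,
      tw_const (D.b0.φ j) (D.b0.fs j) (D.ε (D.b0.e j)) p, smul_eq_mul, mul_smul]
  have hadd : ∀ β β' : G → F, D.lift0 (fun g => β g + β' g) = D.lift0 β + D.lift0 β' := by
    intro β β'
    rw [lift0, lift0, lift0, ← DB.lift_add]
    simp only [smul_add]
  have hq : ∀ (g : G) (x : P1), D.q (c.1 (h * g)) x = D.q (c.1 g) x + D.q (c.1 h) (g • x) := by
    intro g x
    have h1 : (fun k => c.1 (h * g) k + c.1 h g) = fun k => c.1 g k + c.1 h (g * k) := by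
      funext k
      have := c.2 h g k
      linear_combination this
    have h2 := hadd (c.1 (h * g)) (fun _ => c.1 h g)
    have h3 := hadd (c.1 g) (fun k => c.1 h (g * k))
    have h4 : D.lift0 (c.1 (h * g)) + D.lift0 (fun _ => c.1 h g) =
        D.lift0 (c.1 g) + D.lift0 (fun k => c.1 h (g * k)) := by
      rw [← h2, ← h3]
      exact congrArg D.lift0 h1
    have h5 := DFunLike.congr_fun h4 (D.d0 x)
    rw [AddMonoidHom.add_apply, AddMonoidHom.add_apply, hconst, D.ε_d0, zero_smul,
      add_zero] at h5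
    have h6 : D.lift0 (c.1 h) (g • D.d0 x) = D.lift0 (fun k => c.1 h (g * k)) (D.d0 x) := by
      rw [lift0, lift0, DB.lift_smul]
    have h7 : D.q (c.1 h) (g • x) = D.lift0 (c.1 h) (g • D.d0 x) := by
      rw [q, AddMonoidHom.coe_comp, Function.comp_apply, D.d0_smul]
    rw [h7, h6]
    exact h5
  have h1 : D.q (c.1 h) p = D.b1.lift (fun j g => D.q (c.1 h) (g • D.b1.e j)) p := by
    rw [DB.lift_eq]
  rw [h1, lift1, DB.lift_smul, ← AddMonoidHom.add_apply, ← DB.lift_add]
  congr 2
  funext j g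
  exact hq g _

/-- PIECE SE-18a.  By `lift1_smul_Z2` and `q_d1`. -/
theorem ob_inv_Z2 (c : Z2 G F) : Inv G (D.ob c.1) := by
  intro g p
  rw [ob, AddMonoidHom.coe_comp, Function.comp_apply, Function.comp_apply, D.d1_smul,
    D.lift1_smul_Z2, D.q_d1, add_zero]

/-- PIECE SE-18b (100 lines).  As `exists_kappa` (ACH/O2.lean).  With `w = lift1 c - u`,
`w∘d1 = 0`, `w(g p) = w(p) + q(c g)(p)`, `y g : P1` with `d0 (y g) = g p0 - p0` and
`κ0 g = w (y g)` one gets `κ0(g h) = κ0 g + κ0 h + lift0 (c g)(h p0 - p0)`.  Put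
`S x = lift0 (c x) p0`.  By the cocycle identity for `(g, h, k)`:
`lift0 (c g)(h p0) = lift0 (k ↦ c g (h k)) p0 = lift0 (k ↦ c g h + c (g h) k - c h k) p0
= c g h + S(g h) - S h`.  So `κ = κ0 - S` satisfies the identity. -/
theorem exists_kappa_Z2 (c : Z2 G F) (h : D.Cob (D.ob c.1)) :
    ∃ κ : G → F, ∀ g h, κ (g * h) = κ g + κ h + c.1 g h := by
  obtain ⟨u, hu, he⟩ := h
  obtain ⟨w, hw⟩ : ∃ w : P1 →+ F, w = D.lift1 c.1 - u := ⟨_, rfl⟩
  have hw1 : ∀ p : P2, w (D.d1 p) = 0 := by
    intro p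
    have h1 : D.ob c.1 p = D.lift1 c.1 (D.d1 p) := rfl
    rw [hw, AddMonoidHom.sub_apply, ← h1, he p, sub_self]
  have hw2 : ∀ (g : G) (p : P1), w (g • p) = w p + D.q (c.1 g) p := by
    intro g p
    rw [hw, AddMonoidHom.sub_apply, AddMonoidHom.sub_apply, D.lift1_smul_Z2 c g p, hu g p]
    abel
  have hw3 : ∀ a b : P1, D.d0 a = D.d0 b → w a = w b := by
    intro a b hab
    have h1 : D.d0 (a - b) = 0 := by rw [map_sub, hab, sub_self]
    obtain ⟨e, he⟩ := (D.exact1 _).1 h1
    have h2 := hw1 e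
    rw [he, map_sub] at h2
    exact sub_eq_zero.1 h2
  have hy : ∀ g : G, ∃ y : P1, D.d0 y = g • D.p0 - D.p0 := by
    intro g
    apply (D.exact0 _).1
    rw [map_sub, D.ε_smul, sub_self]
  choose y hy using hy
  have hadd : ∀ β β' : G → F, D.lift0 (fun g => β g + β' g) = D.lift0 β + D.lift0 β' := by
    intro β β'
    rw [lift0, lift0, lift0, ← DB.lift_add]
    simp only [smul_add]
  have hconst : ∀ (a : F) (p : P0), D.lift0 (fun _ => a) p = D.ε p • a := by
    intro a p
    have h2 := D.b0.expand_inv D.ε (fun g p => D.ε_smul g p) p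
    rw [lift0]
    conv_rhs => rw [h2]
    rw [DB.lift_apply, Finset.sum_smul]
    refine Finset.sum_congr rfl fun j _ => ?_
    rw [tw_const (D.b0.φ j) (D.b0.fs j) (D.ε (D.b0.e j) • a) p,
      tw_const (D.b0.φ j) (D.b0.fs j) (D.ε (D.b0.e j)) p, smul_eq_mul, mul_smul]
  have htr : ∀ (β : G → F) (x : G) (p : P0),
      D.lift0 β (x • p) = D.lift0 (fun k => β (x * k)) p := by
    intro β x p
    rw [lift0, lift0, DB.lift_smul]
  have hkey : ∀ g x : G, D.lift0 (c.1 g) (x • D.p0) + D.lift0 (c.1 x) D.p0 =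
      c.1 g x + D.lift0 (c.1 (g * x)) D.p0 := by
    intro g x
    have h1 : (fun k => c.1 g (x * k) + c.1 x k) = fun k => c.1 g x + c.1 (g * x) k := by
      funext k
      have := c.2 g x k
      linear_combination -this
    have h2 := hadd (fun k => c.1 g (x * k)) (c.1 x)
    have h3 := hadd (fun _ => c.1 g x) (c.1 (g * x))
    have h4 : D.lift0 (fun k => c.1 g (x * k)) + D.lift0 (c.1 x) =
        D.lift0 (fun _ => c.1 g x) + D.lift0 (c.1 (g * x)) := by
      rw [← h2, ← h3]
      exact congrArg D.lift0 h1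
    have h5 := DFunLike.congr_fun h4 D.p0
    rw [AddMonoidHom.add_apply, AddMonoidHom.add_apply, hconst, D.ε_p0, one_smul] at h5
    rw [htr]
    exact h5
  refine ⟨fun g => w (y g) - D.lift0 (c.1 g) D.p0, fun g h => ?_⟩
  have h1 : D.d0 (y (g * h)) = D.d0 (g • y h + y g) := by
    rw [map_add, D.d0_smul, hy, hy, hy, smul_sub, mul_smul]
    abel
  have h2 : D.q (c.1 g) (y h) = D.lift0 (c.1 g) (h • D.p0) - D.lift0 (c.1 g) D.p0 := by
    have h3 : D.q (c.1 g) (y h) = D.lift0 (c.1 g) (D.d0 (y h)) := rfl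
    rw [h3, hy, map_sub]
  change w (y (g * h)) - D.lift0 (c.1 (g * h)) D.p0 =
    w (y g) - D.lift0 (c.1 g) D.p0 + (w (y h) - D.lift0 (c.1 h) D.p0) + c.1 g h
  rw [hw3 _ _ h1, map_add, hw2, h2]
  linear_combination hkey g h

/-- The coboundaries as a subspace. -/
private def S18c_W (F : Type) [Field F] : Submodule F (P2 →+ F) where
  carrier := {ω | D.Cob ω}
  zero_mem' := PD3Data.Cob.zero D
  add_mem' := fun ha hb => PD3Data.Cob.add D ha hb
  smul_mem' := by
    rintro c ω ⟨u, hu, e⟩
    exact ⟨c • u, fun g p => by simp [hu g p], fun p => by simp [e p]⟩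

private theorem S18c_mem (ω : P2 →+ F) : ω ∈ S18c_W D F ↔ D.Cob ω := Iff.rfl

/-- The obstruction cocycle as a linear map. -/
private noncomputable def S18c_ob (F : Type) [Field F] : Z2 G F →ₗ[F] (P2 →+ F) where
  toFun B := D.ob B.1
  map_add' := fun B B' => D.ob_add B.1 B'.1
  map_smul' := fun c B => by
    ext p
    exact D.ob_smul c B.1 p

private theorem S18c_chi (g : G) (s : F) : D.chi g s = s • D.chi g (1 : F) := by
  ext p
  have h1 := D.map_chi (AddMonoidHom.mulLeft s) g (1 : F) p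
  rw [AddMonoidHom.coe_mulLeft, mul_one] at h1
  rw [← h1]
  rfl

/-- The span of the classes `χ_g`. -/
private noncomputable def S18c_S (F : Type) [Field F] :
    Submodule F ((P2 →+ F) ⧸ S18c_W D F) :=
  Submodule.span F (Set.range fun g : G => (S18c_W D F).mkQ (D.chi g (1 : F)))

private theorem S18c_chi_mem (g : G) : (S18c_W D F).mkQ (D.chi g (1 : F)) ∈ S18c_S D F :=
  Submodule.subset_span ⟨g, rfl⟩

private theorem S18c_ob_mem (B : Z2 G F) : (S18c_W D F).mkQ (S18c_ob D F B) ∈ S18c_S D F := by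
  obtain ⟨n, g, s, hc⟩ := D.chi_surj (D.ob B.1) (D.ob_inv_Z2 B) (D.ob_d2 B.1)
  have h1 : (S18c_W D F).mkQ (D.ob B.1) = (S18c_W D F).mkQ (∑ i, D.chi (g i) (s i)) := by
    rw [← sub_eq_zero, ← map_sub, Submodule.mkQ_apply, Submodule.Quotient.mk_eq_zero]
    exact hc
  have h2 : S18c_ob D F B = D.ob B.1 := rfl
  rw [h2, h1, map_sum]
  refine Submodule.sum_mem _ fun i _ => ?_
  rw [S18c_chi, map_smul]
  exact Submodule.smul_mem _ _ (S18c_chi_mem D (g i))

private theorem S18c_mul (g h : G) : (S18c_W D F).mkQ (D.chi (g * h) (1 : F)) =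
    (S18c_W D F).mkQ (D.chi g (1 : F)) + (S18c_W D F).mkQ (D.chi h (1 : F)) := by
  rw [← map_add, ← sub_eq_zero, ← map_sub, Submodule.mkQ_apply, Submodule.Quotient.mk_eq_zero,
    ← sub_sub]
  exact D.chi_mul g h (1 : F)

private theorem S18c_fin : Module.Finite F (S18c_S D F) := by
  have hχ := S18c_mul D (F := F)
  have hχ1 : (S18c_W D F).mkQ (D.chi (1 : G) (1 : F)) = 0 := by
    have h := hχ 1 1
    rw [mul_one] at h
    exact left_eq_add.1 h
  obtain ⟨S, hS, hSf⟩ := Group.fg_iff.1 D.fg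
  have hmem : ∀ g : G, (S18c_W D F).mkQ (D.chi g (1 : F)) ∈
      Submodule.span F ((fun g : G => (S18c_W D F).mkQ (D.chi g (1 : F))) '' S) := by
    intro g
    have hg : g ∈ Subgroup.closure S := by
      rw [hS]
      exact Subgroup.mem_top g
    induction hg using Subgroup.closure_induction with
    | mem x hx => exact Submodule.subset_span ⟨x, hx, rfl⟩
    | one =>
      rw [hχ1]
      exact Submodule.zero_mem _
    | mul x y _ _ hx hy =>
      rw [hχ]
      exact Submodule.add_mem _ hx hy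
    | inv x _ hx =>
      have h2 : (S18c_W D F).mkQ (D.chi x⁻¹ (1 : F)) = - (S18c_W D F).mkQ (D.chi x (1 : F)) := by
        have h := hχ x⁻¹ x
        rw [inv_mul_cancel, hχ1] at h
        exact eq_neg_of_add_eq_zero_left h.symm
      rw [h2]
      exact Submodule.neg_mem _ hx
  have htop : S18c_S D F =
      Submodule.span F ((fun g : G => (S18c_W D F).mkQ (D.chi g (1 : F))) '' S) := by
    refine le_antisymm ?_ ?_
    · unfold S18c_S
      rw [Submodule.span_le]
      rintro _ ⟨g, rfl⟩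
      exact hmem g
    · exact Submodule.span_mono (Set.image_subset_range _ _)
  rw [htop]
  exact Module.Finite.span_of_finite F (hSf.image _)

/-- Functionals on the span, as homomorphisms. -/
private noncomputable def S18c_dual (F : Type) [Field F] :
    (S18c_S D F →ₗ[F] F) →ₗ[F] Hm G F where
  toFun f := ⟨fun g => f ⟨(S18c_W D F).mkQ (D.chi g (1 : F)), S18c_chi_mem D g⟩, fun g h => by
    change f ⟨(S18c_W D F).mkQ (D.chi (g * h) (1 : F)), _⟩ = _
    rw [← map_add]
    congr 1
    exact Subtype.ext (S18c_mul D g h)⟩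
  map_add' := fun _ _ => rfl
  map_smul' := fun _ _ => rfl

private theorem S18c_dual_inj : Function.Injective (S18c_dual D F) := by
  rw [injective_iff_map_eq_zero]
  intro f hf
  have h0 : ∀ g : G, f ⟨(S18c_W D F).mkQ (D.chi g (1 : F)), S18c_chi_mem D g⟩ = 0 := fun g =>
    congrFun (congrArg Subtype.val hf) g
  have h1 : ∀ (x : (P2 →+ F) ⧸ S18c_W D F) (hx : x ∈ S18c_S D F), f ⟨x, hx⟩ = 0 := by
    intro x hx
    unfold S18c_S at hx
    induction hx using Submodule.span_induction with
    | mem x h =>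
      obtain ⟨g, rfl⟩ := h
      exact h0 g
    | zero => exact map_zero f
    | add x y hx hy h2 h3 =>
      have h4 := map_add f ⟨x, hx⟩ ⟨y, hy⟩
      rw [h2, h3, add_zero] at h4
      exact h4
    | smul c x hx h2 =>
      have h4 := map_smul f c ⟨x, hx⟩
      rw [h2, smul_zero] at h4
      exact h4
  ext ⟨x, hx⟩
  exact h1 x hx

private theorem S18c_finrank : Module.finrank F (S18c_S D F) ≤ Module.finrank F (Hm G F) := by
  have hf := S18c_fin D (F := F)
  have hH := finite_Hm D.fg F
  have h1 := LinearMap.finrank_le_finrank_of_injective (S18c_dual_inj D (F := F))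
  have h2 : Module.finrank F (Module.Dual F (S18c_S D F)) = Module.finrank F (S18c_S D F) :=
    Subspace.dual_finrank_eq
  rw [← h2]
  exact h1

include D in
/-- PIECE SE-18c (120 lines).  Let `W ≤ (P2 →+ F)` be the subspace of all `ω` with `D.Cob ω`
(the module structure on `P2 →+ F` is pointwise; see ACH/O6.lean, where this is done) and let
`V` be the span in `(P2 →+ F) ⧸ W` of the classes of `D.chi g 1`.  The map
`f ↦ (g ↦ f [D.chi g 1])` from the dual of `V` to `Hm G F` is linear (`chi_mul`) and injective, and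
`Hm G F` has finite dimension (`finite_Hm`, `PD3Data.fg`), so `dim V ≤ dim Hm G F < n`
(`V` is finite-dimensional as it is spanned by the image of a homomorphism from a finitely generated
group, or because its dual is; compare ACH/OD3.lean and `finrank_V_le` in ACH).  The classes of
`ob (c i)` lie in `V` (`ob_inv_Z2`, `ob_d2`, `chi_surj`, `D.chi g s = s • D.chi g 1`), so they are
dependent: `Σ λ_i [ob (c i)] = 0`, `λ ≠ 0`; `ob` is linear (`ob_add`, `ob_smul`), so
`D.Cob (D.ob (Σ λ_i c_i))`; use `exists_kappa_Z2`. -/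
theorem exists_cob_comb (n : ℕ) (c : Fin n → Z2 G F)
    (hn : Module.finrank F (Hm G F) < n) :
    ∃ lam : Fin n → F, lam ≠ 0 ∧
      ∃ κ : G → F, ∀ g h, κ (g * h) = κ g + κ h + ∑ i, lam i * (c i).1 g h := by
  have hf := S18c_fin D (F := F)
  have hdep : ¬ LinearIndependent F (fun i : Fin n =>
      (⟨(S18c_W D F).mkQ (S18c_ob D F (c i)), S18c_ob_mem D (c i)⟩ : S18c_S D F)) := by
    intro hli
    have h1 := hli.fintype_card_le_finrank
    rw [Fintype.card_fin] at h1
    have h2 := S18c_finrank D (F := F)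
    omega
  rw [Fintype.not_linearIndependent_iff] at hdep
  obtain ⟨lam, hlam, i, hi⟩ := hdep
  have h1 : (S18c_W D F).mkQ (S18c_ob D F (∑ i, lam i • c i)) = 0 := by
    have h2 := congrArg (Submodule.subtype (S18c_S D F)) hlam
    rw [map_sum, map_zero] at h2
    rw [map_sum, map_sum, ← h2]
    refine Finset.sum_congr rfl fun j _ => ?_
    rw [map_smul, map_smul, map_smul]
    rfl
  rw [Submodule.mkQ_apply, Submodule.Quotient.mk_eq_zero, S18c_mem] at h1
  obtain ⟨κ, hκ⟩ := D.exists_kappa_Z2 (∑ i, lam i • c i) h1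
  refine ⟨lam, fun h => hi (by rw [h]; rfl), κ, fun g h => ?_⟩
  rw [hκ g h]
  congr 1
  rw [Submodule.coe_sum, Finset.sum_apply, Finset.sum_apply]
  rfl

end PD3Data

end Pool.ACH
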