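import Pool.Agent.Helper20.SE.S18

/-! Project SE (MP_9d9192_al). -/

set_option autoImplicit false

namespace Pool.ACH

/-- The carry of the addition of residues modulo `p`. -/
def carry (p : ℕ) (x y : ZMod p) : ZMod p := (((x.val + y.val) / p : ℕ) : ZMod p)

private theorem S19_div (p : ℕ) (hp : 0 < p) (a c : ℕ) :
    a / p + (a % p + c) / p = (a + c) / p := by
  have h1 : a + c = a % p + c + p * (a / p) := by
    have := Nat.mod_add_div a p
    omega
  rw [h1, Nat.add_mul_div_left _ _ hp, add_comm]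

/-- PIECE SE-19a (50 lines).  With `N(x,y) = (x.val + y.val) / p` one has
`p N(x,y) + (x + y).val = x.val + y.val` (`ZMod.val_add`), so `p (N(x,y) + N(x+y,z))` and
`p (N(y,z) + N(x,y+z))` are both `x.val + y.val + z.val - (x+y+z).val`. -/
theorem carry_cocycle (p : ℕ) [Fact p.Prime] (x y z : ZMod p) :
    carry p x y + carry p (x + y) z = carry p y z + carry p x (y + z) := by
  have hp : 0 < p := (Fact.out : p.Prime).pos
  unfold carry
  rw [ZMod.val_add, ZMod.val_add, ← Nat.cast_add, ← Nat.cast_add, S19_div p hp,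
    add_comm x.val ((y.val + z.val) % p), S19_div p hp]
  congr 2
  omega

/-- PIECE SE-19a. -/
theorem carry_zero (p : ℕ) [Fact p.Prime] (x : ZMod p) :
    carry p x 0 = 0 ∧ carry p 0 x = 0 := by
  have h1 : x.val / p = 0 := Nat.div_eq_of_lt (ZMod.val_lt x)
  unfold carry
  rw [ZMod.val_zero, add_zero, zero_add, h1, Nat.cast_zero]
  exact ⟨rfl, rfl⟩

/-- PIECE SE-19a. -/
theorem carry_last (p : ℕ) [Fact p.Prime] (n : ℕ) (hn : n < p) :
    carry p (n : ZMod p) 1 = if n + 1 = p then 1 else 0 := by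
  have hp : 1 < p := (Fact.out : p.Prime).one_lt
  haveI : Fact (1 < p) := ⟨hp⟩
  unfold carry
  rw [ZMod.val_natCast_of_lt hn, ZMod.val_one]
  split_ifs with h
  · rw [h, Nat.div_self (by omega), Nat.cast_one]
  · rw [Nat.div_eq_of_lt (by omega), Nat.cast_zero]

variable {G : Type} [Group G]

/-- PIECE SE-19b (120 lines).  `κ` is a homomorphism on `K`, so zero on `K` (`h0`), and
`κ(g k) = κ(g)` for `k ∈ K` (`carry_zero`); so `κ g` depends only on `(α g, β g)` (if
`(α g, β g) = (α g', β g')` then `g⁻¹ g' ∈ K`).  Choose `e1, e2` with `(α, β)` equal to `(1, 0)`,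
`(0, 1)`.  `κ(e1 e2) = κ(e2 e1)` gives `d = 0`.  By induction `κ(e1^n) = n κ(e1)` for `n < p` and
`κ(e1^p) = p κ(e1) + a = a` (`carry_last`), and `e1^p ∈ K`, so `a = 0`; in the same way `b = 0`. -/
theorem comb_zero (p : ℕ) [Fact p.Prime] (α β : Hm G (ZMod p))
    (hs : ∀ x y : ZMod p, ∃ g, α.1 g = x ∧ β.1 g = y) (K : Subgroup G)
    (hK : ∀ g, g ∈ K ↔ α.1 g = 0 ∧ β.1 g = 0) (h0 : ∀ a : Hm K (ZMod p), a = 0)
    (a b d : ZMod p) (κ : G → ZMod p)
    (hκ : ∀ g h, κ (g * h) = κ g + κ h + (a * carry p (α.1 g) (α.1 h)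
      + b * carry p (β.1 g) (β.1 h) + d * (α.1 g * β.1 h))) : a = 0 ∧ b = 0 ∧ d = 0 := by
  have hc0 : ∀ x : ZMod p, carry p x 0 = 0 := fun x => (carry_zero p x).1
  have hc1 : ∀ x : ZMod p, carry p 0 x = 0 := fun x => (carry_zero p x).2
  -- zero on the kernel
  have hκK : ∀ k ∈ K, κ k = 0 := by
    intro k hk
    have h1 : ∀ g h : K, κ ((g * h : K) : G) = κ g + κ h := by
      intro g h
      obtain ⟨g1, g2⟩ := (hK g).1 g.2
      obtain ⟨h1, h2⟩ := (hK h).1 h.2
      rw [Subgroup.coe_mul, hκ, g1, g2, h1, h2, hc0]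
      ring
    have h2 := h0 ⟨fun g => κ g, h1⟩
    have h3 := congrArg (fun x : Hm K (ZMod p) => x.1 ⟨k, hk⟩) h2
    exact h3
  -- dependence on the values only
  have hdep : ∀ g g' : G, α.1 g = α.1 g' → β.1 g = β.1 g' → κ g = κ g' := by
    intro g g' h1 h2
    have hk : g⁻¹ * g' ∈ K := by
      rw [hK, Hm.map_mul, Hm.map_mul, Hm.map_inv, Hm.map_inv, h1, h2]
      constructor <;> ring
    obtain ⟨k1, k2⟩ := (hK _).1 hk
    have h3 := hκ g (g⁻¹ * g')
    rw [mul_inv_cancel_left, hκK _ hk, k1, k2, hc0, hc0] at h3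
    rw [h3]
    ring
  obtain ⟨e1, a1, b1⟩ := hs 1 0
  obtain ⟨e2, a2, b2⟩ := hs 0 1
  have hd : d = 0 := by
    have h1 := hκ e1 e2
    have h2 := hκ e2 e1
    have h3 : κ (e1 * e2) = κ (e2 * e1) := by
      apply hdep
      · rw [Hm.map_mul, Hm.map_mul, add_comm]
      · rw [Hm.map_mul, Hm.map_mul, add_comm]
    rw [h1, h2, a1, a2, b1, b2, hc0, hc1] at h3
    linear_combination h3
  have hone : κ 1 = 0 := hκK 1 K.one_mem
  have key : ∀ (c : ZMod p) (u : ℕ → ZMod p), u 0 = 0 →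
      (∀ n < p, u (n + 1) = u n + u 1 + c * (if n + 1 = p then 1 else 0)) → u p = 0 → c = 0 := by
    intro c u hu0 hu hup
    have hp := (Fact.out : p.Prime).pos
    have h1 : ∀ n < p, u n = n * u 1 := by
      intro n
      induction n with
      | zero => intro _; rw [hu0]; simp
      | succ n ih =>
        intro hn
        rw [hu n (by omega), ih (by omega), if_neg (by omega)]
        push_cast
        ring
    obtain ⟨q, hq⟩ : ∃ q, p = q + 1 := ⟨p - 1, by omega⟩
    have h2 := hu q (by omega)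
    rw [← hq, hup, h1 q (by omega), if_pos rfl] at h2
    have h3 : ((q : ZMod p) + 1) = 0 := by
      have h4 : ((p : ℕ) : ZMod p) = 0 := ZMod.natCast_self p
      have h5 : ((q + 1 : ℕ) : ZMod p) = 0 := by rw [← hq]; exact h4
      rwa [Nat.cast_add, Nat.cast_one] at h5
    linear_combination -h2 - u 1 * h3
  have ha : a = 0 := by
    refine key a (fun n => κ (e1 ^ n)) (by simpa using hone) ?_ ?_
    · intro n hn
      have h1 := hκ (e1 ^ n) e1
      rw [← pow_succ, Hm.map_pow, Hm.map_pow, a1, b1, mul_one, mul_zero, carry_last p n hn,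
        hc0] at h1
      simp only [pow_one]
      rw [h1]
      ring
    · apply hκK
      rw [hK, Hm.map_pow, Hm.map_pow, a1, b1]
      simp
  have hb : b = 0 := by
    refine key b (fun n => κ (e2 ^ n)) (by simpa using hone) ?_ ?_
    · intro n hn
      have h1 := hκ (e2 ^ n) e2
      rw [← pow_succ, Hm.map_pow, Hm.map_pow, a2, b2, mul_one, mul_zero, carry_last p n hn,
        hc0] at h1
      simp only [pow_one]
      rw [h1]
      ring
    · apply hκK
      rw [hK, Hm.map_pow, Hm.map_pow, a2, b2]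
      simp
  exact ⟨ha, hb, hd⟩

/-- PIECE SE-19c (50 lines).  A homomorphism `a : G → ZMod p` is zero on `K`, so it factors
through `(α, β)`: `a = a(e1) α + a(e2) β`; so `α, β` span. -/
theorem finrank_le_two (p : ℕ) [Fact p.Prime] (α β : Hm G (ZMod p))
    (hs : ∀ x y : ZMod p, ∃ g, α.1 g = x ∧ β.1 g = y) (K : Subgroup G)
    (hK : ∀ g, g ∈ K ↔ α.1 g = 0 ∧ β.1 g = 0) (h0 : ∀ a : Hm K (ZMod p), a = 0) :
    Module.finrank (ZMod p) (Hm G (ZMod p)) ≤ 2 := by
  obtain ⟨e1, h1, h1'⟩ := hs 1 0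
  obtain ⟨e2, h2, h2'⟩ := hs 0 1
  let Φ : Hm G (ZMod p) →ₗ[ZMod p] (Fin 2 → ZMod p) :=
    { toFun := fun a => ![a.1 e1, a.1 e2]
      map_add' := fun a b => by
        ext i
        fin_cases i <;> rfl
      map_smul' := fun c a => by
        ext i
        fin_cases i <;> rfl }
  have hΦ : Function.Injective Φ := by
    rw [← LinearMap.ker_eq_bot, LinearMap.ker_eq_bot']
    intro a ha
    have a1 : a.1 e1 = 0 := congrFun ha 0
    have a2 : a.1 e2 = 0 := congrFun ha 1
    apply Subtype.ext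
    funext g
    show a.1 g = 0
    have hα : α.1 (e1 ^ (α.1 g).val * e2 ^ (β.1 g).val) = α.1 g := by
      rw [Hm.map_mul, Hm.map_pow, Hm.map_pow, h1, h2]
      simp
    have hβ : β.1 (e1 ^ (α.1 g).val * e2 ^ (β.1 g).val) = β.1 g := by
      rw [Hm.map_mul, Hm.map_pow, Hm.map_pow, h1', h2']
      simp
    have hk : g * (e1 ^ (α.1 g).val * e2 ^ (β.1 g).val)⁻¹ ∈ K := by
      rw [hK, Hm.map_mul, Hm.map_mul, Hm.map_inv, Hm.map_inv, hα, hβ]
      exact ⟨add_neg_cancel _, add_neg_cancel _⟩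
    have hz : a.1 (g * (e1 ^ (α.1 g).val * e2 ^ (β.1 g).val)⁻¹) = 0 := by
      have h3 := h0 (resHm K a)
      have h4 := congrArg (fun x : Hm K (ZMod p) => x.1 ⟨_, hk⟩) h3
      exact h4
    rw [Hm.map_mul, Hm.map_inv, Hm.map_mul, Hm.map_pow, Hm.map_pow, a1, a2] at hz
    simpa using hz
  have h5 := LinearMap.finrank_le_finrank_of_injective hΦ
  rwa [Module.finrank_fin_fun] at h5

variable {P0 P1 P2 P3 : Type} [AddCommGroup P0] [AddCommGroup P1]
    [AddCommGroup P2] [AddCommGroup P3] [DistribMulAction G P0] [DistribMulAction G P1]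
    [DistribMulAction G P2] [DistribMulAction G P3]

/-- PIECE SE-19d (60 lines).  The three cocycles `carry (α g) (α h)`, `carry (β g) (β h)`,
`α g * β h` (`carry_cocycle`), `exists_cob_comb` with `n = 3` (`finrank_le_two`), and
`comb_zero`. -/
theorem no_rank_two (D : PD3Data G P0 P1 P2 P3) (p : ℕ) [Fact p.Prime] (α β : Hm G (ZMod p))
    (hs : ∀ x y : ZMod p, ∃ g, α.1 g = x ∧ β.1 g = y) (K : Subgroup G)
    (hK : ∀ g, g ∈ K ↔ α.1 g = 0 ∧ β.1 g = 0) (h0 : ∀ a : Hm K (ZMod p), a = 0) : False := by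
  have h2 := finrank_le_two p α β hs K hK h0
  let c0 : Z2 G (ZMod p) := ⟨fun g h => carry p (α.1 g) (α.1 h), fun g h k => by
    have h1 : α.1 (g * h) = α.1 g + α.1 h := α.2 g h
    have h2 : α.1 (h * k) = α.1 h + α.1 k := α.2 h k
    simp only [h1, h2]
    exact carry_cocycle p _ _ _⟩
  let c1 : Z2 G (ZMod p) := ⟨fun g h => carry p (β.1 g) (β.1 h), fun g h k => by
    have h1 : β.1 (g * h) = β.1 g + β.1 h := β.2 g h
    have h2 : β.1 (h * k) = β.1 h + β.1 k := β.2 h k
    simp only [h1, h2]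
    exact carry_cocycle p _ _ _⟩
  let c2 : Z2 G (ZMod p) := ⟨fun g h => α.1 g * β.1 h, fun g h k => by
    have h1 : α.1 (g * h) = α.1 g + α.1 h := α.2 g h
    have h2 : β.1 (h * k) = β.1 h + β.1 k := β.2 h k
    simp only [h1, h2]
    ring⟩
  obtain ⟨lam, hlam, κ, hκ⟩ := D.exists_cob_comb 3 ![c0, c1, c2] (by omega)
  obtain ⟨e0, e1, e2⟩ := comb_zero p α β hs K hK h0 (lam 0) (lam 1) (lam 2) κ (fun g h => by
    rw [hκ g h, Fin.sum_univ_three]
    rfl)
  apply hlam
  funext i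
  fin_cases i
  · exact e0
  · exact e1
  · exact e2

end Pool.ACH
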