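import Pool.Agent.Helper20.SE.Base

/-! Project SE (MP_9d9192_al). -/

set_option autoImplicit false

namespace Pool.ACH

variable {G : Type} [Group G]

section maps
variable {P0 P1 P2 P3 : Type} [AddCommGroup P0] [AddCommGroup P1] [AddCommGroup P2]
  [AddCommGroup P3] [DistribMulAction G P0] [DistribMulAction G P1] [DistribMulAction G P2]
  [DistribMulAction G P3] {D : PD3Data G P0 P1 P2 P3}

/-- The composition of chain maps. -/
private def EMap.cmp {f f' : G →* G} (E : EMap D f) (E' : EMap D f')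
    (hf' : Function.Injective f') : EMap D (f.comp f') where
  F0 := E.F0.comp E'.F0
  F1 := E.F1.comp E'.F1
  F2 := E.F2.comp E'.F2
  F3 := E.F3.comp E'.F3
  F0_smul g p := by simp [E'.F0_smul, E.F0_smul]
  F1_smul g p := by simp [E'.F1_smul, E.F1_smul]
  F2_smul g p := by simp [E'.F2_smul, E.F2_smul]
  F3_smul g p := by simp [E'.F3_smul, E.F3_smul]
  ε_F0 p := by simp [E'.ε_F0, E.ε_F0]
  comm0 p := by simp [E'.comm0, E.comm0]
  comm1 p := by simp [E'.comm1, E.comm1]
  comm2 p := by simp [E'.comm2, E.comm2]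
  c := E.c * E'.c
  ψ := E.c • E'.ψ + E.ψ.comp E'.F2
  ψ_fs := (E'.ψ_fs.zsmul E.c).add (E.ψ_fs.comp_inj f' hf' E'.F2 E'.F2_smul)
  deg p := by
    have h1 := E.deg (E'.F3 p)
    have h2 := E'.deg p
    rw [← E'.comm2] at h1
    rw [AddMonoidHom.coe_comp, Function.comp_apply, h1, h2, AddMonoidHom.add_apply,
      AddMonoidHom.coe_comp, Function.comp_apply, AddMonoidHom.smul_apply, smul_eq_mul]
    ring

/-- The identity chain map. -/
private def EMap.idm (D : PD3Data G P0 P1 P2 P3) : EMap D (MonoidHom.id G) where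
  F0 := AddMonoidHom.id P0
  F1 := AddMonoidHom.id P1
  F2 := AddMonoidHom.id P2
  F3 := AddMonoidHom.id P3
  F0_smul _ _ := rfl
  F1_smul _ _ := rfl
  F2_smul _ _ := rfl
  F3_smul _ _ := rfl
  ε_F0 _ := rfl
  comm0 _ := rfl
  comm1 _ := rfl
  comm2 _ := rfl
  c := 1
  ψ := 0
  ψ_fs := IsFs.zero
  deg p := by simp

private theorem exists_pow {f : Monoid.End G} (hf : Function.Injective f) (E : EMap D f) (n : ℕ) :
    ∃ E' : EMap D (f ^ n : Monoid.End G), E'.c = E.c ^ n := by
  induction n with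
  | zero => exact ⟨EMap.idm D, (pow_zero E.c).symm⟩
  | succ n ih =>
    obtain ⟨E', hE'⟩ := ih
    refine ⟨(EMap.cmp E' E hf : EMap D (MonoidHom.comp (f ^ n : Monoid.End G) f)), ?_⟩
    have h : E'.c * E.c = E.c ^ (n + 1) := by rw [hE', pow_succ]
    exact h

end maps

/-- PIECE SE-2 (100 lines).  Powers.  Composition: if `E : EMap D f`, `E' : EMap D f'` and
`f` is injective then there is a chain map over `f.comp f'` with coefficient `E.c * E'.c`
(`F_i = E.F_i ∘ E'.F_i`, `z(F3 F3' p) = c z(F3' p) + ψ(d2 F3' p) = c c' z p + c ψ'(d2 p) +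
ψ(F2' d2 p)`; `ψ∘F2'` is finitely supported by `IsFs.comp_inj` for `f'` injective).  The index of
the range of `f ^ n` is `m ^ n`.  For `n = 0` take the identity. -/
theorem SelfMap.pow {f : Monoid.End G} {m : ℕ} {c : ℤ} (h : SelfMap G f m c) (n : ℕ) :
    SelfMap G (f ^ n : Monoid.End G) (m ^ n) (c ^ n) := by
  obtain ⟨hf, hm, hm0, P0, P1, P2, P3, i0, i1, i2, i3, j0, j1, j2, j3, D, E, hE⟩ := h
  have hinj : ∀ n : ℕ, Function.Injective (f ^ n : Monoid.End G) := by
    intro n
    induction n with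
    | zero => intro x y hxy; exact hxy
    | succ n ih =>
      intro x y hxy
      rw [pow_succ] at hxy
      exact hf (ih hxy)
  have hidx : ∀ n : ℕ, (MonoidHom.range (f ^ n : Monoid.End G)).index = m ^ n := by
    intro n
    induction n with
    | zero =>
      have h1 : MonoidHom.range (f ^ 0 : Monoid.End G) = ⊤ := by
        rw [eq_top_iff]
        intro x _
        exact ⟨x, rfl⟩
      rw [h1, Subgroup.index_top, pow_zero]
    | succ n ih =>
      have h1 : MonoidHom.range (f ^ (n + 1) : Monoid.End G) =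
          (MonoidHom.range f).map (f ^ n : Monoid.End G) := by
        rw [pow_succ]
        exact MonoidHom.range_comp (f ^ n : Monoid.End G) f
      rw [h1, Subgroup.index_map_of_injective _ (hinj n), ih, hm, pow_succ, mul_comm]
  obtain ⟨E', hE'⟩ := exists_pow hf E n
  refine ⟨hinj n, hidx n, pow_ne_zero n hm0, P0, P1, P2, P3, i0, i1, i2, i3, j0, j1, j2, j3, D,
    E', ?_⟩
  rw [hE', hE]

end Pool.ACH
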