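import Pool.Agent.Helper20.SE.S12
import Pool.Agent.Helper20.ACH.HmBase

/-! Project SE (MP_9d9192_al): the largest quotient of `p`-power order. -/

set_option autoImplicit false

namespace Pool.ACH

variable {G : Type} [Group G]

/-- `K` is the smallest normal subgroup of `p`-power index. -/
def IsTop (p : ℕ) (K : Subgroup G) : Prop :=
  K.Normal ∧ (∃ k, K.index = p ^ k) ∧
    ∀ K' : Subgroup G, K'.Normal → (∃ k, K'.index = p ^ k) → K ≤ K'

/-- PIECE SE-20a (50 lines).  Take `K` of largest index among the normal subgroups of `p`-power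
index.  For `K'` another one, `K ⊓ K'` is normal and
`[G : K ⊓ K'] = [G : K] [K : K ⊓ K']` where `[K : K ⊓ K']` divides `[G : K']`
(`Subgroup.relIndex_dvd_index_of_normal`), so it is a power of `p`; by the choice of `K` the indices
of `K ⊓ K'` and `K` are equal, so `K ≤ K'`. -/
theorem exists_top (p : ℕ) [Fact p.Prime] (h : BddP p G) : ∃ K : Subgroup G, IsTop p K := by
  classical
  have hp : p.Prime := Fact.out
  obtain ⟨B, hB⟩ := h
  -- the set of exponents
  let P : ℕ → Prop := fun k => ∃ K : Subgroup G, K.Normal ∧ K.index = p ^ k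
  have hP0 : P 0 := ⟨⊤, inferInstance, by simp⟩
  have hPB : ∀ k, P k → k ≤ B := by
    rintro k ⟨K, hK, hk⟩
    have h1 := hB K hK ⟨k, hk⟩
    rw [hk] at h1
    exact (Nat.lt_pow_self hp.one_lt).le.trans h1
  have hspec : P (Nat.findGreatest P B) := Nat.findGreatest_spec (Nat.zero_le B) hP0
  have hmax : ∀ k, P k → k ≤ Nat.findGreatest P B := fun k hk =>
    Nat.le_findGreatest (hPB k hk) hk
  generalize Nat.findGreatest P B = m at hspec hmax
  obtain ⟨K, hKn, hK⟩ := hspec
  refine ⟨K, hKn, ⟨m, hK⟩, ?_⟩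
  rintro K' hK'n ⟨k, hk⟩
  have h1 : (K ⊓ K').relIndex K * K.index = (K ⊓ K').index :=
    Subgroup.relIndex_mul_index inf_le_left
  have h2 : (K ⊓ K').relIndex K = K'.relIndex K := by
    rw [inf_comm, Subgroup.inf_relIndex_right]
  have h3 : K'.relIndex K ∣ K'.index := Subgroup.relIndex_dvd_index_of_normal K' K
  rw [hk] at h3
  obtain ⟨r, _, hr⟩ := (Nat.dvd_prime_pow hp).1 h3
  rw [h2, hr, hK, ← pow_add] at h1
  have h4 : r + m ≤ m := hmax _ ⟨K ⊓ K', inferInstance, h1.symm⟩
  have h5 : r = 0 := by omega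
  rw [h5, pow_zero] at hr
  exact Subgroup.relIndex_eq_one.1 hr

/-- PIECE SE-20b (50 lines).  The image `N` of `LP p K 1` in `G` is normal
(`LP_map_subtype_normal`) and of `p`-power index (`LP_index` for `K`, which is finitely generated);
so `K ≤ N`, so `LP p K 1 = ⊤`; and `a` vanishes on `LP p K 1` (`LP_le` for the kernel of `a`). -/
theorem IsTop.hom_zero (hfg : Group.FG G) (p : ℕ) [Fact p.Prime] {K : Subgroup G}
    (hK : IsTop p K) (a : Hm K (ZMod p)) : a = 0 := by
  obtain ⟨hn, ⟨k, hk⟩, hmin⟩ := hK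
  have hpr : p.Prime := Fact.out
  have hfgK : Group.FG K := by
    have _ : Group.FG G := hfg
    have _ : K.FiniteIndex := ⟨by rw [hk]; exact pow_ne_zero _ hpr.ne_zero⟩
    infer_instance
  obtain ⟨j, hj⟩ := LP_index hfgK p 1
  have h1 : K ≤ (LP p K 1).map K.subtype := by
    refine hmin _ (LP_map_subtype_normal p K 1) ⟨j + k, ?_⟩
    rw [Subgroup.index_map_subtype, hj, hk, pow_add]
  let M : Subgroup K :=
    { carrier := {x | a.1 x = 0}
      one_mem' := Hm.map_one a
      mul_mem' := fun {x y} hx hy => by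
        show a.1 (x * y) = 0
        rw [Hm.map_mul, show a.1 x = 0 from hx, show a.1 y = 0 from hy, add_zero]
      inv_mem' := fun {x} hx => by
        show a.1 x⁻¹ = 0
        rw [Hm.map_inv, show a.1 x = 0 from hx, neg_zero] }
  have h2 : LP p K (0 + 1) ≤ M := by
    refine LP_le M (fun x _ g => ?_) (fun x _ => ?_)
    · show a.1 (x * g * x⁻¹ * g⁻¹) = 0
      rw [Hm.map_mul, Hm.map_conj, Hm.map_inv, add_neg_cancel]
    · show a.1 (x ^ p) = 0
      rw [Hm.map_pow, CharP.cast_eq_zero, zero_mul]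
  ext x
  obtain ⟨y, hy, hyx⟩ := h1 x.2
  have h3 : y = x := Subtype.ext hyx
  rw [h3] at hy
  exact h2 hy

end Pool.ACH
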