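import Pool.Agent.Helper20.SE.S19
import Pool.Agent.Helper20.SE.Base

/-! Project SE (MP_9d9192_al): the largest quotient of `p`-power order has rank one. -/

set_option autoImplicit false

namespace Pool.ACH

private theorem S21_pow_add {Q : Type} [Group Q] {p : ℕ} [Fact p.Prime] {x : Q}
    (hx : x ^ p = 1) (i j : ZMod p) : x ^ (i + j).val = x ^ i.val * x ^ j.val := by
  rw [ZMod.val_add, ← pow_add]
  exact (pow_eq_pow_mod _ hx).symm

private theorem S21_pow_mul {Q : Type} [Group Q] {p : ℕ} [Fact p.Prime] {x : Q}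
    (hx : x ^ p = 1) (i j : ZMod p) : x ^ (i * j).val = (x ^ i.val) ^ j.val := by
  rw [ZMod.val_mul, ← pow_mul]
  exact (pow_eq_pow_mod _ hx).symm

private theorem S21_pow_one {Q : Type} [Group Q] {p : ℕ} [Fact p.Prime] (x : Q) :
    x ^ (1 : ZMod p).val = x := by
  have : Fact (1 < p) := ⟨(Fact.out : p.Prime).one_lt⟩
  rw [ZMod.val_one, pow_one]

private theorem S21_inj {Q : Type} [Group Q] {p : ℕ} [Fact p.Prime] {x y : Q} (hx : x ^ p = 1)
    (hy : y ^ p = 1) (hx1 : x ≠ 1) (hn : ¬ ∃ k : ℕ, y = x ^ k) (i j : ZMod p)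
    (h : x ^ i.val * y ^ j.val = 1) : i = 0 ∧ j = 0 := by
  have hj : j = 0 := by
    by_contra hj
    apply hn
    refine ⟨(-i).val * (j⁻¹).val, ?_⟩
    have h1 : x ^ i.val * x ^ (-i).val = 1 := by
      rw [← S21_pow_add hx, add_neg_cancel, ZMod.val_zero, pow_zero]
    have h2 : y ^ j.val = x ^ (-i).val := mul_left_cancel (h.trans h1.symm)
    calc y = y ^ (j * j⁻¹).val := by rw [mul_inv_cancel₀ hj, S21_pow_one]
      _ = (x ^ (-i).val) ^ (j⁻¹).val := by rw [S21_pow_mul hy, h2]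
      _ = x ^ ((-i).val * (j⁻¹).val) := (pow_mul _ _ _).symm
  subst hj
  rw [ZMod.val_zero, pow_zero, mul_one] at h
  refine ⟨?_, rfl⟩
  by_contra hi
  apply hx1
  calc x = x ^ (i * i⁻¹).val := by rw [mul_inv_cancel₀ hi, S21_pow_one]
    _ = 1 := by rw [S21_pow_mul hx, h, one_pow]

/-- PIECE SE-21a (90 lines).  Coordinates.  The elements of `E = closure {x, y}` are the
`x^i y^j`, and `x^i y^j = 1` only if `p ∣ i` and `p ∣ j`: if `p ∤ j` then `y` is a power of `y^j`
hence of `x`; so `y^j = 1`, `x^i = 1`, `p ∣ i`.  So `x^i y^j ↦ i`, `x^i y^j ↦ j` are well-defined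
homomorphisms to `ZMod p`. -/
theorem exists_coord (Q : Type) [Group Q] (p : ℕ) [Fact p.Prime] (x y : Q) (hx : x ^ p = 1)
    (hy : y ^ p = 1) (hxy : x * y = y * x) (hx1 : x ≠ 1) (hn : ¬ ∃ k : ℕ, y = x ^ k) :
    ∃ α β : Hm (Subgroup.closure ({x, y} : Set Q)) (ZMod p),
      (∀ i j : ZMod p, ∃ e, α.1 e = i ∧ β.1 e = j) ∧
      (∀ e, α.1 e = 0 → β.1 e = 0 → e = 1) := by
  classical
  set E : Subgroup Q := Subgroup.closure ({x, y} : Set Q) with hE
  have hxE : x ∈ E := Subgroup.subset_closure (by simp)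
  have hyE : y ∈ E := Subgroup.subset_closure (by simp)
  have hc : Commute x y := hxy
  -- the parametrisation
  let f : ZMod p × ZMod p → Q := fun u => x ^ u.1.val * y ^ u.2.val
  have hadd : ∀ u v, f (u + v) = f u * f v := by
    intro u v
    have h1 : y ^ u.2.val * x ^ v.1.val = x ^ v.1.val * y ^ u.2.val :=
      ((hc.pow_pow v.1.val u.2.val).eq).symm
    show x ^ (u.1 + v.1).val * y ^ (u.2 + v.2).val =
      x ^ u.1.val * y ^ u.2.val * (x ^ v.1.val * y ^ v.2.val)
    rw [S21_pow_add hx, S21_pow_add hy]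
    calc x ^ u.1.val * x ^ v.1.val * (y ^ u.2.val * y ^ v.2.val)
        = x ^ u.1.val * (x ^ v.1.val * y ^ u.2.val) * y ^ v.2.val := by
          simp only [mul_assoc]
      _ = x ^ u.1.val * (y ^ u.2.val * x ^ v.1.val) * y ^ v.2.val := by rw [h1]
      _ = x ^ u.1.val * y ^ u.2.val * (x ^ v.1.val * y ^ v.2.val) := by
          simp only [mul_assoc]
  have hf0 : f 0 = 1 := by
    show x ^ (0 : ZMod p).val * y ^ (0 : ZMod p).val = 1
    rw [ZMod.val_zero, pow_zero, pow_zero, mul_one]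
  have hinj : Function.Injective f := by
    intro u v huv
    have h1 : f (u - v) * f v = f v := by rw [← hadd, sub_add_cancel, huv]
    have h2 : f (u - v) = 1 := mul_eq_right.mp h1
    have h3 := S21_inj hx hy hx1 hn _ _ h2
    have h4 : u - v = 0 := Prod.ext h3.1 h3.2
    exact sub_eq_zero.mp h4
  have hmem : ∀ u, f u ∈ E := fun u =>
    E.mul_mem (E.pow_mem hxE _) (E.pow_mem hyE _)
  -- the range is a subgroup containing the generators
  let R : Subgroup Q :=
    { carrier := Set.range f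
      mul_mem' := by
        rintro _ _ ⟨u, rfl⟩ ⟨v, rfl⟩
        exact ⟨u + v, hadd u v⟩
      one_mem' := ⟨0, hf0⟩
      inv_mem' := by
        rintro _ ⟨u, rfl⟩
        refine ⟨-u, ?_⟩
        rw [eq_inv_iff_mul_eq_one, ← hadd, neg_add_cancel, hf0] }
  have hER : E ≤ R := by
    rw [hE, Subgroup.closure_le]
    rintro z (rfl | rfl)
    · refine ⟨(1, 0), ?_⟩
      show z ^ (1 : ZMod p).val * y ^ (0 : ZMod p).val = z
      rw [ZMod.val_zero, pow_zero, mul_one, S21_pow_one]
    · refine ⟨(0, 1), ?_⟩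
      show x ^ (0 : ZMod p).val * z ^ (1 : ZMod p).val = z
      rw [ZMod.val_zero, pow_zero, one_mul, S21_pow_one]
  have hsur : ∀ e : E, ∃ u, f u = e.1 := fun e => hER e.2
  choose g hg using hsur
  have hgadd : ∀ e e' : E, g (e * e') = g e + g e' := by
    intro e e'
    apply hinj
    rw [hg, hadd, hg, hg]
    rfl
  have hgf : ∀ u, g ⟨f u, hmem u⟩ = u := fun u => hinj (hg _)
  refine ⟨⟨fun e => (g e).1, fun e e' => congrArg Prod.fst (hgadd e e')⟩,
    ⟨fun e => (g e).2, fun e e' => congrArg Prod.snd (hgadd e e')⟩, ?_, ?_⟩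
  · intro i j
    refine ⟨⟨f (i, j), hmem _⟩, ?_, ?_⟩
    · show (g ⟨f (i, j), hmem _⟩).1 = i
      rw [hgf]
    · show (g ⟨f (i, j), hmem _⟩).2 = j
      rw [hgf]
  · intro e h1 h2
    have h3 : g e = 0 := Prod.ext h1 h2
    apply Subtype.ext
    rw [← hg e, h3, hf0]
    rfl

variable {G : Type} [Group G] {P0 P1 P2 P3 : Type} [AddCommGroup P0] [AddCommGroup P1]
    [AddCommGroup P2] [AddCommGroup P3] [DistribMulAction G P0] [DistribMulAction G P1]
    [DistribMulAction G P2] [DistribMulAction G P3]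

/-- PIECE SE-21b (90 lines).  Suppose `x, y ∈ G ⧸ K` commute, `x^p = y^p = 1`, `x ≠ 1` and `y` is
not a power of `x`.  Let `E = closure {x, y}` and let `H` be its preimage in `G`, of finite index;
`α, β` of `exists_coord` composed with `H → E` (surjective), kernel `K.subgroupOf H`, isomorphic to
`K`.  Apply `no_rank_two` to `D.restrict H` (ACH/Restr.lean). -/
theorem PD3Data.rankOne_quot (D : PD3Data G P0 P1 P2 P3) (p : ℕ) [Fact p.Prime]
    (K : Subgroup G) [K.Normal] (hidx : K.index ≠ 0) (h0 : ∀ a : Hm K (ZMod p), a = 0) :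
    RankOne p (G ⧸ K) := by
  intro x y hx hy hxy hx1
  by_contra hn
  obtain ⟨α, β, hs, hker⟩ := exists_coord (G ⧸ K) p x y hx hy hxy hx1 hn
  obtain ⟨H, hH⟩ : ∃ H, H = (Subgroup.closure ({x, y} : Set (G ⧸ K))).comap
    (QuotientGroup.mk' K) := ⟨_, rfl⟩
  have hmem' : ∀ g : G, g ∈ H → QuotientGroup.mk' K g ∈
      Subgroup.closure ({x, y} : Set (G ⧸ K)) := by
    intro g hg
    rw [hH] at hg
    exact hg
  have hmem : ∀ g : H, QuotientGroup.mk' K (g : G) ∈ Subgroup.closure ({x, y} : Set (G ⧸ K)) :=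
    fun g => hmem' g g.2
  have hKH : K ≤ H := by
    intro k hk
    rw [hH, Subgroup.mem_comap]
    have : QuotientGroup.mk' K k = 1 := by
      rw [QuotientGroup.mk'_apply, QuotientGroup.eq_one_iff]; exact hk
    rw [this]
    exact Subgroup.one_mem _
  have hHi : H.index ≠ 0 := fun h => hidx (Nat.eq_zero_of_zero_dvd
    (by rw [← h]; exact Subgroup.index_dvd_of_le hKH))
  let e : H → Subgroup.closure ({x, y} : Set (G ⧸ K)) := fun g => ⟨_, hmem g⟩
  have hemul : ∀ g h, e (g * h) = e g * e h := by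
    intro g h
    ext
    simp [e]
  have hesurj : ∀ q, ∃ g, e g = q := by
    rintro ⟨q, hq⟩
    obtain ⟨g, rfl⟩ := QuotientGroup.mk'_surjective K q
    refine ⟨⟨g, by rw [hH]; exact hq⟩, rfl⟩
  let α' : Hm H (ZMod p) := ⟨fun g => α.1 (e g), fun g h => by
    show α.1 (e (g * h)) = α.1 (e g) + α.1 (e h)
    rw [hemul]; exact α.2 _ _⟩
  let β' : Hm H (ZMod p) := ⟨fun g => β.1 (e g), fun g h => by
    show β.1 (e (g * h)) = β.1 (e g) + β.1 (e h)
    rw [hemul]; exact β.2 _ _⟩
  refine no_rank_two (D.restrict H hHi) p α' β' ?_ (K.subgroupOf H) ?_ ?_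
  · intro a b
    obtain ⟨q, h1, h2⟩ := hs a b
    obtain ⟨g, rfl⟩ := hesurj q
    exact ⟨g, h1, h2⟩
  · intro g
    rw [Subgroup.mem_subgroupOf]
    constructor
    · intro hg
      have h1 : e g = 1 := by
        ext
        show QuotientGroup.mk' K (g : G) = 1
        rw [QuotientGroup.mk'_apply, QuotientGroup.eq_one_iff]; exact hg
      refine ⟨?_, ?_⟩
      · show α.1 (e g) = 0
        rw [h1, Hm.map_one]
      · show β.1 (e g) = 0
        rw [h1, Hm.map_one]
    · rintro ⟨h1, h2⟩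
      have h3 := hker (e g) h1 h2
      have h4 : QuotientGroup.mk' K (g : G) = 1 := congrArg Subtype.val h3
      rwa [QuotientGroup.mk'_apply, QuotientGroup.eq_one_iff] at h4
  · intro a
    let φ := Subgroup.subgroupOfEquivOfLe hKH
    have h1 := h0 ⟨fun k => a.1 (φ.symm k), fun k l => by
      show a.1 (φ.symm (k * l)) = a.1 (φ.symm k) + a.1 (φ.symm l)
      rw [_root_.map_mul]; exact a.2 _ _⟩
    ext k
    have h2 := congrArg (fun b : Hm K (ZMod p) => b.1 (φ k)) h1
    simpa using h2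

end Pool.ACH
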