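import Pool.Agent.Helper20.SE.Base

/-! Project SE (MP_9d9192_al): groups of prime power order and rank one. -/

set_option autoImplicit false

namespace Pool.ACH

variable {P : Type} [Group P]

private theorem S22_pow_comm (a x : P) (r : ℕ) (hx : x * a * x⁻¹ = a ^ r) (i j : ℕ) :
    x ^ j * a ^ i = a ^ (i * r ^ j) * x ^ j := by
  have h1 : ∀ i : ℕ, x * a ^ i = a ^ (i * r) * x := by
    intro i
    have h2 : x * a ^ i * x⁻¹ = (x * a * x⁻¹) ^ i := by
      rw [conj_pow]
    rw [hx, ← pow_mul, mul_comm r i] at h2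
    rw [← h2, inv_mul_cancel_right]
  induction j with
  | zero => simp
  | succ j ih =>
    rw [pow_succ' x j, mul_assoc, ih, ← mul_assoc, h1, mul_assoc, pow_succ r j, mul_assoc i]

private theorem S22_pow (a x : P) (r : ℕ) (hx : x * a * x⁻¹ = a ^ r) (i m : ℕ) :
    (a ^ i * x) ^ m = a ^ (i * ∑ j ∈ Finset.range m, r ^ j) * x ^ m := by
  induction m with
  | zero => simp
  | succ m ih =>
    rw [pow_succ, ih, Finset.sum_range_succ, mul_add, pow_add, pow_succ x m]
    have h1 := S22_pow_comm a x r hx i m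
    calc a ^ (i * ∑ j ∈ Finset.range m, r ^ j) * x ^ m * (a ^ i * x)
        = a ^ (i * ∑ j ∈ Finset.range m, r ^ j) * (x ^ m * a ^ i) * x := by group
      _ = a ^ (i * ∑ j ∈ Finset.range m, r ^ j) * a ^ (i * r ^ m) * (x ^ m * x) := by
          rw [h1]; group

/-- PIECE SE-22a (70 lines).  `(a^i x)^p = a^(i s) x^p` with `s = Σ_{j<p} r^j` (as
`x^j a^i x^(-j) = a^(i r^j)`), which is `a^(i s + k)`.  If `p ∣ k`, `s = p u`, `p ∤ u`, choose `i`
with `i p u + k = 0` modulo `p^n`. -/
theorem cyc_step (p : ℕ) [Fact p.Prime] (a x : P) (n r k : ℕ) (ha : orderOf a = p ^ n)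
    (hx : x * a * x⁻¹ = a ^ r) (hxk : x ^ p = a ^ k)
    (hs : ∃ u : ℕ, ¬ p ∣ u ∧ ∑ j ∈ Finset.range p, r ^ j = p * u) (hk : p ∣ k) :
    ∃ i : ℕ, (a ^ i * x) ^ p = 1 := by
  obtain ⟨u, hu, hsum⟩ := hs
  obtain ⟨k', rfl⟩ := hk
  have hp : p.Prime := Fact.out
  have hcop : Nat.Coprime u (p ^ n) := Nat.Coprime.pow_right n ((hp.coprime_iff_not_dvd.mpr hu).symm)
  have hne : NeZero (p ^ n) := ⟨pow_ne_zero _ hp.ne_zero⟩
  refine ⟨((-(k' : ZMod (p ^ n))) * (u : ZMod (p ^ n))⁻¹).val, ?_⟩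
  rw [S22_pow a x r hx, hsum, hxk, ← pow_add, ← orderOf_dvd_iff_pow_eq_one, ha]
  have h1 : p ^ n ∣ ((-(k' : ZMod (p ^ n))) * (u : ZMod (p ^ n))⁻¹).val * u + k' := by
    rw [← ZMod.natCast_eq_zero_iff]
    push_cast
    rw [ZMod.natCast_val, ZMod.cast_id, mul_assoc, mul_comm ((u : ZMod (p ^ n))⁻¹),
      ZMod.coe_mul_inv_eq_one u hcop]
    ring
  have h2 : ((-(k' : ZMod (p ^ n))) * (u : ZMod (p ^ n))⁻¹).val * (p * u) + p * k' =
      p * (((-(k' : ZMod (p ^ n))) * (u : ZMod (p ^ n))⁻¹).val * u + k') := by ring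
  rw [h2]
  exact Dvd.dvd.mul_left h1 p

/-- PIECE SE-22b (60 lines).  If `r = 1` modulo `p` (`p` odd) or `r = 1` modulo `4` (`p = 2`) then
`Σ_{j<p} r^j = p u` with `p ∤ u`: for odd `p`, `r = 1 + p t`: `r^j = 1 + j p t` modulo `p²` and
`Σ_{j<p} j = p (p-1)/2`. -/
theorem sum_pow (p : ℕ) [Fact p.Prime] (r : ℕ)
    (h : (p ≠ 2 ∧ r ≡ 1 [MOD p]) ∨ (p = 2 ∧ r ≡ 1 [MOD 4])) :
    ∃ u : ℕ, ¬ p ∣ u ∧ ∑ j ∈ Finset.range p, r ^ j = p * u := by
  have hp : p.Prime := Fact.out
  rcases h with ⟨hp2, hr⟩ | ⟨rfl, hr⟩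
  · have hodd : Odd p := hp.odd_of_ne_two hp2
    obtain ⟨t, ht⟩ : ∃ t : ℤ, (r : ℤ) = 1 + p * t := by
      have h1 : (p : ℤ) ∣ (r : ℤ) - 1 := by
        have h2 := (Nat.modEq_iff_dvd.mp hr.symm)
        push_cast at h2
        exact h2
      obtain ⟨t, ht⟩ := h1
      exact ⟨t, by rw [← ht]; ring⟩
    have h1 := odd_sq_dvd_geom_sum₂_sub (R := ℤ) (a := 1) (b := t) hodd
    simp only [one_pow, mul_one] at h1
    rw [← ht] at h1
    obtain ⟨s, hs⟩ := h1
    have h2 : ((∑ j ∈ Finset.range p, r ^ j : ℕ) : ℤ) = p * (1 + p * s) := by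
      push_cast
      linear_combination hs
    have h3 : p ∣ ∑ j ∈ Finset.range p, r ^ j := by
      have h4 : (p : ℤ) ∣ ((∑ j ∈ Finset.range p, r ^ j : ℕ) : ℤ) := ⟨_, h2⟩
      exact_mod_cast h4
    obtain ⟨u, hu⟩ := h3
    refine ⟨u, ?_, hu⟩
    intro hdvd
    rw [hu] at h2
    push_cast at h2
    have h5 : (u : ℤ) = 1 + p * s := mul_left_cancel₀ (by exact_mod_cast hp.ne_zero) h2
    have h6 : (p : ℤ) ∣ 1 := by
      have h7 : (p : ℤ) ∣ (u : ℤ) := by exact_mod_cast hdvd
      have h8 : (1 : ℤ) = u - p * s := by rw [h5]; ring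
      rw [h8]
      exact dvd_sub h7 (Dvd.intro _ rfl)
    have h7 : p ∣ 1 := by exact_mod_cast h6
    exact hp.one_lt.ne' (Nat.dvd_one.mp h7)
  · refine ⟨1 + 2 * (r / 4), by omega, ?_⟩
    have h1 : r % 4 = 1 := hr
    rw [Finset.sum_range_succ, Finset.sum_range_one, pow_zero, pow_one]
    omega

private theorem cyclic_of_rankOne_aux (p : ℕ) [Fact p.Prime] (hp2 : p ≠ 2) (N : ℕ) :
    ∀ (P : Type) [Group P] [Finite P], Nat.card P = p ^ N → RankOne p P → IsCyclic P := by
  have hpp : p.Prime := Fact.out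
  induction N with
  | zero =>
    intro P _ _ hN _
    have : Subsingleton P := (Nat.card_eq_one_iff_unique.1 (by rw [hN, pow_zero])).1
    exact isCyclic_of_subsingleton
  | succ n ih =>
    intro P _ _ hN h
    by_cases hn : n = 0
    · subst hn
      exact isCyclic_of_prime_card (p := p) (by rw [hN, zero_add, pow_one])
    obtain ⟨M, hM⟩ := Sylow.exists_subgroup_card_pow_prime (G := P) p (n := n)
      (by rw [hN]; exact pow_dvd_pow p (Nat.le_succ n))
    have hMi : M.index = p := by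
      have h1 := M.card_mul_index
      rw [hM, hN, pow_succ] at h1
      exact Nat.eq_of_mul_eq_mul_left (pow_pos hpp.pos n) h1
    have hMn : M.Normal := by
      apply Subgroup.normal_of_index_eq_minFac_card
      rw [hMi, hN, hpp.pow_minFac (Nat.succ_ne_zero n)]
    have hMr : RankOne p M := by
      intro x y hx hy hxy hx1
      obtain ⟨k, hk⟩ := h (x : P) (y : P) (by exact_mod_cast congrArg Subtype.val hx)
        (by exact_mod_cast congrArg Subtype.val hy) (by exact_mod_cast congrArg Subtype.val hxy)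
        (fun h1 => hx1 (Subtype.ext h1))
      exact ⟨k, Subtype.ext (by rw [hk]; rfl)⟩
    have hMc : IsCyclic M := ih M hM hMr
    obtain ⟨a, ha⟩ := hMc.exists_generator
    have hao : orderOf (a : P) = p ^ n := by
      rw [Subgroup.orderOf_coe, orderOf_eq_card_of_forall_mem_zpowers ha, hM]
    have hgen : ∀ y ∈ M, ∃ k : ℕ, y = (a : P) ^ k := by
      intro y hy
      obtain ⟨k, hk⟩ := mem_powers_iff_mem_zpowers.2 (ha ⟨y, hy⟩)
      exact ⟨k, (congrArg Subtype.val hk).symm⟩
    obtain ⟨x, hx⟩ : ∃ x : P, x ∉ M := by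
      by_contra hcon
      push Not at hcon
      have h1 : M = ⊤ := (Subgroup.eq_top_iff' M).2 hcon
      rw [h1, Subgroup.index_top] at hMi
      exact hpp.one_lt.ne hMi
    have hxp : x ^ p ∈ M := by
      have := M.pow_index_mem x
      rwa [hMi] at this
    obtain ⟨k, hk⟩ := hgen _ hxp
    obtain ⟨r, hr⟩ := hgen _ (hMn.conj_mem (a : P) a.2 x)
    by_cases hpk : p ∣ k
    · -- a contradiction
      exfalso
      have hconj : ∀ j : ℕ, x ^ j * a * (x ^ j)⁻¹ = (a : P) ^ (r ^ j) := by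
        intro j
        induction j with
        | zero => simp
        | succ j ihj =>
          have h1 : x ^ (j + 1) * a * (x ^ (j + 1))⁻¹ = x * (x ^ j * a * (x ^ j)⁻¹) * x⁻¹ := by
            rw [pow_succ']
            group
          have h2 : x * (a : P) ^ (r ^ j) * x⁻¹ = (x * a * x⁻¹) ^ (r ^ j) := by
            rw [conj_pow]
          rw [h1, ihj, h2, hr, ← pow_mul, pow_succ']
      have hrp : (a : P) ^ (r ^ p) = (a : P) ^ 1 := by
        rw [← hconj p, hk, pow_one, ← pow_succ, pow_succ', mul_assoc, mul_inv_cancel, mul_one]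
      have hmod : r ^ p ≡ 1 [MOD p] := by
        have h1 := pow_eq_pow_iff_modEq.1 hrp
        rw [hao] at h1
        exact h1.of_dvd (dvd_pow_self p hn)
      have hr1 : r ≡ 1 [MOD p] := by
        rw [← ZMod.natCast_eq_natCast_iff] at hmod ⊢
        rwa [Nat.cast_pow, ZMod.pow_card] at hmod
      obtain ⟨i, hi⟩ := cyc_step p (a : P) x n r k hao hr hk
        (sum_pow p r (Or.inl ⟨hp2, hr1⟩)) hpk
      set z : P := (a : P) ^ (p ^ (n - 1)) with hz
      have hz1 : z ≠ 1 := by
        intro h1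
        have h2 := orderOf_dvd_of_pow_eq_one h1
        rw [hao] at h2
        have h3 := (Nat.pow_dvd_pow_iff_le_right hpp.one_lt).1 h2
        omega
      have hzp : z ^ p = 1 := by
        rw [hz, ← pow_mul, ← pow_succ, Nat.sub_add_cancel (Nat.one_le_iff_ne_zero.2 hn), ← hao,
          pow_orderOf_eq_one]
      have hzr : z ^ r = z := by
        have h1 : r ≡ 1 [MOD orderOf z] := hr1.of_dvd (orderOf_dvd_of_pow_eq_one hzp)
        have h2 := pow_eq_pow_iff_modEq.2 h1
        rwa [pow_one] at h2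
      have hxz : x * z * x⁻¹ = z := by
        have h1 : x * z * x⁻¹ = (x * a * x⁻¹) ^ (p ^ (n - 1)) := by
          rw [conj_pow]
        rw [h1, hr, ← pow_mul, mul_comm, pow_mul, ← hz, hzr]
      have hxz' : x * z = z * x := by
        have := congrArg (· * x) hxz
        simpa using this
      have haz : z * (a : P) ^ i = (a : P) ^ i * z := by
        rw [hz, ← pow_add, ← pow_add, add_comm]
      have hcomm : z * ((a : P) ^ i * x) = (a : P) ^ i * x * z := by
        rw [← mul_assoc, haz, mul_assoc, ← hxz', mul_assoc]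
      obtain ⟨l, hl⟩ := h z ((a : P) ^ i * x) hzp hi hcomm hz1
      have hmem : (a : P) ^ i * x ∈ M := by
        rw [hl, hz]
        exact M.pow_mem (M.pow_mem a.2 _) _
      exact hx ((M.mul_mem_cancel_left (M.pow_mem a.2 i)).1 hmem)
    · -- the element `x` is a generator
      have h1 : (a : P) ∈ Subgroup.zpowers ((a : P) ^ k) := by
        rw [mem_zpowers_pow_iff, hao]
        exact ((Nat.Prime.coprime_iff_not_dvd hpp).2 hpk).symm.pow_right n
      rw [← hk] at h1
      have h2 : (a : P) ∈ Subgroup.zpowers x :=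
        (Subgroup.zpowers_le.2 (Subgroup.pow_mem _ (Subgroup.mem_zpowers x) p)) h1
      have hle : M ≤ Subgroup.zpowers x := by
        intro y hy
        obtain ⟨j, rfl⟩ := hgen y hy
        exact Subgroup.pow_mem _ h2 j
      have h3 : Nat.card (Subgroup.zpowers x) ∣ p ^ (n + 1) := by
        rw [← hN]
        exact Subgroup.card_subgroup_dvd_card _
      obtain ⟨j, hj, hj2⟩ := (Nat.dvd_prime_pow hpp).1 h3
      have h4 : n + 1 ≤ j := by
        by_contra hcon
        have h5 : Nat.card (Subgroup.zpowers x) ≤ Nat.card M := by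
          rw [hj2, hM]
          exact Nat.pow_le_pow_right hpp.pos (by omega)
        have h6 := Subgroup.eq_of_le_of_card_ge hle h5
        exact hx (h6 ▸ Subgroup.mem_zpowers x)
      have h7 : j = n + 1 := le_antisymm hj h4
      apply isCyclic_of_orderOf_eq_card x
      rw [← Nat.card_zpowers, hj2, h7, hN]

/-- PIECE SE-22c (120 lines).  A finite `p`-group of rank one, `p` odd, is cyclic.  Strong
induction on the order (`RankOne` passes to subgroups).  Let `P` be nontrivial, `M` a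
maximal subgroup (a coatom), normal of index `p`, cyclic by induction, `M = ⟨a⟩`, `a` of order
`p^n`.  If `n = 0`, `P` has prime order.  Let `n > 0`, `x ∉ M`, `x^p = a^k`, `x a x⁻¹ = a^r`.  If
`p ∤ k` then `a ∈ ⟨x⟩`, so `P = ⟨x⟩`.  Let `p ∣ k`.  As `x^p` commutes with `a`,
`r^p = 1` modulo `p^n`, so `r = 1` modulo `p` (Fermat).  By `sum_pow`, `cyc_step` there is
`y = a^i x ∉ M` with `y^p = 1`.  The element `z = a^(p^(n-1)) ≠ 1`, `z^p = 1`, commutes with `y`
(`z^r = z`), so `y ∈ ⟨z⟩ ≤ M` by `RankOne`, a contradiction. -/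
theorem cyclic_of_rankOne (P : Type) [Group P] [Finite P] (p : ℕ) [Fact p.Prime] (hp2 : p ≠ 2)
    (hP : IsPGroup p P) (h : RankOne p P) : IsCyclic P := by
  obtain ⟨N, hN⟩ := IsPGroup.iff_card.1 hP
  exact cyclic_of_rankOne_aux p hp2 N P hN h

/-- PIECE SE-22d (110 lines).  A finite `2`-group `C` with a central element `v` of order `4` such
that `x^4 = 1` implies `x ∈ ⟨v⟩` is cyclic.  Strong induction on the order (the hypothesis passes to
subgroups containing `v`).  If `C = ⟨v⟩` done.  Otherwise let `M ∋ v` be a maximal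
subgroup (a coatom above `⟨v⟩`), normal of index `2`, cyclic by induction, `M = ⟨a⟩`, `a` of order
`2^n`, `n ≥ 2`, so `v = a^(±2^(n-2))`.  `x ∉ M`, `x² = a^k`, `x a x⁻¹ = a^r`; `x v x⁻¹ = v` gives
`r = 1` modulo `4`.  If `k` is odd then `a ∈ ⟨x⟩`, `C = ⟨x⟩`.  If `k` is even, `sum_pow` and
`cyc_step` (`p = 2`) give `y = a^i x ∉ M` with `y² = 1`; but then `y ∈ ⟨v⟩ ≤ M`, a
contradiction. -/
theorem cyclic_of_four (C : Type) [Group C] [Finite C] (hC : IsPGroup 2 C) (v : C)
    (hv : orderOf v = 4) (hc : ∀ x : C, v * x = x * v)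
    (h : ∀ x : C, x ^ 4 = 1 → x ∈ Subgroup.zpowers v) : IsCyclic C := by
  have main : ∀ n : ℕ, ∀ (C : Type) [Group C] [Finite C], Nat.card C = n → IsPGroup 2 C →
      ∀ v : C, orderOf v = 4 → (∀ x : C, v * x = x * v) →
      (∀ x : C, x ^ 4 = 1 → x ∈ Subgroup.zpowers v) → IsCyclic C := by
    clear h hc hv v hC
    intro N
    induction N using Nat.strong_induction_on with
    | _ N IH =>
    intro C _ _ hN hC v hv hc h
    by_cases htop : Subgroup.zpowers v = ⊤
    · exact ⟨v, fun y => Subgroup.mem_zpowers_iff.1 (by rw [htop]; exact Subgroup.mem_top y)⟩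
    have : Fact (Nat.Prime 2) := ⟨Nat.prime_two⟩
    obtain ⟨m, hm⟩ := (IsPGroup.iff_card (p := 2)).1 hC
    have hcv : Nat.card (Subgroup.zpowers v) = 2 ^ 2 := by
      rw [Nat.card_zpowers, hv]
      norm_num
    have hm3 : 2 < m := by
      by_contra hle
      apply htop
      apply Subgroup.eq_top_of_le_card
      rw [hcv, hm]
      exact Nat.pow_le_pow_right (by norm_num) (by omega)
    obtain ⟨n, rfl⟩ : ∃ n, m = n + 2 + 1 := ⟨m - 3, by omega⟩
    obtain ⟨M, hM, hvM⟩ := Sylow.exists_subgroup_card_pow_prime_le (n := 2) (m := n + 2) 2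
      (by rw [hm]; exact pow_dvd_pow _ (by omega)) (Subgroup.zpowers v) hcv (by omega)
    have hidx : M.index = 2 := by
      have h1 := M.card_mul_index
      rw [hM, hm, pow_succ] at h1
      exact Nat.eq_of_mul_eq_mul_left (by positivity) h1
    have hvm : v ∈ M := hvM (Subgroup.mem_zpowers v)
    have hnorm : M.Normal := Subgroup.normal_of_index_eq_two hidx
    have hcyc : IsCyclic M := by
      refine IH (Nat.card M) ?_ M rfl (hC.to_subgroup M) ⟨v, hvm⟩ ?_ ?_ ?_
      · rw [← hN, hM, hm]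
        exact Nat.pow_lt_pow_right (by norm_num) (by omega)
      · rw [Subgroup.orderOf_mk, hv]
      · intro x
        ext
        exact hc x
      · intro x hx
        have h1 : (x : C) ^ 4 = 1 := by
          rw [← Subgroup.coe_pow, hx, Subgroup.coe_one]
        obtain ⟨j, hj⟩ := Subgroup.mem_zpowers_iff.1 (h x h1)
        refine Subgroup.mem_zpowers_iff.2 ⟨j, ?_⟩
        ext
        rw [Subgroup.coe_zpow]
        exact hj
    obtain ⟨⟨a, haM⟩, hgen'⟩ := hcyc
    have hgen : ∀ y : M, y ∈ Subgroup.zpowers (⟨a, haM⟩ : M) := fun y =>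
      Subgroup.mem_zpowers_iff.2 (hgen' y)
    have hMa : ∀ y : C, y ∈ M → ∃ j : ℕ, a ^ j = y := by
      intro y hy
      have h1 := hgen ⟨y, hy⟩
      rw [← mem_powers_iff_mem_zpowers] at h1
      obtain ⟨j, hj⟩ := h1
      refine ⟨j, ?_⟩
      have h2 := congrArg (Subtype.val) hj
      exact h2
    have hao : orderOf a = 2 ^ (n + 2) := by
      rw [← hM, ← orderOf_eq_card_of_forall_mem_zpowers hgen, Subgroup.orderOf_mk]
    obtain ⟨x, hx⟩ : ∃ x : C, x ∉ M := by
      by_contra hall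
      push Not at hall
      have h1 : M = ⊤ := (Subgroup.eq_top_iff' M).2 hall
      rw [h1, Subgroup.index_top] at hidx
      exact absurd hidx (by norm_num)
    obtain ⟨r, hr⟩ := hMa (x * a * x⁻¹) (hnorm.conj_mem a haM x)
    obtain ⟨k, hk⟩ := hMa (x ^ 2) (by
      rw [sq]
      exact Subgroup.mul_self_mem_of_index_two hidx x)
    -- the exponent of the action
    have hr1 : r ≡ 1 [MOD 4] := by
      have h1 : (a ^ 2 ^ n) ^ 4 = 1 := by
        rw [← pow_mul]
        have h2 : 2 ^ n * 4 = orderOf a := by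
          rw [hao, pow_add]
          norm_num
        rw [h2, pow_orderOf_eq_one]
      obtain ⟨j, hj⟩ := Subgroup.mem_zpowers_iff.1 (h _ h1)
      have h2 : Commute v x := hc x
      have h3 : Commute (a ^ 2 ^ n) x := by
        rw [← hj]
        exact h2.zpow_left j
      have h4 : x * (a ^ 2 ^ n) * x⁻¹ = a ^ 2 ^ n := by
        rw [← h3.eq, mul_assoc, mul_inv_cancel, mul_one]
      have h5 : x * (a ^ 2 ^ n) * x⁻¹ = a ^ (r * 2 ^ n) := by
        rw [← conj_pow, ← hr, pow_mul]
      rw [h5] at h4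
      have h6 : r * 2 ^ n ≡ 2 ^ n [MOD 4 * 2 ^ n] := by
        have h7 := pow_eq_pow_iff_modEq.1 h4
        rw [hao] at h7
        have h8 : 2 ^ (n + 2) = 4 * 2 ^ n := by
          rw [pow_add, mul_comm]
          norm_num
        rwa [h8] at h7
      have h7 : r * 2 ^ n ≡ 1 * 2 ^ n [MOD 4 * 2 ^ n] := by
        rwa [one_mul]
      exact Nat.ModEq.mul_right_cancel' (by positivity) h7
    rcases Nat.even_or_odd k with hev | hodd
    · exfalso
      obtain ⟨i, hi⟩ := cyc_step 2 a x (n + 2) r k hao hr.symm hk.symm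
        (sum_pow 2 r (Or.inr ⟨rfl, hr1⟩)) hev.two_dvd
      have h1 : (a ^ i * x) ^ 4 = 1 := by
        have h2 : (a ^ i * x) ^ 4 = ((a ^ i * x) ^ 2) ^ 2 := by rw [← pow_mul]
        rw [h2, hi, one_pow]
      have h2 : a ^ i * x ∈ M := hvM (h _ h1)
      exact hx ((Subgroup.mul_mem_cancel_left M (M.pow_mem haM i)).1 h2)
    · have hcop : Nat.Coprime k (orderOf a) := by
        rw [hao]
        exact Nat.Coprime.pow_right _ (Nat.coprime_two_right.2 hodd)
      obtain ⟨j, hj⟩ := exists_pow_eq_self_of_coprime hcop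
      have hax : a ∈ Subgroup.zpowers x := by
        rw [← hj, hk]
        exact Subgroup.pow_mem _ (Subgroup.pow_mem _ (Subgroup.mem_zpowers x) 2) j
      have hMx : ∀ y, y ∈ M → y ∈ Subgroup.zpowers x := by
        intro y hy
        obtain ⟨i, hi⟩ := hMa y hy
        rw [← hi]
        exact Subgroup.pow_mem _ hax i
      refine ⟨x, fun y => Subgroup.mem_zpowers_iff.1 ?_⟩
      by_cases hy : y ∈ M
      · exact hMx y hy
      · have h1 : x * y ∈ M := by
          rw [Subgroup.mul_mem_iff_of_index_two hidx]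
          tauto
        exact (Subgroup.mul_mem_cancel_left _ (Subgroup.mem_zpowers x)).1 (hMx _ h1)
  exact main _ C rfl hC v hv hc h

end Pool.ACH
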