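import Pool.Agent.Helper20.SE.S22

/-! Project SE (MP_9d9192_al): quotients of 2-groups of rank one. -/

set_option autoImplicit false

namespace Pool.ACH

private theorem S24_central (T : Type) [Group T] [Finite T] [Nontrivial T] (hT : IsPGroup 2 T) :
    ∃ z : T, orderOf z = 2 ∧ ∀ x, z * x = x * z := by
  have h2 : Fact (Nat.Prime 2) := ⟨Nat.prime_two⟩
  have := hT.center_nontrivial
  have hc : IsPGroup 2 (Subgroup.center T) := hT.to_subgroup _
  obtain ⟨n, hn, hcard⟩ := hc.nontrivial_iff_card.1 this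
  have hd : 2 ∣ Nat.card (Subgroup.center T) := by
    rw [hcard]
    exact dvd_pow_self 2 (by omega)
  obtain ⟨z, hz⟩ := exists_prime_orderOf_dvd_card' 2 hd
  exact ⟨z, by rw [Subgroup.orderOf_coe]; exact hz,
    fun x => (Subgroup.mem_center_iff.1 z.2 x).symm⟩

/-- PIECE SE-24a (60 lines).  A finite `2`-group of rank one of order at least `4` has a normal
cyclic subgroup of order `4`: a normal subgroup `V` of order `4` exists (preimage of a subgroup of
order `2` of the center of the quotient by a central subgroup of order `2`), and it is cyclic,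
otherwise it is commutative of exponent `2`, contradicting `RankOne`. -/
theorem exists_four (S : Type) [Group S] [Finite S] (hS : IsPGroup 2 S) (h : RankOne 2 S)
    (h4 : 4 ≤ Nat.card S) : ∃ v : S, orderOf v = 4 ∧ (Subgroup.zpowers v).Normal := by
  classical
  have h2 : Fact (Nat.Prime 2) := ⟨Nat.prime_two⟩
  have : Nontrivial S := Finite.one_lt_card_iff_nontrivial.1 (by omega)
  obtain ⟨z, hz, hzc⟩ := S24_central S hS
  have hz1 : z ≠ 1 := by
    rintro rfl
    rw [orderOf_one] at hz
    omega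
  have hz2 : z ^ 2 = 1 := by rw [← hz, pow_orderOf_eq_one]
  have hN : (Subgroup.zpowers z).Normal := by
    refine ⟨fun n hn g => ?_⟩
    obtain ⟨k, rfl⟩ := Subgroup.mem_zpowers_iff.1 hn
    have hg : g * z ^ k = z ^ k * g :=
      ((Commute.zpow_left (show Commute z g from hzc g) k).eq).symm
    rw [hg, mul_assoc, mul_inv_cancel, mul_one]
    exact hn
  have hcardZ : Nat.card (Subgroup.zpowers z) = 2 := by rw [Nat.card_zpowers, hz]
  have : Nontrivial (S ⧸ Subgroup.zpowers z) := by
    rw [← Finite.one_lt_card_iff_nontrivial]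
    have h1 := Subgroup.card_eq_card_quotient_mul_card_subgroup (Subgroup.zpowers z)
    rw [hcardZ] at h1
    omega
  obtain ⟨w, hw, hwc⟩ := S24_central (S ⧸ Subgroup.zpowers z) (hS.to_quotient _)
  obtain ⟨v, rfl⟩ := QuotientGroup.mk'_surjective (Subgroup.zpowers z) w
  have hmem : ∀ x ∈ Subgroup.zpowers z, x = 1 ∨ x = z := by
    intro x hx
    rw [mem_zpowers_iff_mem_range_orderOf, hz] at hx
    obtain ⟨j, hj, rfl⟩ := Finset.mem_image.1 hx
    rw [Finset.mem_range] at hj
    interval_cases j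
    · left; simp
    · right; simp
  have hvZ : v ∉ Subgroup.zpowers z := by
    intro hv
    have : QuotientGroup.mk' (Subgroup.zpowers z) v = 1 :=
      (QuotientGroup.eq_one_iff v).2 hv
    rw [this, orderOf_one] at hw
    omega
  have hv2 : v ^ 2 = z := by
    have h1 : QuotientGroup.mk' (Subgroup.zpowers z) (v ^ 2) = 1 := by
      rw [map_pow, ← hw, pow_orderOf_eq_one]
    rcases hmem _ ((QuotientGroup.eq_one_iff _).1 h1) with h3 | h3
    · exfalso
      obtain ⟨k, hk⟩ := h z v hz2 h3 (hzc v) hz1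
      exact hvZ (hk ▸ Subgroup.npow_mem_zpowers z k)
    · exact h3
  refine ⟨v, ?_, ?_⟩
  · have h1 : ¬ v ^ 2 ^ 1 = 1 := by
      rw [pow_one, hv2]
      exact hz1
    have h3 : v ^ 2 ^ (1 + 1) = 1 := by
      have : v ^ 2 ^ (1 + 1) = (v ^ 2) ^ 2 := by
        rw [← pow_mul]
        norm_num
      rw [this, hv2, hz2]
    have h5 := orderOf_eq_prime_pow h1 h3
    rw [h5]
    norm_num
  · refine ⟨fun n hn g => ?_⟩
    have hgv : g * v * g⁻¹ ∈ Subgroup.zpowers v := by
      have h1 : QuotientGroup.mk' (Subgroup.zpowers z) (v⁻¹ * (g * v * g⁻¹)) = 1 := by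
        rw [map_mul, map_mul, map_mul, map_inv, map_inv, ← hwc (QuotientGroup.mk' _ g),
          mul_inv_cancel_right, inv_mul_cancel]
      have h3 : g * v * g⁻¹ = v * (v⁻¹ * (g * v * g⁻¹)) := by group
      rw [h3]
      refine Subgroup.mul_mem _ (Subgroup.mem_zpowers v) ?_
      rcases hmem _ ((QuotientGroup.eq_one_iff _).1 h1) with h5 | h5
      · rw [h5]
        exact Subgroup.one_mem _
      · rw [h5, ← hv2]
        exact Subgroup.npow_mem_zpowers v 2
    obtain ⟨k, rfl⟩ := Subgroup.mem_zpowers_iff.1 hn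
    rw [← conj_zpow]
    exact Subgroup.zpow_mem _ hgv k

private theorem s24b_two {T : Type} [Group T] (hT : IsPGroup 2 T) (n : T) (j : ℕ)
    (hn : n ^ 2 ^ j ≠ 1) : ∃ m : ℕ, (n ^ m) ^ 2 ^ (j + 1) = 1 ∧ (n ^ m) ^ 2 ^ j ≠ 1 := by
  classical
  have hex : ∃ k, n ^ 2 ^ k = 1 := hT n
  have hk : n ^ 2 ^ (Nat.find hex) = 1 := Nat.find_spec hex
  have hmin : ∀ i, i < Nat.find hex → n ^ 2 ^ i ≠ 1 := fun i hi => Nat.find_min hex hi
  generalize Nat.find hex = k at hk hmin
  have hkj : j < k := by
    by_contra hle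
    push Not at hle
    apply hn
    obtain ⟨i, rfl⟩ := Nat.exists_eq_add_of_le hle
    rw [pow_add, pow_mul, hk, one_pow]
  obtain ⟨i, hi⟩ := Nat.exists_eq_add_of_lt hkj
  refine ⟨2 ^ i, ?_, ?_⟩
  · rw [← pow_mul, ← pow_add, show i + (j + 1) = k by omega]
    exact hk
  · rw [← pow_mul, ← pow_add]
    exact hmin _ (by omega)

private theorem s24b_inv {T : Type} [Group T] (h : RankOne 2 T) (v : T) (hv : orderOf v = 4)
    (hn : (Subgroup.zpowers v).Normal) :
    (∀ x, x * v ^ 2 = v ^ 2 * x) ∧ (∀ t, t ^ 2 = 1 → t = 1 ∨ t = v ^ 2) ∧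
      (∀ x, x * v * x⁻¹ = v ∨ x * v * x⁻¹ = v ^ 2 * v) := by
  have hv4 : v ^ 4 = 1 := by rw [← hv]; exact pow_orderOf_eq_one v
  have hv2 : v ^ 2 ≠ 1 := fun h2 => by
    have h3 := orderOf_dvd_of_pow_eq_one h2
    rw [hv] at h3
    exact absurd (Nat.le_of_dvd (by norm_num) h3) (by norm_num)
  have hmem : ∀ y ∈ Subgroup.zpowers v, y = 1 ∨ y = v ∨ y = v ^ 2 ∨ y = v ^ 2 * v := by
    intro y hy
    obtain ⟨k, rfl⟩ := Subgroup.mem_zpowers_iff.1 hy
    have h1 : v ^ k = v ^ (k % 4) := by
      have h2 := zpow_mod_orderOf v k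
      rw [hv] at h2
      exact h2.symm
    have h3 : k % 4 = 0 ∨ k % 4 = 1 ∨ k % 4 = 2 ∨ k % 4 = 3 := by omega
    rcases h3 with h3 | h3 | h3 | h3
    · left
      rw [h1, h3, zpow_zero]
    · right; left
      rw [h1, h3, zpow_one]
    · right; right; left
      rw [h1, h3]
      exact zpow_natCast v 2
    · right; right; right
      rw [h1, h3, ← pow_succ]
      exact zpow_natCast v 3
  have hconj : ∀ x, x * v * x⁻¹ = v ∨ x * v * x⁻¹ = v ^ 2 * v := by
    intro x
    rcases hmem _ (hn.conj_mem v (Subgroup.mem_zpowers v) x) with h1 | h1 | h1 | h1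
    · exfalso
      apply hv2
      have h2 : v = 1 := by
        have h3 : v = x⁻¹ * (x * v * x⁻¹) * x := by group
        rw [h3, h1]
        group
      rw [h2, one_pow]
    · left; exact h1
    · exfalso
      apply hv2
      have h3 : v ^ 2 = x⁻¹ * (x * v * x⁻¹) ^ 2 * x := by
        rw [conj_pow]
        group
      rw [h3, h1, ← pow_mul, hv4]
      group
    · right; exact h1
  have hcen : ∀ x, x * v ^ 2 = v ^ 2 * x := by
    intro x
    have h2 : x * v ^ 2 * x⁻¹ = (x * v * x⁻¹) ^ 2 := by rw [conj_pow]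
    have h3 : x * v ^ 2 * x⁻¹ = v ^ 2 := by
      rw [h2]
      rcases hconj x with h1 | h1
      · rw [h1]
      · rw [h1, ← pow_succ, ← pow_mul, show (2 + 1) * 2 = 4 + 2 by norm_num, pow_add, hv4, one_mul]
    rw [mul_inv_eq_iff_eq_mul] at h3
    exact h3
  refine ⟨hcen, ?_, hconj⟩
  intro t ht
  obtain ⟨k, hk⟩ := h (v ^ 2) t (by rw [← pow_mul]; exact hv4) ht (hcen t).symm hv2
  rcases Nat.even_or_odd' k with ⟨l, rfl | rfl⟩
  · left
    rw [hk, pow_mul, ← pow_mul v, hv4, one_pow]
  · right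
    rw [hk, pow_add, pow_mul, ← pow_mul v, hv4, one_pow, one_mul, pow_one]

/-- PIECE SE-24b (130 lines).  Let `S'` be a finite `2`-group of rank one with a quotient `S` of rank
one, `|S| ≥ 4`, and nontrivial kernel `N`; then `S'` is cyclic.  Take `v` of `exists_four`,
`V = ⟨v⟩`, `z = v²`; `z` is the only element of order `2` of `S'` (`z` is central, as `z` is the only
element of order `2` of the normal subgroup `V`; `RankOne`), so `z ∈ N` (`N` contains an element of
order `2`).  `C` = centralizer of `v`, of index at most `2` (`x v x⁻¹ ∈ {v, v⁻¹}`).  If `w ∈ C`,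
`w⁴ = 1`: then `w² ∈ {1, z}`, so `w ∈ {1, z}` or `(w v⁻¹)² = 1`, so `w ∈ V`.  By `cyclic_of_four`
`C` is cyclic, `C = ⟨a⟩`, `a` of order `2^n`, `n ≥ 2`.  If `C = S'`, done.  Suppose `C ≠ S'` and let
`x ∉ C`.  `x a x⁻¹ = a^r`, and `x v x⁻¹ = v⁻¹`, `v = a^(±2^(n-2))`, give `r = 3` modulo `4`;
`x² ∈ C`, `x² = a^k` commutes with `x`: `2^n ∣ k (r - 1)`, so `2^(n-1) ∣ k` and `x⁴ = 1`, so
`x² ∈ {1, z} ⊆ N`.  So `π(x)² = 1` for every `x ∉ C`.  Let `t` be a central element of order `2` of
`S`; by `RankOne` for `S`, `π(x) ∈ {1, t}` for all `x ∉ C`.  Every element of `S'` is a product of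
at most two elements outside `C`, so `π(S') ⊆ {1, t}` and `|S| ≤ 2`, a contradiction. -/
theorem cyclic_of_quot (S' S : Type) [Group S'] [Group S] [Finite S'] [Finite S]
    (hS' : IsPGroup 2 S') (h' : RankOne 2 S') (h : RankOne 2 S) (h4 : 4 ≤ Nat.card S)
    (π : S' →* S) (hπ : Function.Surjective π) (hn : ¬ Function.Injective π) :
    IsCyclic S' := by
  have hcard : Nat.card S ≤ Nat.card S' := Nat.card_le_card_of_surjective π hπ
  obtain ⟨v, hv, hvn⟩ := exists_four S' hS' h' (h4.trans hcard)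
  obtain ⟨hcen, hinv, hconj⟩ := s24b_inv h' v hv hvn
  have hSp : IsPGroup 2 S := hS'.of_surjective π hπ
  obtain ⟨vS, hvS, hvSn⟩ := exists_four S hSp h h4
  obtain ⟨-, hinvS, -⟩ := s24b_inv h vS hvS hvSn
  have hv4 : v ^ 4 = 1 := by rw [← hv]; exact pow_orderOf_eq_one v
  have hvS4 : vS ^ 4 = 1 := by rw [← hvS]; exact pow_orderOf_eq_one vS
  have hv2 : v ^ 2 ≠ 1 := fun h2 => by
    have h3 := orderOf_dvd_of_pow_eq_one h2
    rw [hv] at h3
    exact absurd (Nat.le_of_dvd (by norm_num) h3) (by norm_num)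
  -- the involution is in the kernel
  have hker : π (v ^ 2) = 1 := by
    rw [injective_iff_map_eq_one] at hn
    push Not at hn
    obtain ⟨n, hn1, hn2⟩ := hn
    obtain ⟨m, hm1, hm2⟩ := s24b_two hS' n 0 (by rwa [pow_zero, pow_one])
    rw [pow_zero, pow_one] at hm2
    rw [zero_add, pow_one] at hm1
    rcases hinv _ hm1 with h1 | h1
    · exact absurd h1 hm2
    · rw [← h1, map_pow, hn1, one_pow]
  -- elements of order dividing four which commute with `v`
  have hfour : ∀ w : S', v * w = w * v → w ^ 4 = 1 →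
      w = 1 ∨ w = v ^ 2 ∨ w = v ∨ w = v ^ 2 * v := by
    intro w hw hw4
    rcases hinv (w ^ 2) (by rw [← pow_mul]; exact hw4) with h1 | h1
    · rcases hinv w h1 with h2 | h2
      · exact Or.inl h2
      · exact Or.inr (Or.inl h2)
    · have hc : Commute w v⁻¹ := (show Commute w v from hw.symm).inv_right
      have h2 : (w * v⁻¹) ^ 2 = 1 := by
        rw [hc.mul_pow, h1, inv_pow, mul_inv_cancel]
      rcases hinv _ h2 with h3 | h3
      · exact Or.inr (Or.inr (Or.inl (mul_inv_eq_one.1 h3)))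
      · exact Or.inr (Or.inr (Or.inr (mul_inv_eq_iff_eq_mul.1 h3)))
  let C : Subgroup S' := Subgroup.centralizer {v}
  have hC : ∀ x : S', x ∈ C ↔ v * x = x * v := fun x => by
    rw [Subgroup.mem_centralizer_singleton_iff]
    exact eq_comm
  have hvC : v ∈ C := (hC v).2 rfl
  have hCcyc : IsCyclic C := by
    refine cyclic_of_four C (hS'.to_subgroup C) ⟨v, hvC⟩ ?_ ?_ ?_
    · rw [← hv, ← Subgroup.orderOf_coe]
    · intro x
      exact Subtype.ext ((hC x).1 x.2)
    · intro x hx
      have h1 : (x : S') ^ 4 = 1 := by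
        have := congrArg Subtype.val hx
        simpa using this
      have h2 : (x : S') ∈ Subgroup.zpowers v := by
        rcases hfour x ((hC x).1 x.2) h1 with h3 | h3 | h3 | h3
        · rw [h3]
          exact Subgroup.one_mem _
        · rw [h3]
          exact Subgroup.npow_mem_zpowers v 2
        · rw [h3]
          exact Subgroup.mem_zpowers v
        · rw [h3]
          exact Subgroup.mul_mem _ (Subgroup.npow_mem_zpowers v 2) (Subgroup.mem_zpowers v)
      obtain ⟨k, hk⟩ := Subgroup.mem_zpowers_iff.1 h2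
      refine Subgroup.mem_zpowers_iff.2 ⟨k, Subtype.ext ?_⟩
      rw [Subgroup.coe_zpow]
      exact hk
  by_cases hall : ∀ x : S', x ∈ C
  · obtain ⟨a, ha⟩ := hCcyc.exists_generator
    refine ⟨⟨(a : S'), fun x => ?_⟩⟩
    obtain ⟨k, hk⟩ := Subgroup.mem_zpowers_iff.1 (ha ⟨x, hall x⟩)
    refine Subgroup.mem_zpowers_iff.2 ⟨k, ?_⟩
    rw [← Subgroup.coe_zpow, hk]
  · exfalso
    push Not at hall
    obtain ⟨x0, hx0⟩ := hall
    -- elements outside `C` have order dividing four
    have hout : ∀ x : S', x ∉ C → x ^ 4 = 1 := by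
      intro x hx
      by_contra hx4
      have hxv : x * v * x⁻¹ = v ^ 2 * v := by
        rcases hconj x with h1 | h1
        · exfalso
          apply hx
          rw [hC]
          rw [mul_inv_eq_iff_eq_mul] at h1
          exact h1.symm
        · exact h1
      have hyC : v * x ^ 2 = x ^ 2 * v := by
        have h1 : x * v = v ^ 2 * v * x := by
          rw [mul_inv_eq_iff_eq_mul] at hxv
          exact hxv
        have h2 : x ^ 2 * v = v * x ^ 2 := by
          calc x ^ 2 * v = x * (x * v) := by rw [pow_two, mul_assoc]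
            _ = x * v ^ 2 * v * x := by rw [h1]; group
            _ = v ^ 2 * (x * v) * x := by rw [hcen x]; group
            _ = v ^ 2 * (v ^ 2 * v * x) * x := by rw [h1]
            _ = v ^ 4 * (v * x ^ 2) := by
                rw [pow_two x, show v ^ 4 = v ^ 2 * v ^ 2 from pow_add v 2 2]
                simp only [mul_assoc]
            _ = v * x ^ 2 := by rw [hv4, one_mul]
        exact h2.symm
      obtain ⟨m, hm1, hm2⟩ := s24b_two hS' (x ^ 2) 1 (by
        rw [pow_one, ← pow_mul]
        exact hx4)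
      rw [pow_one] at hm2
      have hu : Commute x ((x ^ 2) ^ m) := by
        rw [← pow_mul]
        exact Commute.self_pow x _
      have hvu : v * (x ^ 2) ^ m = (x ^ 2) ^ m * v :=
        (show Commute v (x ^ 2) from hyC).pow_right m
      have hm1' : ((x ^ 2) ^ m) ^ 4 = 1 := hm1
      apply hx
      rw [hC]
      rcases hfour _ hvu hm1' with h1 | h1 | h1 | h1
      · exact absurd (by rw [h1, one_pow]) hm2
      · exact absurd (by rw [h1, ← pow_mul]; exact hv4) hm2
      · rw [h1] at hu
        exact hu.symm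
      · have h5 : Commute x (v ^ 2 * ((x ^ 2) ^ m)) :=
          (show Commute x (v ^ 2) from hcen x).mul_right hu
        have h6 : v ^ 2 * (x ^ 2) ^ m = v := by
          rw [h1, ← mul_assoc, ← pow_add, hv4, one_mul]
        rw [h6] at h5
        exact h5.symm
    have hpi : ∀ x : S', x ∉ C → π x = 1 ∨ π x = vS ^ 2 := by
      intro x hx
      apply hinvS
      rw [← map_pow]
      rcases hinv (x ^ 2) (by rw [← pow_mul]; exact hout x hx) with h1 | h1
      · rw [h1, map_one]
      · rw [h1, hker]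
    have hmul : ∀ s t : S, (s = 1 ∨ s = vS ^ 2) → (t = 1 ∨ t = vS ^ 2) →
        (s * t = 1 ∨ s * t = vS ^ 2) := by
      rintro s t (rfl | rfl) (rfl | rfl)
      · left; rw [one_mul]
      · right; rw [one_mul]
      · right; rw [mul_one]
      · left; rw [← pow_add]; exact hvS4
    have hS2 : ∀ s : S, s = 1 ∨ s = vS ^ 2 := by
      intro s
      obtain ⟨g, rfl⟩ := hπ s
      by_cases hg : g ∈ C
      · have h1 : g * x0 ∉ C := fun h2 => hx0 (by
          have h3 := C.mul_mem (C.inv_mem hg) h2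
          rwa [inv_mul_cancel_left] at h3)
        have h2 : x0⁻¹ ∉ C := fun h3 => hx0 (by
          have h4 := C.inv_mem h3
          rwa [inv_inv] at h4)
        have h3 : π g = π (g * x0) * π x0⁻¹ := by
          rw [← map_mul, mul_inv_cancel_right]
        rw [h3]
        exact hmul _ _ (hpi _ h1) (hpi _ h2)
      · exact hpi g hg
    have hle : Nat.card S ≤ 2 := by
      have h1 : Nat.card S ≤ Nat.card (Fin 2) := by
        refine Nat.card_le_card_of_surjective (fun i : Fin 2 => if i = 0 then (1 : S) else vS ^ 2) ?_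
        intro s
        rcases hS2 s with h1 | h1
        · exact ⟨0, by simp [h1]⟩
        · exact ⟨1, by simp [h1]⟩
      simpa using h1
    omega

end Pool.ACH
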