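import Pool.Agent.Helper20.SE.S17
import Pool.Agent.Helper20.SE.S20
import Pool.Agent.Helper20.SE.S21
import Pool.Agent.Helper20.SE.S22

/-! Project SE (MP_9d9192_al): Sylow subgroups of the finite quotients. -/

set_option autoImplicit false

namespace Pool.ACH

variable {G : Type} [Group G]

/-- Normal subgroups of finite index which are invariant under all endomorphisms. -/
def FInv (L : Subgroup G) : Prop :=
  L.Normal ∧ L.index ≠ 0 ∧ ∀ (θ : G →* G) (g : G), g ∈ L → θ g ∈ L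

theorem FInv.inf {L L' : Subgroup G} (h : FInv L) (h' : FInv L') : FInv (L ⊓ L') := by
  have := h.1
  have := h'.1
  refine ⟨inferInstance, Subgroup.index_inf_ne_zero h.2.1 h'.2.1, fun θ g hg => ?_⟩
  exact ⟨h.2.2 θ g hg.1, h'.2.2 θ g hg.2⟩

/-- PIECE SE-25a (20 lines).  As `exists_char_le` (ACH/SF.lean). -/
theorem exists_finv_le (hfg : Group.FG G) (N : Subgroup G) (hN : N.index ≠ 0) :
    ∃ L : Subgroup G, FInv L ∧ L ≤ N := by
  classical
  have : N.FiniteIndex := ⟨hN⟩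
  have : Finite (G ⧸ N) := inferInstance
  have : Finite (G →* Equiv.Perm (G ⧸ N)) := by
    obtain ⟨S, hS⟩ := hfg.out
    refine Finite.of_injective
      (fun (f : G →* Equiv.Perm (G ⧸ N)) => fun (s : S) => f (s : G)) ?_
    intro f g hfg
    refine MonoidHom.eq_of_eqOn_dense hS ?_
    intro x hx
    exact congrFun hfg ⟨x, hx⟩
  refine ⟨⨅ f : G →* Equiv.Perm (G ⧸ N), f.ker, ⟨?_, ?_, ?_⟩, ?_⟩
  · exact Subgroup.normal_iInf_normal fun f => inferInstance
  · exact (Subgroup.finiteIndex_iInf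
      fun f : G →* Equiv.Perm (G ⧸ N) => Subgroup.finiteIndex_ker f).index_ne_zero
  · intro θ g hg
    simp only [Subgroup.mem_iInf, MonoidHom.mem_ker] at hg ⊢
    exact fun f => hg (f.comp θ)
  · refine (iInf_le _ (MulAction.toPermHom G (G ⧸ N))).trans ?_
    rw [← Subgroup.normalCore_eq_ker]
    exact Subgroup.normalCore_le N

/-- The preimage of a Sylow subgroup of a quotient. -/
def pre {p : ℕ} (L : Subgroup G) [L.Normal] (P : Sylow p (G ⧸ L)) : Subgroup G :=
  (P : Subgroup (G ⧸ L)).comap (QuotientGroup.mk' L)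

/-- PIECE SE-25b (70 lines).  The index of `pre L P` is the index of `P` (prime to `p`), the
homomorphism `pre L P → P` is surjective with kernel `L.subgroupOf (pre L P)`, of index
`|P|`. -/
theorem pre_facts {p : ℕ} [Fact p.Prime] (L : Subgroup G) [L.Normal] (hL : L.index ≠ 0)
    (P : Sylow p (G ⧸ L)) :
    L ≤ pre L P ∧ (pre L P).index ≠ 0 ∧ ¬ p ∣ (pre L P).index ∧
    (L.subgroupOf (pre L P)).index = Nat.card P ∧ (∃ k, Nat.card P = p ^ k) ∧
    (∀ k, p ^ k ∣ L.index → p ^ k ∣ Nat.card P) ∧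
    ∃ π : pre L P →* P, Function.Surjective π ∧ π.ker = L.subgroupOf (pre L P) := by
  haveI : Finite (G ⧸ L) := Nat.finite_of_card_ne_zero hL
  have hsurj : Function.Surjective (QuotientGroup.mk' L) := QuotientGroup.mk'_surjective L
  have hidx : (pre L P).index = (P : Subgroup (G ⧸ L)).index :=
    Subgroup.index_comap_of_surjective _ hsurj
  let π : pre L P →* P := (QuotientGroup.mk' L).subgroupComap (P : Subgroup (G ⧸ L))
  have hker : π.ker = L.subgroupOf (pre L P) := by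
    ext x
    rw [MonoidHom.mem_ker]
    change π x = 1 ↔ (x : G) ∈ L
    constructor
    · intro h
      have h1 : (QuotientGroup.mk' L) (x : G) = 1 := congrArg Subtype.val h
      exact (QuotientGroup.eq_one_iff _).1 h1
    · intro h
      apply Subtype.ext
      exact (QuotientGroup.eq_one_iff _).2 h
  have hπ : Function.Surjective π :=
    MonoidHom.subgroupComap_surjective_of_surjective _ _ hsurj
  refine ⟨?_, ?_, ?_, ?_, ?_, ?_, π, hπ, hker⟩
  · intro x hx
    have h1 : (QuotientGroup.mk' L) x = 1 := (QuotientGroup.eq_one_iff _).2 hx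
    rw [pre, Subgroup.mem_comap, h1]
    exact Subgroup.one_mem _
  · rw [hidx]
    exact Subgroup.index_ne_zero_of_finite
  · rw [hidx]
    exact P.not_dvd_index
  · rw [← hker]
    have h1 := Subgroup.index_ker π
    rw [h1, MonoidHom.range_eq_top.2 hπ]
    exact Nat.card_congr Subgroup.topEquiv.toEquiv
  · exact (IsPGroup.iff_card).1 P.isPGroup'
  · intro k hk
    exact P.pow_dvd_card_of_pow_dvd_card hk

/-- PIECE SE-25c (50 lines).  The image of `P` under the endomorphism of `G ⧸ L` induced by `f` is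
a `p`-group, so it is contained in a Sylow subgroup, which is conjugate to `P`. -/
theorem exists_conjE {p : ℕ} [Fact p.Prime] (f : G →* G) (L : Subgroup G) [L.Normal]
    (hL : L.index ≠ 0) (h : ∀ g ∈ L, f g ∈ L) (P : Sylow p (G ⧸ L)) :
    ∃ c : G, ∀ g ∈ pre L P, conjEnd c f g ∈ pre L P := by
  have : L.FiniteIndex := ⟨hL⟩
  have : Finite (G ⧸ L) := inferInstance
  obtain ⟨φ, hφ⟩ : ∃ φ : G ⧸ L →* G ⧸ L, ∀ g : G, φ (QuotientGroup.mk' L g) =
      QuotientGroup.mk' L (f g) := ⟨QuotientGroup.map L L f h, fun g => rfl⟩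
  obtain ⟨Q, hQ⟩ := (P.isPGroup'.map φ).exists_le_sylow
  obtain ⟨c', hc'⟩ := MulAction.exists_smul_eq (G ⧸ L) Q P
  obtain ⟨c, rfl⟩ := QuotientGroup.mk'_surjective L c'
  refine ⟨c, fun g hg => ?_⟩
  have h1 : QuotientGroup.mk' L (f g) ∈ (Q : Subgroup (G ⧸ L)) := by
    rw [← hφ]
    exact hQ (Subgroup.mem_map_of_mem φ hg)
  change QuotientGroup.mk' L (c * f g * c⁻¹) ∈ P
  rw [← hc', Sylow.smul_def, map_mul, map_mul, map_inv]
  exact ⟨QuotientGroup.mk' L (f g), h1, rfl⟩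

/-- PIECE SE-25d (50 lines).  The image in `G ⧸ L` of a Sylow subgroup of `G ⧸ L'` is a `p`-group, so
it is contained in a Sylow subgroup, conjugate to `P`. -/
theorem exists_sylow_le {p : ℕ} [Fact p.Prime] (L L' : Subgroup G) [L.Normal] [L'.Normal]
    (hle : L' ≤ L) (hL' : L'.index ≠ 0) (P : Sylow p (G ⧸ L)) :
    ∃ P' : Sylow p (G ⧸ L'), pre L' P' ≤ pre L P := by
  have hL : L.index ≠ 0 := fun h0 => hL' (by
    have h1 := Subgroup.index_dvd_of_le hle
    rw [h0] at h1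
    exact Nat.eq_zero_of_zero_dvd h1)
  have : L.FiniteIndex := ⟨hL⟩
  have : L'.FiniteIndex := ⟨hL'⟩
  have : Finite (G ⧸ L) := inferInstance
  have : Finite (G ⧸ L') := inferInstance
  let φ : G ⧸ L' →* G ⧸ L := QuotientGroup.map L' L (MonoidHom.id G) hle
  obtain ⟨P0⟩ : Nonempty (Sylow p (G ⧸ L')) := inferInstance
  have hpg : IsPGroup p ((P0 : Subgroup (G ⧸ L')).map φ) := P0.isPGroup'.map φ
  obtain ⟨R, hR⟩ := hpg.exists_le_sylow
  obtain ⟨g, hg⟩ := MulAction.exists_smul_eq (G ⧸ L) R P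
  obtain ⟨c, rfl⟩ := QuotientGroup.mk'_surjective L g
  refine ⟨(QuotientGroup.mk' L' c) • P0, fun x hx => ?_⟩
  have hx1 : QuotientGroup.mk' L' x ∈ (((QuotientGroup.mk' L' c) • P0 : Sylow p (G ⧸ L')) :
      Subgroup (G ⧸ L')) := hx
  rw [Sylow.coe_subgroup_smul, Subgroup.mem_pointwise_smul_iff_inv_smul_mem] at hx1
  have hx2 : (MulAut.conj (QuotientGroup.mk' L' c))⁻¹ • (QuotientGroup.mk' L' x) =
      (QuotientGroup.mk' L' c)⁻¹ * QuotientGroup.mk' L' x * QuotientGroup.mk' L' c := by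
    rw [← map_inv, MulAut.smul_def, MulAut.conj_apply, inv_inv]
  rw [hx2] at hx1
  have hx3 := hR (Subgroup.mem_map_of_mem φ hx1)
  show QuotientGroup.mk' L x ∈ (P : Subgroup (G ⧸ L))
  rw [← hg, Sylow.coe_subgroup_smul, Subgroup.mem_pointwise_smul_iff_inv_smul_mem, ← map_inv,
    MulAut.smul_def, MulAut.conj_apply, inv_inv]
  exact hx3

/-- PIECE SE-25e (60 lines).  `H = pre L P`, `c` of `exists_conjE`; `H` with the restriction of
`conjEnd c f` is a `SelfMap` with the same `m`, `c` (`SelfMap.conj`, `SelfMap.restrict`), so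
`BddP p H` (`SelfMap.bdd`, `FAb.restrict`), `exists_top`, `IsTop.hom_zero`, `rankOne_quot`. -/
theorem SelfMap.exists_top_pre {f : G →* G} {m : ℕ} {c : ℤ} (hS : SelfMap G f m c)
    (hF : FAb G) (hm : 2 ≤ m) {p : ℕ} [Fact p.Prime] (L : Subgroup G) [L.Normal]
    (hL : FInv L) (P : Sylow p (G ⧸ L)) :
    ∃ (K : Subgroup (pre L P)) (_ : K.Normal), IsTop p K ∧ RankOne p (pre L P ⧸ K) := by
  obtain ⟨g, hg⟩ := exists_conjE f L hL.2.1 (fun x hx => hL.2.2 f x hx) P
  obtain ⟨-, hidx, -⟩ := pre_facts L hL.2.1 P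
  have hS1 := (hS.conj g).restrict (pre L P) hidx hg
  have hFH : FAb (pre L P) := hF.restrict (pre L P) hidx
  have hb : BddP p (pre L P) :=
    SelfMap.bdd (f := (resEnd (conjEnd g f) (pre L P) hg : Monoid.End (pre L P))) hS1 hFH hm p
  obtain ⟨K, hK⟩ := exists_top p hb
  have hn : K.Normal := hK.1
  refine ⟨K, hn, hK, ?_⟩
  have h0 : ∀ a : Hm K (ZMod p), a = 0 := fun a => hK.hom_zero hS1.fg p a
  have hKi : K.index ≠ 0 := by
    obtain ⟨k, hk⟩ := hK.2.1
    rw [hk]
    exact pow_ne_zero _ (Nat.Prime.ne_zero Fact.out)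
  obtain ⟨_, _, _, P0, P1, P2, P3, _, _, _, _, _, _, _, _, D, _⟩ := hS1
  exact D.rankOne_quot p K hKi h0

/-- PIECE SE-25f (50 lines).  For odd `p`: the kernel of `pre L P → P` is normal of `p`-power
index, so it contains `K` of `exists_top_pre`; `pre L P ⧸ K` is cyclic (`cyclic_of_rankOne`) and maps
onto `P`. -/
theorem SelfMap.sylow_cyclic {f : G →* G} {m : ℕ} {c : ℤ} (hS : SelfMap G f m c)
    (hF : FAb G) (hm : 2 ≤ m) {p : ℕ} [Fact p.Prime] (hp2 : p ≠ 2) (L : Subgroup G) [L.Normal]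
    (hL : FInv L) (P : Sylow p (G ⧸ L)) : IsCyclic P := by
  have hpp : p.Prime := Fact.out
  obtain ⟨K, hK, hKt, hK1⟩ := hS.exists_top_pre hF hm L hL P
  obtain ⟨-, -, -, h1, ⟨k, hk⟩, -, π, hπ, hker⟩ := pre_facts L hL.2.1 P
  obtain ⟨-, ⟨j, hj⟩, hmin⟩ := hKt
  have hle : K ≤ π.ker := by
    rw [hker]
    exact hmin _ inferInstance ⟨k, by rw [h1, hk]⟩
  have hKi : K.FiniteIndex := ⟨by rw [hj]; exact pow_ne_zero _ hpp.ne_zero⟩
  have hfin : Finite (pre L P ⧸ K) := inferInstance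
  have hpg : IsPGroup p (pre L P ⧸ K) := IsPGroup.of_card (n := j) hj
  have hcyc : IsCyclic (pre L P ⧸ K) := cyclic_of_rankOne _ p hp2 hpg hK1
  exact isCyclic_of_surjective (QuotientGroup.lift K π hle)
    (QuotientGroup.lift_surjective_of_surjective K π hπ hle)

end Pool.ACH
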