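import Pool.Agent.Helper20.SE.S24
import Pool.Agent.Helper20.SE.S25
import Pool.Agent.Helper20.ACH.SF
import Pool.Agent.Helper20.ACH.SG

/-! Project SE (MP_9d9192_al): the prime two. -/

set_option autoImplicit false

namespace Pool.ACH

/-- PIECE SE-27a (60 lines).  A cyclic Sylow `2`-subgroup has a normal complement
(`IsCyclic.isComplement'`, `MonoidHom.transferSylow`, `2` is the smallest prime factor of the order
if `P ≠ 1`), so `Q` maps onto the commutative group `P`. -/
theorem card_sylow_dvd (Q : Type) [Group Q] [Finite Q] (P : Sylow 2 Q) (hP : IsCyclic P) :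
    Nat.card P ∣ Nat.card (Abelianization Q) := by
  have h2 : Fact (Nat.Prime 2) := ⟨Nat.prime_two⟩
  by_cases h1 : Nat.card P = 1
  · rw [h1]
    exact one_dvd _
  have hd : 2 ∣ Nat.card Q := by
    obtain ⟨k, hk⟩ := IsPGroup.iff_card.1 P.isPGroup'
    have hk0 : k ≠ 0 := by
      rintro rfl
      exact h1 (by rw [hk, pow_zero])
    have h3 : 2 ∣ Nat.card P := by
      rw [hk]
      exact dvd_pow_self 2 hk0
    exact h3.trans (Subgroup.card_subgroup_dvd_card (P : Subgroup Q))
  have hmin : (Nat.card Q).minFac = 2 := (Nat.minFac_eq_two_iff _).2 hd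
  have hn := IsCyclic.normalizer_le_centralizer hmin hP
  have hc := MonoidHom.ker_transferSylow_isComplement' P hn
  have h3 : (MonoidHom.transferSylow P hn).ker.index = Nat.card P := hc.symm.index_eq_card
  have h4 : commutator Q ≤ (MonoidHom.transferSylow P hn).ker := by
    rw [commutator_def, Subgroup.commutator_le]
    intro g _ h _
    rw [MonoidHom.mem_ker, map_commutatorElement, commutatorElement_eq_one_iff_mul_comm]
    letI := hP.commGroup
    exact mul_comm _ _
  rw [← h3]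
  exact Subgroup.index_dvd_of_le h4

variable {G : Type} [Group G]

/-- PIECE SE-27b (150 lines).  Let `H = pre L P`, `K` as in `exists_top_pre`; `K ≤ L.subgroupOf H`
(`pre_facts`), so `|H ⧸ K| ≥ |P| ≥ 4`; `B = K.index`; choose `L1 ≤ L ⊓ K.map H.subtype` with
`exists_finv_le`.  Let `L' ≤ L1` with `2^k ∣ L'.index`, `B < 2^k`.  Choose `P'` with
`H' = pre L' P' ≤ H` (`exists_sylow_le`), `K'` for `L', P'`.  The map `H' → H ⧸ K` is surjective: its
image has a `2`-power index, which divides `[H : H']`, which divides `[G : H']`, odd.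
Its kernel is normal of `2`-power index in `H'`, so contains `K'`; so there is a surjection
`H' ⧸ K' → H ⧸ K`, and `|H' ⧸ K'| ≥ |P'| ≥ 2^k > B = |H ⧸ K|`, so it is not injective, and
`H' ⧸ K'` is cyclic by `cyclic_of_quot`; so its quotient `P'` is cyclic, and
`2^k ∣ |P'| ∣ |Abelianization (G ⧸ L')| ∣ |Abelianization G|` (`card_sylow_dvd`). -/
theorem SelfMap.next {f : G →* G} {m : ℕ} {c : ℤ} (hS : SelfMap G f m c)
    (hF : FAb G) (hm : 2 ≤ m) (L : Subgroup G) [L.Normal]
    (hL : FInv L) (P : Sylow 2 (G ⧸ L)) (h4 : 4 ≤ Nat.card P) :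
    ∃ (B : ℕ) (L1 : Subgroup G), FInv L1 ∧ ∀ L' : Subgroup G, FInv L' → L' ≤ L1 →
      ∀ k : ℕ, 2 ^ k ∣ L'.index → B < 2 ^ k → 2 ^ k ∣ Nat.card (Abelianization G) := by
  classical
  obtain ⟨hLH, hHi, hHo, hLi, ⟨a, ha⟩, -, -⟩ := pre_facts L hL.2.1 P
  obtain ⟨K, hKn, hK, hrK⟩ := hS.exists_top_pre hF hm L hL P
  obtain ⟨-, ⟨e, he⟩, hmin⟩ := hK
  have hKL : K ≤ L.subgroupOf (pre L P) := hmin _ inferInstance ⟨a, by rw [hLi, ha]⟩
  have hKi : K.index ≠ 0 := by
    rw [he]
    exact pow_ne_zero _ two_ne_zero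
  have h4K : 4 ≤ K.index := by
    have h1 := Subgroup.index_dvd_of_le hKL
    rw [hLi] at h1
    exact h4.trans (Nat.le_of_dvd (Nat.pos_of_ne_zero hKi) h1)
  have hKm : (K.map (pre L P).subtype).index ≠ 0 := by
    rw [Subgroup.index_map_subtype]
    exact mul_ne_zero hKi hHi
  obtain ⟨L1, hL1, hL1K⟩ := exists_finv_le hS.fg (K.map (pre L P).subtype) hKm
  refine ⟨K.index, L1, hL1, fun L' hL' hL'L1 k hk hB => ?_⟩
  have hnL' : L'.Normal := hL'.1
  have hL'L : L' ≤ L := by
    refine (hL'L1.trans hL1K).trans ?_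
    rintro _ ⟨x, hx, rfl⟩
    exact hKL hx
  obtain ⟨P', hP'⟩ := exists_sylow_le L L' hL'L hL'.2.1 P
  obtain ⟨hLH', hHi', hHo', hLi', ⟨a', ha'⟩, hdv', π, hπ, hπk⟩ := pre_facts L' hL'.2.1 P'
  obtain ⟨K', hKn', hK', hrK'⟩ := hS.exists_top_pre hF hm L' hL' P'
  obtain ⟨-, ⟨e', he'⟩, hmin'⟩ := hK'
  have hKL' : K' ≤ L'.subgroupOf (pre L' P') := hmin' _ inferInstance ⟨a', by rw [hLi', ha']⟩
  have hKi' : K'.index ≠ 0 := by
    rw [he']
    exact pow_ne_zero _ two_ne_zero
  have hcK : Nat.card (pre L P ⧸ K) = 2 ^ e := he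
  have hcK' : Nat.card (pre L' P' ⧸ K') = 2 ^ e' := he'
  have hfin : Finite (pre L P ⧸ K) := Nat.finite_of_card_ne_zero (by
    rw [hcK]; exact pow_ne_zero _ two_ne_zero)
  have hfin' : Finite (pre L' P' ⧸ K') := Nat.finite_of_card_ne_zero (by
    rw [hcK']; exact pow_ne_zero _ two_ne_zero)
  -- the homomorphism to the old quotient
  obtain ⟨φ, hφ⟩ : ∃ φ : pre L' P' →* pre L P ⧸ K,
      φ = (QuotientGroup.mk' K).comp (Subgroup.inclusion hP') := ⟨_, rfl⟩
  have hφs : Function.Surjective φ := by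
    rw [← MonoidHom.range_eq_top, ← Subgroup.index_eq_one]
    have h1 : φ.range.index ∣ 2 ^ e := by
      rw [← hcK]
      exact Subgroup.index_dvd_card _
    have h2 : φ.range.index ∣ (pre L' P').index := by
      have h3 : (φ.range.comap (QuotientGroup.mk' K)).index = φ.range.index :=
        Subgroup.index_comap_of_surjective _ (QuotientGroup.mk'_surjective K)
      have h4 : (pre L' P').subgroupOf (pre L P) ≤ φ.range.comap (QuotientGroup.mk' K) := by
        intro x hx
        rw [Subgroup.mem_subgroupOf] at hx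
        refine Subgroup.mem_comap.2 ⟨⟨x, hx⟩, ?_⟩
        rw [hφ]
        rfl
      have h5 := Subgroup.index_dvd_of_le h4
      rw [h3] at h5
      refine h5.trans ?_
      have h6 := Subgroup.relIndex_mul_index hP'
      exact Dvd.intro _ h6
    obtain ⟨j, _, hj⟩ := (Nat.dvd_prime_pow Nat.prime_two).1 h1
    rcases Nat.eq_zero_or_pos j with h0 | h0
    · rw [hj, h0, pow_zero]
    · exact absurd (((hj ▸ dvd_pow_self 2 h0.ne') : 2 ∣ _).trans h2) hHo'
  have hφk : K' ≤ φ.ker := by
    refine hmin' _ inferInstance ⟨e, ?_⟩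
    rw [Subgroup.index_ker, MonoidHom.range_eq_top.2 hφs, Subgroup.card_top, hcK]
  -- the induced homomorphism
  have hψs : Function.Surjective (QuotientGroup.lift K' φ hφk) := by
    intro y
    obtain ⟨x, hx⟩ := hφs y
    exact ⟨(x : pre L' P' ⧸ K'), hx⟩
  have h2k : 2 ^ k ∣ Nat.card P' := hdv' k hk
  have hPK : Nat.card P' ∣ Nat.card (pre L' P' ⧸ K') := by
    rw [← hLi']
    exact Subgroup.index_dvd_of_le hKL'
  have hψn : ¬ Function.Injective (QuotientGroup.lift K' φ hφk) := by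
    intro hinj
    have h1 := Nat.card_congr (Equiv.ofBijective _ ⟨hinj, hψs⟩)
    have h2 : 2 ^ k ≤ Nat.card (pre L' P' ⧸ K') :=
      Nat.le_of_dvd Nat.card_pos (h2k.trans hPK)
    rw [h1] at h2
    have h3 : Nat.card (pre L P ⧸ K) = K.index := rfl
    omega
  have hcyc : IsCyclic (pre L' P' ⧸ K') :=
    cyclic_of_quot (pre L' P' ⧸ K') (pre L P ⧸ K) (IsPGroup.of_card hcK') hrK' hrK h4K
      (QuotientGroup.lift K' φ hφk) hψs hψn
  have hcycP : IsCyclic P' := by
    have h1 : K' ≤ π.ker := by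
      rw [hπk]
      exact hKL'
    refine isCyclic_of_surjective (QuotientGroup.lift K' π h1) ?_
    intro y
    obtain ⟨x, hx⟩ := hπ y
    exact ⟨(x : pre L' P' ⧸ K'), hx⟩
  have hfinL : Finite (G ⧸ L') := Nat.finite_of_card_ne_zero hL'.2.1
  refine (h2k.trans (card_sylow_dvd (G ⧸ L') P' hcycP)).trans ?_
  refine Subgroup.card_dvd_of_surjective (Abelianization.map (QuotientGroup.mk' L')) ?_
  intro y
  obtain ⟨z, rfl⟩ := QuotientGroup.mk_surjective y
  obtain ⟨x, rfl⟩ := QuotientGroup.mk'_surjective L' z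
  exact ⟨Abelianization.of x, by rw [Abelianization.map_of]; rfl⟩

/-- PIECE SE-27c (60 lines).  Suppose not; there is `L` with `4 ∣ L.index`, so `|P| ≥ 4`
(`pre_facts`) for a Sylow subgroup of `G ⧸ L`; take `B`, `L1` of `SelfMap.next`, and `L2` with
`2^k ∣ L2.index`, `2^k` larger than `B` and than the order of the finite group
`Abelianization G` (`finite_abelianization` or `derived_index_all` with `n = 1`); use
`L' = L1 ⊓ L2`. -/
theorem SelfMap.two_bounded {f : G →* G} {m : ℕ} {c : ℤ} (hS : SelfMap G f m c)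
    (hF : FAb G) (hm : 2 ≤ m) :
    ∃ N : ℕ, ∀ L : Subgroup G, FInv L → ∀ k : ℕ, 2 ^ k ∣ L.index → 2 ^ k ≤ N := by
  by_contra hcon
  push Not at hcon
  have hfg : Group.FG G := hS.fg
  obtain ⟨L, hL, k0, hk0, hlt⟩ := hcon 3
  have hLn : L.Normal := hL.1
  have hfinQ : Finite (G ⧸ L) := Nat.finite_of_card_ne_zero hL.2.1
  obtain ⟨P⟩ : Nonempty (Sylow 2 (G ⧸ L)) := inferInstance
  obtain ⟨_, _, _, _, ⟨r, hr⟩, hdvd, _⟩ := pre_facts L hL.2.1 P
  have hpos : 0 < Nat.card P := by rw [hr]; positivity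
  have h4 : 4 ≤ Nat.card P := by
    have h1 := Nat.le_of_dvd hpos (hdvd k0 hk0)
    omega
  obtain ⟨B, L1, hL1, hnext⟩ := hS.next hF hm L hL P h4
  obtain ⟨L2, hL2, k, hk, hlt2⟩ := hcon (max B (Nat.card (Abelianization G)))
  have hB : B < 2 ^ k := lt_of_le_of_lt (le_max_left _ _) hlt2
  have hA : Nat.card (Abelianization G) < 2 ^ k := lt_of_le_of_lt (le_max_right _ _) hlt2
  have h5 := hnext (L1 ⊓ L2) (hL1.inf hL2) inf_le_left k
    (hk.trans (Subgroup.index_dvd_of_le inf_le_right)) hB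
  have h6 : Nat.card (Abelianization G) ≠ 0 := by
    have h7 := derived_index_all hfg hF 1
    rw [derivedSeries_one] at h7
    exact h7
  exact absurd (Nat.le_of_dvd (Nat.pos_of_ne_zero h6) h5) (not_le.2 hA)

/-- PIECE SE-27d (90 lines).  `L ⧸ L'` is a finite group of odd order; a Sylow `p`-subgroup, `p` odd,
is isomorphic to a subgroup of a Sylow subgroup of `G ⧸ L'`, which is cyclic (`sylow_cyclic`); the
Sylow `2`-subgroup is trivial.  So `L ⧸ L'` is a Z-group; use `derived_le`. -/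
theorem SelfMap.derived_le {f : G →* G} {m : ℕ} {c : ℤ} (hS : SelfMap G f m c)
    (hF : FAb G) (hm : 2 ≤ m) (L L' : Subgroup G) (hL : FInv L) (hL' : FInv L') (hle : L' ≤ L)
    (hodd : ¬ 2 ∣ L'.relIndex L) : derivedSeries L 2 ≤ L'.subgroupOf L := by
  have hn := hL'.1
  have hi : (L'.subgroupOf L).index ≠ 0 := by
    intro h0
    have h1 : L'.relIndex L ∣ L'.index := Subgroup.relIndex_dvd_index_of_normal L' L
    have h2 : L'.relIndex L = 0 := h0
    rw [h2, zero_dvd_iff] at h1
    exact hL'.2.1 h1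
  have : (L'.subgroupOf L).FiniteIndex := ⟨hi⟩
  have : L'.FiniteIndex := ⟨hL'.2.1⟩
  refine Pool.ACH.derived_le (L'.subgroupOf L) hi ⟨fun p hp P => ?_⟩
  have : Fact p.Prime := ⟨hp⟩
  have hfin : Finite (L ⧸ L'.subgroupOf L) := inferInstance
  rcases eq_or_ne p 2 with rfl | hp2
  · obtain ⟨k, hk⟩ := IsPGroup.iff_card.1 P.isPGroup'
    have h1 : Nat.card (P : Subgroup (L ⧸ L'.subgroupOf L)) ∣ L'.relIndex L :=
      Subgroup.card_subgroup_dvd_card _
    have h2 : k = 0 := by
      by_contra hk0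
      refine hodd (dvd_trans ?_ h1)
      rw [hk]
      exact dvd_pow_self 2 hk0
    rw [h2, pow_zero] at hk
    have h3 : Subsingleton P := (Nat.card_eq_one_iff_unique.1 hk).1
    infer_instance
  · have hc : L'.subgroupOf L ≤ L'.comap L.subtype := le_rfl
    let ι : (L ⧸ L'.subgroupOf L) →* (G ⧸ L') :=
      QuotientGroup.map (L'.subgroupOf L) L' L.subtype hc
    have hι : Function.Injective ι := by
      rw [injective_iff_map_eq_one]
      intro x hx
      obtain ⟨g, rfl⟩ := QuotientGroup.mk_surjective x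
      have h1 : ((g : G) : G ⧸ L') = 1 := hx
      rw [QuotientGroup.eq_one_iff] at h1 ⊢
      exact h1
    obtain ⟨Q, hQ⟩ := (P.isPGroup'.map ι).exists_le_sylow
    have hQc : IsCyclic Q := hS.sylow_cyclic hF hm hp2 L' hL' Q
    let j : P →* Q := (ι.comp (P : Subgroup (L ⧸ L'.subgroupOf L)).subtype).codRestrict
      (Q : Subgroup (G ⧸ L')) fun x => hQ ⟨x, x.2, rfl⟩
    exact isCyclic_of_injective j fun x y hxy => by
      have h1 : ι x = ι y := congrArg Subtype.val hxy
      exact Subtype.ext (hι h1)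

/-- PIECE SE-27e (90 lines).  By `two_bounded` choose `L` with `FInv L` and
`L.index.factorization 2` as large as possible.  For `FInv L'`, `L' ≤ L`:
`L'.index = L'.relIndex L * L.index`, so `L'.relIndex L` is odd, and by `SelfMap.derived_le` it is at
most `(derivedSeries L 2).index =: B`, not zero (`derived_index` for `L`).  Choose `j` with
`m^j > B * L.index`; the range of `f^j` has index `m^j` (`SelfMap.pow`), and contains some `L''`
with `FInv L''` (`exists_finv_le`); `L' = L'' ⊓ L` gives `m^j ≤ L'.index ≤ B * L.index`, a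
contradiction. -/
theorem SelfMap.false {f : G →* G} {m : ℕ} {c : ℤ} (hS : SelfMap G f m c)
    (hF : FAb G) (hm : 2 ≤ m) : False := by
  classical
  obtain ⟨N, hN⟩ := hS.two_bounded hF hm
  let P : ℕ → Prop := fun k => ∃ L : Subgroup G, FInv L ∧ 2 ^ k ∣ L.index
  have hP0 : P 0 := by
    refine ⟨⊤, ⟨inferInstance, ?_, fun θ g _ => Subgroup.mem_top _⟩, ?_⟩
    · rw [Subgroup.index_top]
      exact one_ne_zero
    · rw [pow_zero]
      exact one_dvd _
  have hPN : ∀ k, P k → k ≤ N := by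
    rintro k ⟨L, hL, hk⟩
    exact (Nat.lt_two_pow_self).le.trans (hN L hL k hk)
  have hspec : P (Nat.findGreatest P N) := Nat.findGreatest_spec (Nat.zero_le N) hP0
  have hmax : ∀ k, P k → k ≤ Nat.findGreatest P N := fun k hk =>
    Nat.le_findGreatest (hPN k hk) hk
  generalize Nat.findGreatest P N = k0 at hspec hmax
  obtain ⟨L, hL, hk0⟩ := hspec
  have hfg : Group.FG G := hS.fg
  have hfi : L.FiniteIndex := ⟨hL.2.1⟩
  have hfgL : Group.FG L := inferInstance
  have hB := derived_index_all hfgL (hF.restrict L hL.2.1) 2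
  obtain ⟨B, hBe⟩ : ∃ B, B = (derivedSeries L 2).index := ⟨_, rfl⟩
  rw [← hBe] at hB
  -- the bound for the subgroups of `L`
  have key : ∀ L' : Subgroup G, FInv L' → L' ≤ L → L'.index ≤ B * L.index := by
    intro L' hL' hle
    have h1 : L'.relIndex L * L.index = L'.index := Subgroup.relIndex_mul_index hle
    have hodd : ¬ 2 ∣ L'.relIndex L := by
      intro h2
      have h3 : P (k0 + 1) := by
        refine ⟨L', hL', ?_⟩
        rw [← h1, pow_succ, mul_comm]
        exact mul_dvd_mul h2 hk0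
      have h4 := hmax _ h3
      omega
    have h2 := hS.derived_le hF hm L L' hL hL' hle hodd
    have h3 : L'.relIndex L ≤ B := by
      have h4 : L'.relIndex L ∣ B := by
        rw [hBe]
        exact Subgroup.index_dvd_of_le h2
      exact Nat.le_of_dvd (Nat.pos_of_ne_zero hB) h4
    rw [← h1]
    exact Nat.mul_le_mul_right _ h3
  -- a large power of the self-map
  obtain ⟨j, hj⟩ : ∃ j : ℕ, B * L.index < m ^ j := by
    refine ⟨B * L.index, ?_⟩
    exact Nat.lt_pow_self (by omega)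
  obtain ⟨F, hFidx⟩ : ∃ F : G →* G, F.range.index = m ^ j := by
    obtain ⟨_, hidx, _⟩ := SelfMap.pow (f := f) hS j
    exact ⟨_, hidx⟩
  have hne' : F.range.index ≠ 0 := by
    rw [hFidx]
    exact pow_ne_zero _ (by omega)
  obtain ⟨L'', hL'', hle''⟩ := exists_finv_le hfg _ hne'
  have h1 := key (L'' ⊓ L) (hL''.inf hL) inf_le_right
  have h2 : m ^ j ≤ (L'' ⊓ L).index := by
    have h3 : F.range.index ∣ (L'' ⊓ L).index :=
      Subgroup.index_dvd_of_le (inf_le_left.trans hle'')
    rw [hFidx] at h3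
    exact Nat.le_of_dvd (Nat.pos_of_ne_zero (hL''.inf hL).2.1) h3
  omega

end Pool.ACH
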