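import Pool.Agent.Helper20.SE.S27
import Pool.Agent.Helper20.ACH.Main
import Pool.Agent.Helper20.ACH.BZ

/-! Project SE (MP_9d9192_al): bridge and main theorem. -/

set_option autoImplicit false

namespace Pool.ACH

variable {G : Type} [Group G] {P0 P1 P2 P3 : Type} [AddCommGroup P0] [AddCommGroup P1]
    [AddCommGroup P2] [AddCommGroup P3] [DistribMulAction G P0] [DistribMulAction G P1]
    [DistribMulAction G P2] [DistribMulAction G P3]

/-- Restriction of the data to an orientable subgroup of finite index. -/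
noncomputable def PD3Pre.restrictData (D : PD3Pre G P0 P1 P2 P3) (H : Subgroup G)
    (hH : H.index ≠ 0)
    (hori : ∀ g ∈ H, ∃ c : P2 →+ ℤ, IsFs G c ∧ ∀ p, D.z (g • p) = D.z p + c (D.d2 p)) :
    PD3Data H P0 P1 P2 P3 where
  ε := D.ε
  d0 := D.d0
  d1 := D.d1
  d2 := D.d2
  ε_smul g p := D.ε_smul g p
  d0_smul g p := D.d0_smul g p
  d1_smul g p := D.d1_smul g p
  d2_smul g p := D.d2_smul g p
  p0 := D.p0
  ε_p0 := D.ε_p0
  exact0 := D.exact0
  exact1 := D.exact1
  exact2 := D.exact2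
  d2_inj := D.d2_inj
  b0 := (D.b0.restrict H hH).some
  b1 := (D.b1.restrict H hH).some
  b2 := (D.b2.restrict H hH).some
  b3 := (D.b3.restrict H hH).some
  z := D.z
  z_fs := D.z_fs.restrict H
  D2 φ hφ h := by
    obtain ⟨ψ, hψ, h1⟩ := D.D2 φ (hφ.of_restrict H hH) h
    exact ⟨ψ, hψ.restrict H, h1⟩
  D3 φ hφ := by
    obtain ⟨n, ψ, hψ, h1⟩ := D.D3 φ (hφ.of_restrict H hH)
    exact ⟨n, ψ, hψ.restrict H, h1⟩
  D3' n ψ hψ h := D.D3' n ψ (hψ.of_restrict H hH) h
  ori g := by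
    obtain ⟨c, hc, h⟩ := hori (g : G) g.2
    exact ⟨c, hc.restrict H, h⟩

/-- PIECE SE-29a (70 lines).  The proof of `PD3Data.fg` (ACH/F1.lean) does not use `ori`; copy it. -/
theorem PD3Pre.fg (D : PD3Pre G P0 P1 P2 P3) : Group.FG G := by
  classical
  let S : Set G := ⋃ i : D.b0.J, ⋃ j : D.b1.J, {g : G | D.b0.φ i (g⁻¹ • D.d0 (D.b1.e j)) ≠ 0}
  have hSfin : S.Finite := by
    apply Set.finite_iUnion
    intro i
    apply Set.finite_iUnion
    intro j
    exact D.b0.fs i _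
  let H : Subgroup G := Subgroup.closure S
  let f : P0 →+ ((G ⧸ H) →₀ ℤ) :=
    D.b0.lift (fun i g => Finsupp.single (g : G ⧸ H) (D.ε (D.b0.e i)))
  let σ : ((G ⧸ H) →₀ ℤ) →+ ℤ := Finsupp.liftAddHom (fun _ => AddMonoidHom.id ℤ)
  have hσs : ∀ (x : G ⧸ H) (n : ℤ), σ (Finsupp.single x n) = n := by
    intro x n
    simp [σ]
  have hinv : Inv G D.ε := D.ε_smul
  -- equivariance
  have hfs : ∀ (g : G) (p : P0), f (g • p) = Finsupp.mapDomain (fun x : G ⧸ H => g • x) (f p) := by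
    intro g p
    have h1 : f (g • p) = _ := D.b0.lift_smul _ g p
    rw [h1, DB.lift_apply]
    have h2 : Finsupp.mapDomain (fun x : G ⧸ H => g • x) (f p) =
        (Finsupp.mapDomain.addMonoidHom (fun x : G ⧸ H => g • x) : ((G ⧸ H) →₀ ℤ) →+ _) (f p) := rfl
    have h3 : f p = _ := D.b0.lift_apply _ p
    rw [h2, h3, map_sum]
    refine Finset.sum_congr rfl fun i _ => ?_
    rw [map_tw]
    congr 2
    funext h
    simp only [Finsupp.mapDomain.addMonoidHom_apply, Finsupp.mapDomain_single]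
    rfl
  -- the sum of the coefficients
  have hσf : ∀ p : P0, σ (f p) = D.ε p := by
    intro p
    have h3 : f p = _ := D.b0.lift_apply _ p
    rw [h3, map_sum, D.b0.expand_inv D.ε hinv p]
    refine Finset.sum_congr rfl fun i _ => ?_
    rw [map_tw]
    congr 2
    funext h
    exact hσs _ _
  have hε0 : ∀ q : P1, D.ε (D.d0 q) = 0 := fun q => (D.exact0 _).mpr ⟨q, rfl⟩
  -- the generators
  have hfe : ∀ j, f (D.d0 (D.b1.e j)) = 0 := by
    intro j
    have h1 : f (D.d0 (D.b1.e j)) = _ := D.b0.lift_apply _ _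
    have h2 : ∀ i, tw (D.b0.φ i) (D.b0.fs i)
        (fun g => Finsupp.single (g : G ⧸ H) (D.ε (D.b0.e i))) (D.d0 (D.b1.e j)) =
        Finsupp.singleAddHom ((1 : G) : G ⧸ H)
          (tw (D.b0.φ i) (D.b0.fs i) (fun _ => D.ε (D.b0.e i)) (D.d0 (D.b1.e j))) := by
      intro i
      rw [map_tw, tw_apply, tw_apply]
      refine finsum_congr fun g => ?_
      by_cases hg : D.b0.φ i (g⁻¹ • D.d0 (D.b1.e j)) = 0
      · rw [hg, zero_smul, zero_smul]
      · have hgS : g ∈ S := by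
          simp only [S, Set.mem_iUnion]
          exact ⟨i, j, hg⟩
        have hgH : g ∈ H := Subgroup.subset_closure hgS
        have h4 : (g : G ⧸ H) = ((1 : G) : G ⧸ H) := by
          rw [QuotientGroup.eq]
          simpa using hgH
        rw [h4]
        rfl
    rw [h1, Finset.sum_congr rfl (fun i _ => h2 i), ← map_sum, ← D.b0.expand_inv D.ε hinv,
      hε0, map_zero]
  have hfd : ∀ q : P1, f (D.d0 q) = 0 := by
    intro q
    have h1 := D.b1.expand (f.comp D.d0) q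
    have h2 : ∀ (j : D.b1.J) (g : G), (f.comp D.d0) (g • D.b1.e j) = 0 := by
      intro j g
      rw [AddMonoidHom.comp_apply, D.d0_smul, hfs, hfe, Finsupp.mapDomain_zero]
    simp only [h2, tw_zero, AddMonoidHom.zero_apply, Finset.sum_const_zero] at h1
    exact h1
  -- the invariant vector
  have hvi : ∀ g : G, Finsupp.mapDomain (fun x : G ⧸ H => g • x) (f D.p0) = f D.p0 := by
    intro g
    have h1 : D.ε (g • D.p0 - D.p0) = 0 := by rw [map_sub, D.ε_smul, sub_self]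
    obtain ⟨q, hq⟩ := (D.exact0 _).mp h1
    have h2 := hfd q
    rw [hq, map_sub, sub_eq_zero] at h2
    rw [← hfs, h2]
  have hc : ∀ x : G ⧸ H, f D.p0 x = f D.p0 ((1 : G) : G ⧸ H) := by
    intro x
    obtain ⟨g, rfl⟩ := QuotientGroup.mk_surjective x
    have h1 : Function.Injective (fun x : G ⧸ H => g • x) := MulAction.injective g
    have h2 := Finsupp.mapDomain_apply h1 (f D.p0) ((1 : G) : G ⧸ H)
    rw [hvi g] at h2
    have h3 : g • ((1 : G) : G ⧸ H) = ((g : G) : G ⧸ H) := by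
      change (((g * 1 : G)) : G ⧸ H) = _
      rw [mul_one]
    have h4 : f D.p0 (g • ((1 : G) : G ⧸ H)) = f D.p0 ((1 : G) : G ⧸ H) := h2
    rw [h3] at h4
    exact h4
  have hσ1 : σ (f D.p0) = 1 := by rw [hσf, D.ε_p0]
  have hcne : f D.p0 ((1 : G) : G ⧸ H) ≠ 0 := by
    intro h0
    have h1 : f D.p0 = 0 := by
      ext x
      rw [hc x, h0]
      rfl
    rw [h1, map_zero] at hσ1
    exact zero_ne_one hσ1
  have hfin : Finite (G ⧸ H) := by
    have h1 : (Set.univ : Set (G ⧸ H)) ⊆ (f D.p0).support := by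
      intro x _
      rw [Finset.mem_coe, Finsupp.mem_support_iff, hc x]
      exact hcne
    exact Set.finite_univ_iff.mp ((f D.p0).support.finite_toSet.subset h1)
  have : Fintype (G ⧸ H) := Fintype.ofFinite _
  have hsum : σ (f D.p0) = (Fintype.card (G ⧸ H) : ℤ) * f D.p0 ((1 : G) : G ⧸ H) := by
    have h1 : σ (f D.p0) = (f D.p0).sum (fun _ n => n) := by
      simp only [σ, Finsupp.liftAddHom_apply]
      rfl
    rw [h1, Finsupp.sum_fintype _ _ (fun _ => rfl), Finset.sum_congr rfl (fun x _ => hc x),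
      Finset.sum_const, Finset.card_univ, nsmul_eq_mul]
  rw [hσ1] at hsum
  have hcard : Fintype.card (G ⧸ H) = 1 := by
    have h1 : (Fintype.card (G ⧸ H) : ℤ) ∣ 1 := ⟨_, hsum⟩
    have h2 := Int.eq_one_of_dvd_one (by positivity) h1
    exact_mod_cast h2
  have hindex : H.index = 1 := by
    rw [Subgroup.index, Nat.card_eq_fintype_card, hcard]
  have htop : H = ⊤ := Subgroup.index_eq_one.mp hindex
  exact Group.fg_iff.mpr ⟨S, htop, hSfin⟩

/-- PIECE SE-29b (60 lines).  The subgroup of all `g` with `z(g p) = z p + c(d2 p)` for some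
finitely supported `c`, of index at most two (`PD3Pre.sign`: the quotient of two elements outside
is inside; `rt`, `IsFs.rt`). -/
theorem PD3Pre.exists_orientable (D : PD3Pre G P0 P1 P2 P3) :
    ∃ N : Subgroup G, N.index ≠ 0 ∧
      ∀ g ∈ N, ∃ c : P2 →+ ℤ, IsFs G c ∧ ∀ p, D.z (g • p) = D.z p + c (D.d2 p) := by
  let N : Subgroup G :=
    { carrier := {g | ∃ c : P2 →+ ℤ, IsFs G c ∧ ∀ p, D.z (g • p) = D.z p + c (D.d2 p)}
      one_mem' := ⟨0, IsFs.zero, fun p => by simp⟩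
      mul_mem' := by
        rintro g h ⟨c, hc, h1⟩ ⟨c', hc', h2⟩
        refine ⟨c' + rt h c, hc'.add (hc.rt h), fun p => ?_⟩
        rw [mul_smul, h1, h2, D.d2_smul, AddMonoidHom.add_apply, rt_apply]
        ring
      inv_mem' := by
        rintro g ⟨c, hc, h1⟩
        refine ⟨-rt g⁻¹ c, (hc.rt g⁻¹).neg, fun p => ?_⟩
        have h2 := h1 (g⁻¹ • p)
        rw [smul_inv_smul, D.d2_smul] at h2
        rw [AddMonoidHom.neg_apply, rt_apply]
        linarith }
  have hmem : ∀ g : G, g ∈ N ↔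
      ∃ c : P2 →+ ℤ, IsFs G c ∧ ∀ p, D.z (g • p) = D.z p + c (D.d2 p) := fun g => Iff.rfl
  have hneg : ∀ g : G, g ∉ N → ∃ c : P2 →+ ℤ, IsFs G c ∧
      ∀ p, D.z (g • p) = -D.z p + c (D.d2 p) := by
    intro g hg
    obtain ⟨w, c, hw, hc, h1⟩ := D.sign g
    rcases hw with rfl | rfl
    · exfalso
      refine hg ⟨c, hc, fun p => ?_⟩
      rw [h1, one_mul]
    · refine ⟨c, hc, fun p => ?_⟩
      rw [h1]
      ring
  have hprod : ∀ g a : G, g ∉ N → a ∉ N → g * a ∈ N := by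
    intro g a hg ha
    obtain ⟨c, hc, h1⟩ := hneg g hg
    obtain ⟨c', hc', h2⟩ := hneg a ha
    refine ⟨-c' + rt a c, hc'.neg.add (hc.rt a), fun p => ?_⟩
    rw [mul_smul, h1, h2, D.d2_smul, AddMonoidHom.add_apply, AddMonoidHom.neg_apply, rt_apply]
    ring
  refine ⟨N, ?_, fun g hg => (hmem g).1 hg⟩
  by_cases hN : N = ⊤
  · rw [hN, Subgroup.index_top]
    exact one_ne_zero
  · obtain ⟨a, ha⟩ : ∃ a : G, a ∉ N := by
      by_contra hcon
      push Not at hcon
      exact hN (Subgroup.eq_top_iff' N |>.2 hcon)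
    have hfin : Finite (G ⧸ N) := by
      have h1 : (Set.univ : Set (G ⧸ N)) ⊆ {((1 : G) : G ⧸ N), (a : G ⧸ N)} := by
        intro x _
        obtain ⟨g, rfl⟩ := QuotientGroup.mk_surjective x
        by_cases hg : g ∈ N
        · left
          exact QuotientGroup.eq.2 (by simpa using N.inv_mem hg)
        · right
          refine QuotientGroup.eq.2 (hprod _ _ (fun h => hg ?_) ha)
          simpa using N.inv_mem h
      exact Set.finite_univ_iff.mp ((Set.toFinite _).subset h1)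
    exact Subgroup.index_ne_zero_of_finite

/-- PIECE SE-29c (100 lines).  Chain map over the injective endomorphism `f`: `DB.exists_lift` in
each degree (as `PD3Pre.exists_chain` in ACH/BM1.lean, with `f : G →* G`); `z∘F3` is finitely
supported (`IsFs.comp_inj`), so it is `c z + ψ∘d2` by `D3`. -/
theorem PD3Pre.exists_emap (D : PD3Pre G P0 P1 P2 P3) (f : G →* G)
    (hf : Function.Injective f) :
    ∃ (F0 : P0 →+ P0) (F1 : P1 →+ P1) (F2 : P2 →+ P2) (F3 : P3 →+ P3) (c : ℤ) (ψ : P2 →+ ℤ),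
      (∀ (g : G) (p : P0), F0 (g • p) = f g • F0 p) ∧
      (∀ (g : G) (p : P1), F1 (g • p) = f g • F1 p) ∧
      (∀ (g : G) (p : P2), F2 (g • p) = f g • F2 p) ∧
      (∀ (g : G) (p : P3), F3 (g • p) = f g • F3 p) ∧
      (∀ p, D.ε (F0 p) = D.ε p) ∧ (∀ p, F0 (D.d0 p) = D.d0 (F1 p)) ∧
      (∀ p, F1 (D.d1 p) = D.d1 (F2 p)) ∧ (∀ p, F2 (D.d2 p) = D.d2 (F3 p)) ∧
      IsFs G ψ ∧ ∀ p, D.z (F3 p) = c * D.z p + ψ (D.d2 p) := by
  have h00 : ∀ p, D.ε (D.d0 p) = 0 := fun p => (D.exact0 _).2 ⟨p, rfl⟩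
  have h01 : ∀ p, D.d0 (D.d1 p) = 0 := fun p => (D.exact1 _).2 ⟨p, rfl⟩
  have h12 : ∀ p, D.d1 (D.d2 p) = 0 := fun p => (D.exact2 _).2 ⟨p, rfl⟩
  have hF0 : ∃ F0 : P0 →+ P0, (∀ (g : G) (p : P0), F0 (g • p) = f g • F0 p) ∧
      ∀ p, D.ε (F0 p) = D.ε p := by
    let _ : DistribMulAction G ℤ :=
      { smul := fun _ n => n
        one_smul := fun _ => rfl
        mul_smul := fun _ _ _ => rfl
        smul_zero := fun _ => rfl
        smul_add := fun _ _ _ => rfl }
    obtain ⟨F, h1, h2⟩ := D.b0.exists_lift f D.ε (fun g x => D.ε_smul g x) D.ε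
      (fun g x => D.ε_smul g x) (fun p => ⟨p, rfl⟩)
    exact ⟨F, h1, h2⟩
  obtain ⟨F0, F0s, F0e⟩ := hF0
  obtain ⟨F1, F1s, F1e⟩ := D.b1.exists_lift f D.d0 D.d0_smul (F0.comp D.d0)
    (fun g p => by
      rw [AddMonoidHom.comp_apply, AddMonoidHom.comp_apply, D.d0_smul, F0s])
    (fun p => by
      rw [← D.exact0, AddMonoidHom.comp_apply, F0e, h00])
  obtain ⟨F2, F2s, F2e⟩ := D.b2.exists_lift f D.d1 D.d1_smul (F1.comp D.d1)
    (fun g p => by
      rw [AddMonoidHom.comp_apply, AddMonoidHom.comp_apply, D.d1_smul, F1s])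
    (fun p => by
      rw [← D.exact1, AddMonoidHom.comp_apply, F1e, AddMonoidHom.comp_apply, h01, map_zero])
  obtain ⟨F3, F3s, F3e⟩ := D.b3.exists_lift f D.d2 D.d2_smul (F2.comp D.d2)
    (fun g p => by
      rw [AddMonoidHom.comp_apply, AddMonoidHom.comp_apply, D.d2_smul, F2s])
    (fun p => by
      rw [← D.exact2, AddMonoidHom.comp_apply, F2e, AddMonoidHom.comp_apply, h12, map_zero])
  obtain ⟨c, ψ, hψ, hz⟩ := D.D3 (D.z.comp F3) (D.z_fs.comp_inj f hf F3 F3s)
  refine ⟨F0, F1, F2, F3, c, ψ, F0s, F1s, F2s, F3s, F0e, fun p => (F1e p).symm,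
    fun p => (F2e p).symm, fun p => (F3e p).symm, hψ, fun p => ?_⟩
  have h := DFunLike.congr_fun hz p
  rw [AddMonoidHom.comp_apply, AddMonoidHom.add_apply, AddMonoidHom.comp_apply] at h
  rw [h]
  congr 1

private def S29_emap {P0 P1 P2 P3 : Type} [AddCommGroup P0] [AddCommGroup P1]
    [AddCommGroup P2] [AddCommGroup P3] [DistribMulAction G P0] [DistribMulAction G P1]
    [DistribMulAction G P2] [DistribMulAction G P3] (D : PD3Pre G P0 P1 P2 P3) (f : G →* G)
    (L : Subgroup G) (hL : L.index ≠ 0)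
    (hori : ∀ g ∈ L, ∃ c : P2 →+ ℤ, IsFs G c ∧ ∀ p, D.z (g • p) = D.z p + c (D.d2 p))
    (hfL : ∀ g ∈ L, f g ∈ L)
    (F0 : P0 →+ P0) (F1 : P1 →+ P1) (F2 : P2 →+ P2) (F3 : P3 →+ P3) (c : ℤ) (ψ : P2 →+ ℤ)
    (h0 : ∀ (g : G) (p : P0), F0 (g • p) = f g • F0 p)
    (h1 : ∀ (g : G) (p : P1), F1 (g • p) = f g • F1 p)
    (h2 : ∀ (g : G) (p : P2), F2 (g • p) = f g • F2 p)
    (h3 : ∀ (g : G) (p : P3), F3 (g • p) = f g • F3 p)
    (hε : ∀ p, D.ε (F0 p) = D.ε p) (hc0 : ∀ p, F0 (D.d0 p) = D.d0 (F1 p))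
    (hc1 : ∀ p, F1 (D.d1 p) = D.d1 (F2 p)) (hc2 : ∀ p, F2 (D.d2 p) = D.d2 (F3 p))
    (hψ : IsFs G ψ) (hdeg : ∀ p, D.z (F3 p) = c * D.z p + ψ (D.d2 p)) :
    EMap (D.restrictData L hL hori) (resEnd f L hfL) where
  F0 := F0
  F1 := F1
  F2 := F2
  F3 := F3
  F0_smul g p := h0 g p
  F1_smul g p := h1 g p
  F2_smul g p := h2 g p
  F3_smul g p := h3 g p
  ε_F0 := hε
  comm0 := hc0
  comm1 := hc1
  comm2 := hc2
  c := c
  ψ := ψ
  ψ_fs := hψ.restrict L
  deg := hdeg

/-- PIECE SE-29d (70 lines).  Choose `L` with `FInv L` inside the subgroup of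
`exists_orientable` (`exists_finv_le`, `PD3Pre.fg`); the data `D.restrictData L`, the maps of
`exists_emap`; the index of `f(L)` in `L` is `m` as in `SelfMap.restrict` (SE/S1.lean). -/
theorem PD3Pre.exists_selfMap (D : PD3Pre G P0 P1 P2 P3) (f : G →* G)
    (hf : Function.Injective f) (hm : f.range.index ≠ 0) :
    ∃ (L : Subgroup G) (hL : FInv L) (c : ℤ),
      SelfMap L (resEnd f L (fun g hg => hL.2.2 f g hg)) f.range.index c := by
  obtain ⟨N, hN, hori⟩ := D.exists_orientable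
  obtain ⟨L, hL, hLN⟩ := exists_finv_le D.fg N hN
  obtain ⟨F0, F1, F2, F3, c, ψ, h0, h1, h2, h3, hε, hc0, hc1, hc2, hψ, hdeg⟩ :=
    D.exists_emap f hf
  refine ⟨L, hL, c, ?_, ?_, hm, P0, P1, P2, P3, _, _, _, _, _, _, _, _,
    D.restrictData L hL.2.1 (fun g hg => hori g (hLN hg)),
    S29_emap D f L hL.2.1 (fun g hg => hori g (hLN hg)) (fun g hg => hL.2.2 f g hg)
      F0 F1 F2 F3 c ψ h0 h1 h2 h3 hε hc0 hc1 hc2 hψ hdeg, rfl⟩
  · intro x y hxy
    apply Subtype.ext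
    apply hf
    have h1 := congrArg (fun z : L => (z : G)) hxy
    simpa only [coe_resEnd] using h1
  · have h1 : (resEnd f L (fun g hg => hL.2.2 f g hg)).range.map L.subtype = L.map f := by
      ext x
      constructor
      · rintro ⟨y, ⟨z, rfl⟩, rfl⟩
        exact ⟨z, z.2, rfl⟩
      · rintro ⟨y, hy, rfl⟩
        exact ⟨resEnd f L (fun g hg => hL.2.2 f g hg) ⟨y, hy⟩, ⟨⟨y, hy⟩, rfl⟩, rfl⟩
    have h2 := Subgroup.index_map_subtype (resEnd f L (fun g hg => hL.2.2 f g hg)).range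
    have h3 : (L.map f).index = L.index * f.range.index := Subgroup.index_map_of_injective L hf
    rw [h1, h3, mul_comm] at h2
    exact (Nat.eq_of_mul_eq_mul_right (Nat.pos_of_ne_zero hL.2.1) h2).symm

/-- PIECE SE-29e (40 lines).  Virtual properties pass from a subgroup of finite index to the
group. -/
theorem VZ.of_subgroup (L : Subgroup G) (hL : L.index ≠ 0) (h : VZ L) : VZ G := by
  obtain ⟨H, hH, f, hf⟩ := h
  refine ⟨H.map L.subtype, ?_, f.comp
    (H.equivMapOfInjective L.subtype L.subtype_injective).symm.toMonoidHom, ?_⟩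
  · rw [Subgroup.index_map_subtype]
    exact mul_ne_zero hH hL
  · exact hf.comp (H.equivMapOfInjective L.subtype L.subtype_injective).symm.surjective

/-- The main theorem. -/
theorem selfMap_main (D : PD3Pre G P0 P1 P2 P3) (H : Subgroup G) (hH : H.index ≠ 0)
    (hH1 : H ≠ ⊤) (e : G ≃* H) : VZ G := by
  have hinj : Function.Injective (H.subtype.comp (e : G →* H)) :=
    H.subtype_injective.comp e.injective
  have hr : (H.subtype.comp (e : G →* H)).range = H := by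
    ext x
    constructor
    · rintro ⟨y, rfl⟩
      exact (e y).2
    · intro hx
      exact ⟨e.symm ⟨x, hx⟩, by simp⟩
  obtain ⟨L, hL, c, hS⟩ := D.exists_selfMap (H.subtype.comp (e : G →* H)) hinj (by rwa [hr])
  by_contra hV
  have hVL : ¬ VZ L := fun h => hV (VZ.of_subgroup L hL.2.1 h)
  refine hS.false (fab_of_not_vz hVL) ?_
  rw [hr]
  have h1 : H.index ≠ 1 := fun h => hH1 (Subgroup.index_eq_one.1 h)
  omega

end Pool.ACH
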