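import Pool.Agent.Helper20.SE.Base

/-! Project SE (MP_9d9192_al). -/

set_option autoImplicit false

namespace Pool.ACH

variable {G : Type} [Group G] {P0 P1 P2 P3 : Type} [AddCommGroup P0] [AddCommGroup P1]
    [AddCommGroup P2] [AddCommGroup P3] [DistribMulAction G P0] [DistribMulAction G P1]
    [DistribMulAction G P2] [DistribMulAction G P3]

/-- Every element of `G` is uniquely `t f(h)`, in the form which is used below. -/
private theorem S3_bij {f : G →* G} (hf : Function.Injective f) :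
    Function.Bijective (fun x : (G ⧸ f.range) × G => (x.1.out * f x.2⁻¹)⁻¹) := by
  constructor
  · rintro ⟨q, h⟩ ⟨q', h'⟩ e
    have e1 : q.out * f h⁻¹ = q'.out * f h'⁻¹ := inv_injective e
    have e2 : q = q' := by
      have e3 : (QuotientGroup.mk (q.out * f h⁻¹) : G ⧸ f.range) =
          QuotientGroup.mk (q'.out * f h'⁻¹) := by rw [e1]
      rw [QuotientGroup.mk_mul_of_mem q.out (⟨h⁻¹, rfl⟩ : f h⁻¹ ∈ f.range),
        QuotientGroup.mk_mul_of_mem q'.out (⟨h'⁻¹, rfl⟩ : f h'⁻¹ ∈ f.range),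
        QuotientGroup.out_eq', QuotientGroup.out_eq'] at e3
      exact e3
    subst e2
    have e4 : h⁻¹ = h'⁻¹ := hf (mul_left_cancel e1)
    rw [inv_injective e4]
  · intro x
    have h1 : (QuotientGroup.mk (QuotientGroup.mk x⁻¹ : G ⧸ f.range).out : G ⧸ f.range) =
        QuotientGroup.mk x⁻¹ := QuotientGroup.out_eq' _
    obtain ⟨h, hh⟩ := QuotientGroup.eq.1 h1
    refine ⟨⟨QuotientGroup.mk x⁻¹, h⁻¹⟩, ?_⟩
    simp only [inv_inv]
    rw [hh, mul_inv_cancel_left, inv_inv]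

/-- Splitting of the norm over the cosets. -/
private theorem S3_split {Q : Type} [AddCommGroup Q] [DistribMulAction G Q] {f : G →* G}
    (hf : Function.Injective f) [Fintype (G ⧸ f.range)] (φ : Q →+ ℤ) (hφ : IsFs G φ)
    (F : Q →+ Q) (hF : ∀ (g : G) (p : Q), F (g • p) = f g • F p)
    (h : ∀ q : G ⧸ f.range, IsFs G ((rt q.out φ).comp F)) (p : Q) :
    tw φ hφ (fun _ => (1 : ℚ)) (F p) =
      ∑ q : G ⧸ f.range, tw ((rt q.out φ).comp F) (h q) (fun _ => (1 : ℚ)) p := by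
  have e1 : ∀ x : (G ⧸ f.range) × G,
      φ (((x.1.out * f x.2⁻¹)⁻¹)⁻¹ • F p) • (1 : ℚ) =
        ((rt x.1.out φ).comp F) (x.2⁻¹ • p) • (1 : ℚ) := by
    intro x
    rw [inv_inv, mul_smul, ← hF, AddMonoidHom.comp_apply, rt_apply]
  have e2 : ∑ᶠ x : (G ⧸ f.range) × G, ((rt x.1.out φ).comp F) (x.2⁻¹ • p) • (1 : ℚ) =
      ∑ᶠ g : G, φ (g⁻¹ • F p) • (1 : ℚ) :=
    finsum_eq_of_bijective (fun x : (G ⧸ f.range) × G => (x.1.out * f x.2⁻¹)⁻¹) (S3_bij hf)
      fun x => (e1 x).symm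
  have e3 : (Function.support fun x : (G ⧸ f.range) × G =>
      ((rt x.1.out φ).comp F) (x.2⁻¹ • p) • (1 : ℚ)).Finite := by
    have h1 := (tw_supp φ hφ (fun _ => (1 : ℚ)) (F p)).preimage
      ((S3_bij hf).1.injOn (s := (fun x : (G ⧸ f.range) × G => (x.1.out * f x.2⁻¹)⁻¹) ⁻¹'
        (Function.support fun g : G => φ (g⁻¹ • F p) • (1 : ℚ))))
    refine h1.subset fun x hx => ?_
    rw [Set.mem_preimage, Function.mem_support, e1]
    exact hx
  rw [tw_apply, ← e2, finsum_curry _ e3, finsum_eq_sum_of_fintype]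
  exact Finset.sum_congr rfl fun q _ => rfl

/-- PIECE SE-3 (120 lines).  The degree on the norm.  Write `N φ (p) = Σ_g φ(g p)` (equal to
`tw φ (const 1)` at `p`, by `g ↦ g⁻¹`).  Let `t` run over representatives of `G ⧸ f(G)`, so every
element of `G` is uniquely `t f(g)`.  Then
`N z (F3 p) = Σ_t Σ_g z(t f(g) F3 p) = Σ_t Σ_g z(t F3(g p))
= Σ_t Σ_g [z(F3(g p)) + c_t(d2 F3 (g p))] = m N(z∘F3)(p) + Σ_t N(c_t∘F2)(d2 p)`
(`c_t` from `D.ori t`, `c_t∘F2` finitely supported by `IsFs.comp_inj`), and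
`N(z∘F3)(p) = c N z (p) + N ψ (d2 p)`. -/
theorem norm_F3 (D : PD3Data G P0 P1 P2 P3) {f : G →* G} (hf : Function.Injective f)
    (E : EMap D f) (m : ℕ) (hm : f.range.index = m) (hm0 : m ≠ 0) :
    ∃ ω : P2 →+ ℚ, Inv G ω ∧ ∀ p, tw D.z D.z_fs (fun _ => (1 : ℚ)) (E.F3 p)
      = ((m : ℚ) * E.c) * tw D.z D.z_fs (fun _ => (1 : ℚ)) p + ω (D.d2 p) := by
  classical
  have hfin : Finite (G ⧸ f.range) := by
    have h1 : f.range.index ≠ 0 := by rw [hm]; exact hm0
    exact Subgroup.index_ne_zero_iff_finite.1 h1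
  letI : Fintype (G ⧸ f.range) := Fintype.ofFinite _
  have hcard : Fintype.card (G ⧸ f.range) = m := by
    rw [← hm, Subgroup.index_eq_card, Nat.card_eq_fintype_card]
  choose cc hcc hcc2 using D.ori
  have hF : ∀ q : G ⧸ f.range, IsFs G ((rt q.out D.z).comp E.F3) := fun q =>
    (D.z_fs.rt _).comp_inj f hf E.F3 E.F3_smul
  have hC : ∀ g : G, IsFs G ((cc g).comp E.F2) := fun g =>
    (hcc g).comp_inj f hf E.F2 E.F2_smul
  have hCd : ∀ g : G, IsFs G (((cc g).comp E.F2).comp D.d2) := fun g =>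
    (hC g).comp D.d2 D.d2_smul
  have hψd : IsFs G (E.ψ.comp D.d2) := E.ψ_fs.comp D.d2 D.d2_smul
  have key : ∀ q : G ⧸ f.range, (rt q.out D.z).comp E.F3 =
      (E.c • D.z + E.ψ.comp D.d2) + ((cc q.out).comp E.F2).comp D.d2 := by
    intro q
    ext p
    simp only [AddMonoidHom.comp_apply, rt_apply, AddMonoidHom.add_apply,
      AddMonoidHom.smul_apply, smul_eq_mul]
    rw [hcc2, E.deg, E.comm2]
  refine ⟨(m : ℚ) • tw E.ψ E.ψ_fs (fun _ => (1 : ℚ)) +
    ∑ q : G ⧸ f.range, tw ((cc q.out).comp E.F2) (hC q.out) (fun _ => (1 : ℚ)), ?_, ?_⟩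
  · intro g p
    rw [AddMonoidHom.add_apply, AddMonoidHom.add_apply, AddMonoidHom.smul_apply,
      AddMonoidHom.smul_apply, AddMonoidHom.finsetSum_apply, AddMonoidHom.finsetSum_apply,
      tw_inv E.ψ E.ψ_fs (1 : ℚ) g p]
    congr 1
    exact Finset.sum_congr rfl fun q _ => tw_inv _ (hC q.out) (1 : ℚ) g p
  · intro p
    have hz1 : IsFs G (E.c • D.z) := D.z_fs.zsmul E.c
    have h1 : ∀ q : G ⧸ f.range,
        tw ((rt q.out D.z).comp E.F3) (hF q) (fun _ => (1 : ℚ)) p =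
          (E.c : ℚ) * tw D.z D.z_fs (fun _ => (1 : ℚ)) p +
            tw E.ψ E.ψ_fs (fun _ => (1 : ℚ)) (D.d2 p) +
            tw ((cc q.out).comp E.F2) (hC q.out) (fun _ => (1 : ℚ)) (D.d2 p) := by
      intro q
      rw [tw_congr (key q) (hF q) ((hz1.add hψd).add (hCd q.out)),
        tw_add_left (hz1.add hψd) (hCd q.out), tw_add_left hz1 hψd, tw_zsmul_left D.z_fs,
        AddMonoidHom.add_apply, AddMonoidHom.add_apply, AddMonoidHom.smul_apply, zsmul_eq_mul,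
        tw_comp E.ψ E.ψ_fs D.d2 D.d2_smul hψd,
        tw_comp ((cc q.out).comp E.F2) (hC q.out) D.d2 D.d2_smul (hCd q.out)]
    rw [S3_split hf D.z D.z_fs E.F3 E.F3_smul hF p, Finset.sum_congr rfl fun q _ => h1 q,
      Finset.sum_add_distrib, Finset.sum_const, Finset.card_univ, hcard, AddMonoidHom.add_apply,
      AddMonoidHom.smul_apply, AddMonoidHom.finsetSum_apply, nsmul_eq_mul, smul_eq_mul]
    ring

end Pool.ACH
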