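import Pool.Agent.Helper20.SE.S1
import Pool.Agent.Helper20.SE.S2
import Pool.Agent.Helper20.SE.S3
import Pool.Agent.Helper20.SE.S4
import Pool.Agent.Helper20.SE.S5
import Pool.Agent.Helper20.ACH.A7

/-! Project SE (MP_9d9192_al). -/

set_option autoImplicit false

namespace Pool.ACH

variable {G : Type} [Group G]

private theorem S6_tw {L P : Type} [Group L] [AddCommGroup P] [DistribMulAction L P]
    (φ : P →+ ℤ) (hφ : IsFs L φ) (a : ℚ) (p : P) :
    tw φ hφ (fun _ : L => a) p = a * tw φ hφ (fun _ : L => (1 : ℚ)) p := by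
  have h := map_tw (AddMonoidHom.mulLeft a) φ hφ (fun _ : L => (1 : ℚ)) p
  simp only [AddMonoidHom.coe_mulLeft, mul_one] at h
  exact h.symm

private theorem S6_cob {L P0 P1 P2 P3 : Type} [Group L] [AddCommGroup P0]
    [AddCommGroup P1] [AddCommGroup P2] [AddCommGroup P3] [DistribMulAction L P0]
    [DistribMulAction L P1] [DistribMulAction L P2] [DistribMulAction L P3]
    (D : PD3Data L P0 P1 P2 P3) {k : Type*} [AddCommGroup k] {ι : Type*} (s : Finset ι)
    (f : ι → (P2 →+ k)) (h : ∀ i ∈ s, D.Cob (f i)) : D.Cob (∑ i ∈ s, f i) := by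
  classical
  induction s using Finset.induction_on with
  | empty => simpa using PD3Data.Cob.zero D
  | insert i s hi ih =>
    rw [Finset.sum_insert hi]
    exact PD3Data.Cob.add D (h i (Finset.mem_insert_self i s))
      (ih fun j hj => h j (Finset.mem_insert_of_mem hj))

/-- the Lefschetz number over one group, with the chain map acting through an endomorphism -/
private theorem S6_main {L P0 P1 P2 P3 : Type} [Group L] [AddCommGroup P0]
    [AddCommGroup P1] [AddCommGroup P2] [AddCommGroup P3] [DistribMulAction L P0]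
    [DistribMulAction L P1] [DistribMulAction L P2] [DistribMulAction L P3]
    (D : PD3Data L P0 P1 P2 P3) {θ : L →* L} (hinj : Function.Injective θ) (R : EMap D θ)
    (m : ℕ) (hm : θ.range.index = m) (hm0 : m ≠ 0)
    (hZ : ¬ ∃ f : L →* Multiplicative ℤ, Function.Surjective f) :
    LinearMap.trace ℚ (IM L P0) (pullE θ R.F0 R.F0_smul)
      - LinearMap.trace ℚ (IM L P1) (pullE θ R.F1 R.F1_smul)
      + LinearMap.trace ℚ (IM L P2) (pullE θ R.F2 R.F2_smul)
      - LinearMap.trace ℚ (IM L P3) (pullE θ R.F3 R.F3_smul) = 1 - (m : ℚ) * R.c := by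
  have hfg : Group.FG L := D.fg
  have := finite_IM D.b0
  have := finite_IM D.b1
  have := finite_IM D.b2
  have := finite_IM D.b3
  have h00 : ∀ (P : Type) [AddCommGroup P] [DistribMulAction L P] (x y : IM L P),
      x = y ↔ ∀ p, x.1 p = y.1 p := by
    intro P _ _ x y
    constructor
    · rintro rfl p
      rfl
    · intro h
      apply Subtype.ext
      ext p
      exact h p
  let e : IM L P0 := ⟨(Int.castAddHom ℚ).comp D.ε, fun g p => by
    simp [D.ε_smul]⟩
  let ν : IM L P3 := ⟨tw D.z D.z_fs (fun _ => (1 : ℚ)), tw_inv _ _ _⟩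
  have he : ∀ p, e.1 p = (D.ε p : ℚ) := fun p => rfl
  have hν : ∀ p, ν.1 p = tw D.z D.z_fs (fun _ => (1 : ℚ)) p := fun p => rfl
  refine lefschetzE (pull (MulEquiv.refl L) D.d0 D.d0_smul)
    (pull (MulEquiv.refl L) D.d1 D.d1_smul) (pull (MulEquiv.refl L) D.d2 D.d2_smul)
    (pullE θ R.F0 R.F0_smul) (pullE θ R.F1 R.F1_smul) (pullE θ R.F2 R.F2_smul)
    (pullE θ R.F3 R.F3_smul) ?_ ?_ ?_ e ?_ ?_ ?_ ?_ ?_ ν ?_ ?_ _ ?_
  · intro x
    rw [h00]
    intro p
    rw [pull_apply, pullE_apply, pullE_apply, pull_apply, R.comm0]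
  · intro x
    rw [h00]
    intro p
    rw [pull_apply, pullE_apply, pullE_apply, pull_apply, R.comm1]
  · intro x
    rw [h00]
    intro p
    rw [pull_apply, pullE_apply, pullE_apply, pull_apply, R.comm2]
  · intro h
    have h1 := he D.p0
    rw [h, D.ε_p0] at h1
    simp at h1
  · intro x
    constructor
    · intro h
      have h1 : ∀ p, x.1 (D.d0 p) = 0 := fun p => (h00 _ _ _).1 h p
      refine ⟨x.1 D.p0, ?_⟩
      rw [h00]
      intro p
      rw [D.h0 x.1 h1 p]
      change x.1 D.p0 * e.1 p = _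
      rw [he, zsmul_eq_mul, mul_comm]
    · rintro ⟨a, rfl⟩
      rw [h00]
      intro p
      rw [pull_apply]
      change a * e.1 (D.d0 p) = 0
      rw [he, D.ε_d0, Int.cast_zero, mul_zero]
  · rw [h00]
    intro p
    rw [pullE_apply, he, he, R.ε_F0]
  · intro x
    constructor
    · intro h
      have h1 : ∀ p, x.1 (D.d1 p) = 0 := fun p => (h00 _ _ _).1 h p
      obtain ⟨β, B, hβ, hB, hx⟩ := D.exists_hom x.1 x.2 h1
      have hβ0 : ∀ g, β g = 0 := hom_rat_eq_zero hfg hZ β hβ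
      refine ⟨⟨B, fun g p => by rw [hB, hβ0, smul_zero, add_zero]⟩, ?_⟩
      rw [h00]
      intro p
      rw [pull_apply]
      exact (hx p).symm
    · rintro ⟨y, rfl⟩
      rw [h00]
      intro p
      rw [pull_apply, pull_apply, D.d0_d1]
      simp
  · intro x
    constructor
    · intro h
      have h1 : ∀ p, x.1 (D.d2 p) = 0 := fun p => (h00 _ _ _).1 h p
      obtain ⟨n, g, s, hs⟩ := D.chi_surj x.1 x.2 h1
      have h2 := S6_cob D Finset.univ (fun i => D.chi (g i) (s i))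
        (fun i _ => D.chi_rat (finite_abelianization hfg hZ) (g i) (s i))
      have h3 := PD3Data.Cob.add D hs h2
      rw [sub_add_cancel] at h3
      obtain ⟨u, hu, hx⟩ := h3
      refine ⟨⟨u, hu⟩, ?_⟩
      rw [h00]
      intro p
      rw [pull_apply]
      exact (hx p).symm
    · rintro ⟨y, rfl⟩
      rw [h00]
      intro p
      rw [pull_apply, pull_apply, D.d1_d2]
      simp
  · intro x
    obtain ⟨a, ω2, hω, hx⟩ := D.top_gen x.1 x.2
    refine ⟨a, ⟨ω2, hω⟩, ?_⟩
    rw [h00]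
    intro p
    change x.1 p = a * ν.1 p + ω2 (D.d2 p)
    rw [hx, hν, S6_tw]
  · intro a y h
    refine D.top_zero a y.1 y.2 fun p => ?_
    have h1 : a * ν.1 p = y.1 (D.d2 p) := (h00 _ _ _).1 h p
    rw [S6_tw, ← hν, h1]
  · obtain ⟨ω, hω, hω2⟩ := norm_F3 D hinj R m hm hm0
    refine ⟨⟨ω, hω⟩, ?_⟩
    rw [h00]
    intro p
    rw [pullE_apply]
    exact hω2 p

/-- restriction of the chain map -/
private noncomputable def S6_restr {P0 P1 P2 P3 : Type} [AddCommGroup P0] [AddCommGroup P1]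
    [AddCommGroup P2] [AddCommGroup P3] [DistribMulAction G P0] [DistribMulAction G P1]
    [DistribMulAction G P2] [DistribMulAction G P3] {D : PD3Data G P0 P1 P2 P3} {f : G →* G}
    (E : EMap D f) (H : Subgroup G) (hH : H.index ≠ 0) (h : ∀ g ∈ H, f g ∈ H) :
    EMap (D.restrict H hH) (resEnd f H h) where
  F0 := E.F0
  F1 := E.F1
  F2 := E.F2
  F3 := E.F3
  F0_smul g p := E.F0_smul g p
  F1_smul g p := E.F1_smul g p
  F2_smul g p := E.F2_smul g p
  F3_smul g p := E.F3_smul g p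
  ε_F0 := E.ε_F0
  comm0 := E.comm0
  comm1 := E.comm1
  comm2 := E.comm2
  c := E.c
  ψ := E.ψ
  ψ_fs := E.ψ_fs.restrict H
  deg := E.deg

/-- PIECE SE-6 (130 lines).  As `factA` (ACH/A7.lean), for self-maps: restrict to `L`
(`SelfMap.restrict`, or the data `D.restrict L hL` with the same `F_i`), `lefschetzE` with
`C_i = IM L P_i`, `Φ_i = pullE (resEnd f L h) F_i`, `d = m c` by `norm_F3` for the group `L`
(whose self-map has the same `m` and `c`); the traces are integral multiples of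
`Nat.card (FixE f L h)` (`trace_pullE`); no rational cohomology in degrees 1 and 2 as in
`factA` (`hom_rat_eq_zero`, `chi_surj`, `chi_rat`). -/
theorem SelfMap.fix_dvd {f : G →* G} {m : ℕ} {c : ℤ} (hS : SelfMap G f m c) (hF : FAb G)
    (L : Subgroup G) [L.Normal] (hL : L.index ≠ 0) (h : ∀ g ∈ L, f g ∈ L) :
    ((Nat.card (FixE f L h) : ℕ) : ℤ) ∣ 1 - (m : ℤ) * c := by
  have hres := hS.restrict L hL h
  obtain ⟨hinj, hm, hm0, P0, P1, P2, P3, _, _, _, _, _, _, _, _, D, E, rfl⟩ := hS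
  have h1 := S6_main (D.restrict L hL) hres.1 (S6_restr E L hL h) m hres.2.1 hm0 (hF L hL)
  obtain ⟨n0, e0⟩ := trace_pullE D.b0 f L hL h E.F0 E.F0_smul
  obtain ⟨n1, e1⟩ := trace_pullE D.b1 f L hL h E.F1 E.F1_smul
  obtain ⟨n2, e2⟩ := trace_pullE D.b2 f L hL h E.F2 E.F2_smul
  obtain ⟨n3, e3⟩ := trace_pullE D.b3 f L hL h E.F3 E.F3_smul
  have h2 : (n0 : ℚ) * Nat.card (FixE f L h) - (n1 : ℚ) * Nat.card (FixE f L h)
      + (n2 : ℚ) * Nat.card (FixE f L h) - (n3 : ℚ) * Nat.card (FixE f L h)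
      = 1 - (m : ℚ) * E.c := by
    rw [← e0, ← e1, ← e2, ← e3]
    exact h1
  have h3 : (n0 - n1 + n2 - n3) * ((Nat.card (FixE f L h) : ℕ) : ℤ) = 1 - (m : ℤ) * E.c := by
    have h4 : (((n0 - n1 + n2 - n3) * ((Nat.card (FixE f L h) : ℕ) : ℤ) : ℤ) : ℚ)
        = ((1 - (m : ℤ) * E.c : ℤ) : ℚ) := by
      push_cast
      rw [← h2]
      ring
    exact_mod_cast h4
  exact ⟨n0 - n1 + n2 - n3, by rw [← h3, mul_comm]⟩

/-- PIECE SE-6 (20 lines).  For powers. -/
theorem SelfMap.fix_pow_dvd {f : Monoid.End G} {m : ℕ} {c : ℤ} (hS : SelfMap G f m c)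
    (hF : FAb G) (L : Subgroup G) [L.Normal] (hL : L.index ≠ 0) (n : ℕ)
    (h : ∀ g ∈ L, (f ^ n : Monoid.End G) g ∈ L) :
    ((Nat.card (FixE (f ^ n : Monoid.End G) L h) : ℕ) : ℤ) ∣ 1 - ((m : ℤ) * c) ^ n := by
  have := (hS.pow n).fix_dvd hF L hL h
  rw [mul_pow]
  exact_mod_cast this

end Pool.ACH
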