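import Mathlib

/-! Project SE (MP_9d9192_al). -/

set_option autoImplicit false

namespace Pool.ACH

/-- PIECE SE-7 (80 lines).  Some power `φ^N`, `N > 0`, is idempotent (`Monoid.End T` is finite).
So `y = φ^N x` is a fixed point of `φ^N`, and the fixed points of `φ^N` form a subgroup of order
prime to `p`; take for `k` this order. -/
theorem exists_pow_kill (T : Type) [CommGroup T] [Finite T] (p : ℕ) [Fact p.Prime]
    (φ : Monoid.End T)
    (h : ∀ n : ℕ, 0 < n → ¬ p ∣ Nat.card {x : T // (φ ^ n : Monoid.End T) x = x}) :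
    ∃ N : ℕ, 0 < N ∧ ∀ x : T, ∃ k : ℕ, ¬ p ∣ k ∧ ((φ ^ N : Monoid.End T) x) ^ k = 1 := by
  have hfin : Finite (Monoid.End T) :=
    Finite.of_injective (fun f : T →* T => (f : T → T)) DFunLike.coe_injective
  obtain ⟨i, j, hij, he⟩ : ∃ i j : ℕ, i < j ∧ φ ^ i = φ ^ j := by
    obtain ⟨i, j, hne, he⟩ :=
      Finite.exists_ne_map_eq_of_infinite (fun n : ℕ => (φ ^ n : Monoid.End T))
    rcases lt_or_gt_of_ne hne with h | h
    · exact ⟨i, j, h, he⟩
    · exact ⟨j, i, h, he.symm⟩
  have h1 : ∀ n : ℕ, i ≤ n → φ ^ (n + (j - i)) = φ ^ n := by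
    intro n hn
    have e1 : n + (j - i) = (n - i) + j := by omega
    have e2 : n = (n - i) + i := by omega
    rw [e1, pow_add, ← he, ← pow_add, ← e2]
  have h2 : ∀ (t n : ℕ), i ≤ n → φ ^ (n + t * (j - i)) = φ ^ n := by
    intro t n hn
    induction t with
    | zero => simp
    | succ t ih =>
      have e1 : n + (t + 1) * (j - i) = (n + t * (j - i)) + (j - i) := by ring
      rw [e1, h1 _ (by omega), ih]
  set N : ℕ := (i + 1) * (j - i) with hN
  have hN1 : i + 1 ≤ N := by
    rw [hN]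
    exact Nat.le_mul_of_pos_right _ (by omega)
  refine ⟨N, by omega, fun x => ?_⟩
  have hid : φ ^ (N + N) = φ ^ N := h2 (i + 1) N (by omega)
  have hy : (φ ^ N : Monoid.End T) ((φ ^ N : Monoid.End T) x) = (φ ^ N : Monoid.End T) x := by
    have h3 : (φ ^ (N + N) : Monoid.End T) x = (φ ^ N : Monoid.End T) x := by rw [hid]
    rw [pow_add] at h3
    exact h3
  let S : Subgroup T := MonoidHom.eqLocus (φ ^ N : Monoid.End T) (MonoidHom.id T)
  refine ⟨Nat.card S, ?_, ?_⟩
  · exact h N (by omega)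
  · have h4 : (⟨(φ ^ N : Monoid.End T) x, hy⟩ : S) ^ Nat.card S = 1 := pow_card_eq_one'
    exact congrArg Subtype.val h4

end Pool.ACH
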