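import Pool.Agent.Helper20.SE.S6
import Pool.Agent.Helper20.SE.S7

/-! Project SE (MP_9d9192_al). -/

set_option autoImplicit false

namespace Pool.ACH

variable {G : Type} [Group G]

/-- PIECE SE-8 (60 lines).  `p ∣ m c`: some power of `f` maps `G` into `Rp p G`.
`T = Abelianization G` is finite (`finite_abelianization`, `SelfMap.fg`, `FAb` for `⊤`), with the
endomorphism `φ = Abelianization.map f`; `fix_pow_dvd` for `L = commutator G`: the number of fixed
points of `φ^n` divides `1 - (m c)^n`, so is prime to `p` for `n > 0`.  Use `exists_pow_kill`: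
`(φ^N x)^k = 1` means `(f^N g)^k ∈ commutator G`.  (`G ⧸ commutator G` is `Abelianization G`;
`FixE (f^n) L h` is in bijection with the fixed points of `φ^n`.) -/
theorem SelfMap.pow_le_Rp {f : Monoid.End G} {m : ℕ} {c : ℤ} (hS : SelfMap G f m c)
    (hF : FAb G) (p : ℕ) [Fact p.Prime] (hp : (p : ℤ) ∣ (m : ℤ) * c) :
    ∃ N : ℕ, 0 < N ∧ ∀ g : G, (f ^ N : Monoid.End G) g ∈ Rp p G := by
  have hpp : p.Prime := Fact.out
  have hZ : ¬ ∃ f : G →* Multiplicative ℤ, Function.Surjective f := by
    rintro ⟨u, hu⟩
    refine hF ⊤ (by simp) ⟨u.comp (Subgroup.subtype ⊤), fun y => ?_⟩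
    obtain ⟨x, hx⟩ := hu y
    exact ⟨⟨x, Subgroup.mem_top x⟩, hx⟩
  have hfin : Finite (Abelianization G) := finite_abelianization hS.fg hZ
  let φ : Monoid.End (Abelianization G) := Abelianization.map f
  have hφ : ∀ (n : ℕ) (g : G), (φ ^ n : Monoid.End (Abelianization G)) (Abelianization.of g) =
      Abelianization.of ((f ^ n : Monoid.End G) g) := by
    intro n
    induction n with
    | zero => intro g; rfl
    | succ n ih =>
      intro g
      rw [pow_succ, pow_succ]
      have h1 : (φ ^ n * φ : Monoid.End (Abelianization G)) (Abelianization.of g) =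
          (φ ^ n : Monoid.End (Abelianization G)) (φ (Abelianization.of g)) := rfl
      have h2 : φ (Abelianization.of g) = Abelianization.of (f g) := rfl
      have h3 : (f ^ n * f : Monoid.End G) g = (f ^ n : Monoid.End G) (f g) := rfl
      rw [h1, h2, ih, h3]
  have hL : (commutator G).index ≠ 0 := by
    have h1 : Finite (G ⧸ commutator G) := hfin
    exact Subgroup.index_ne_zero_of_finite
  have hinv : ∀ (n : ℕ), ∀ g ∈ commutator G, (f ^ n : Monoid.End G) g ∈ commutator G := by
    intro n g hg
    rw [← Abelianization.ker_of, MonoidHom.mem_ker] at hg ⊢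
    rw [← hφ, hg, map_one]
  obtain ⟨N, hN, h⟩ := exists_pow_kill (Abelianization G) p φ (by
    intro n hn hdvd
    have h1 := hS.fix_pow_dvd hF (commutator G) hL n (hinv n)
    have h2 : Nat.card (FixE (f ^ n : Monoid.End G) (commutator G) (hinv n)) =
        Nat.card {x : Abelianization G // (φ ^ n : Monoid.End (Abelianization G)) x = x} := by
      refine Nat.card_congr (Equiv.subtypeEquivRight fun x => ?_)
      have h3 : QuotientGroup.map (commutator G) (commutator G) (f ^ n : Monoid.End G)
          (fun g hg => hinv n g hg) x = (φ ^ n : Monoid.End (Abelianization G)) x := by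
        obtain ⟨g, rfl⟩ := QuotientGroup.mk_surjective x
        exact (hφ n g).symm
      rw [h3]
      exact Iff.rfl
    rw [h2] at h1
    have h4 : (p : ℤ) ∣ 1 - ((m : ℤ) * c) ^ n := (Int.natCast_dvd_natCast.2 hdvd).trans h1
    have h5 : (p : ℤ) ∣ ((m : ℤ) * c) ^ n := dvd_pow hp (by omega)
    have h6 : (p : ℤ) ∣ 1 := by
      have := dvd_add h4 h5
      rwa [sub_add_cancel] at this
    have h7 : p ∣ 1 := by exact_mod_cast h6
    exact hpp.one_lt.ne' (Nat.dvd_one.1 h7))
  refine ⟨N, hN, fun g => ?_⟩
  obtain ⟨k, hk, hk1⟩ := h (Abelianization.of g)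
  refine ⟨k, hk, ?_⟩
  rw [← Abelianization.ker_of, MonoidHom.mem_ker, map_pow, ← hφ]
  exact hk1

end Pool.ACH
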